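import Pool.Agent.Lib.MP_453ac3_co.Defs
import Pool.Agent.Lib.MP_453ac3_co.Red

/-! Definitions and statements for the upper bound `(4/9 + d) n`.
Hubs `0, 1` are the poles, `2, 3, 4` the equator (colours `0, 1, 2`). Classes `0, 1, 2` join the
pole `0` to a colour, `3, 4, 5` join the pole `1` to a colour, class `6 + a` joins the two colours
other than `a`. -/

namespace Pool.Agent.Lib.MP_453ac3_co.UB

open Finset

/-- The two hubs of a class. -/
def tok (c : Fin 9) (s : Bool) : Fin 5 :=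
  if s then ![2, 3, 4, 2, 3, 4, 4, 2, 3] c else ![0, 0, 0, 1, 1, 1, 3, 4, 2] c

/-- Spoke class (or coordinate) of the pole `X` and the colour `a`. -/
def spk (X : Bool) (a : Fin 3) : Fin 9 := if X then ![3, 4, 5] a else ![0, 1, 2] a

/-- Equator class (or third kind of coordinate) of the colour `a`. -/
def tc (a : Fin 3) : Fin 9 := ![6, 7, 8] a

/-- Supply vector of a demand between the hubs `P, Q`, with allocation `p` and colour `k`. -/
def dem (P Q : Fin 5) (p k : Fin 3) (i : Fin 9) : ℤ :=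
  if P.val < 2 ∧ Q.val < 2 then
    (if P = Q then (if i.val / 3 = P.val then 1 else 0)
      else (if i.val % 3 = k.val then (if i.val < 6 then 1 else -1) else 0))
  else if P.val < 2 then (if i.val + 2 = 3 * P.val + Q.val then 1 else 0)
  else if Q.val < 2 then (if i.val + 2 = 3 * Q.val + P.val then 1 else 0)
  else if P = Q then (if i.val + 2 = 3 * p.val + P.val then 1 else 0)
  else 0

/-- Classes at different poles. -/
def hard (e f : Fin 9) : Prop :=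
  (e.val < 3 ∧ 3 ≤ f.val ∧ f.val < 6) ∨ (f.val < 3 ∧ 3 ≤ e.val ∧ e.val < 6)

instance (e f : Fin 9) : Decidable (hard e f) := by unfold hard; infer_instance

/-- A spoke class and the equator class of the same colour. -/
def tf (e f : Fin 9) : Prop :=
  e.val % 3 = f.val % 3 ∧ ((e.val < 6 ∧ 6 ≤ f.val) ∨ (f.val < 6 ∧ 6 ≤ e.val))

instance (e f : Fin 9) : Decidable (tf e f) := by unfold tf; infer_instance

/-! ### The local system -/

section Loc

variable {R : Type} [Add R]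

/-- Value of the matching `μ e f` between the hubs of `e` and of `f`. -/
def idl (v : Fin 5 → Fin 5 → R) (μ : Fin 9 → Fin 9 → Bool) (e f : Fin 9) : R :=
  v (tok e false) (tok f (μ e f)) + v (tok e true) (tok f (!μ e f))

/-- Both hubs of `d` against the hub `x`. -/
def uu (v : Fin 5 → Fin 5 → R) (d : Fin 9) (x : Fin 5) : R :=
  v (tok d false) x + v (tok d true) x

/-- The local inequalities for values `v`, potentials `π` and matchings `μ`. -/
structure Loc [LE R] (v : Fin 5 → Fin 5 → R) (π : Fin 9 → R) (μ : Fin 9 → Fin 9 → Bool) :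
    Prop where
  loop : ∀ c, π c + v (tok c false) (tok c true) ≤
    v (tok c false) (tok c false) + v (tok c true) (tok c true)
  pair : ∀ e f, π e + π f ≤ idl v μ e f
  soft : ∀ e f, ¬ ((hard e f ∧ μ e f = true) ∨ tf e f) → ∀ d h,
    (∃ s, π d + (π e + π e + (π f + π f)) + π h ≤
      uu v d (tok e s) + uu v f (tok e (!s)) + idl v μ f h) ∨
    (∃ t, π d + (π e + π e + (π f + π f)) + π h ≤
      idl v μ d e + uu v e (tok f t) + uu v h (tok f (!t))) ∨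
    (∃ s t, π d + (π e + π e + (π f + π f)) + π h ≤
      uu v d (tok e s) + (v (tok e (!s)) (tok f t) + v (tok e (!s)) (tok f t)) +
        uu v h (tok f (!t)))

/-- The value table. -/
def vv [Zero R] (a b t : Fin 3 → R) (n : R) : Fin 5 → Fin 5 → R
  | 0, 0 => a 0 + a 1 + a 2
  | 0, 1 => n
  | 0, 2 => a 0
  | 0, 3 => a 1
  | 0, 4 => a 2
  | 1, 0 => n
  | 1, 1 => b 0 + b 1 + b 2
  | 1, 2 => b 0
  | 1, 3 => b 1
  | 1, 4 => b 2
  | 2, 0 => a 0
  | 2, 1 => b 0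
  | 2, 2 => t 0
  | 2, 3 => 0
  | 2, 4 => 0
  | 3, 0 => a 1
  | 3, 1 => b 1
  | 3, 2 => 0
  | 3, 3 => t 1
  | 3, 4 => 0
  | 4, 0 => a 2
  | 4, 1 => b 2
  | 4, 2 => 0
  | 4, 3 => 0
  | 4, 4 => t 2

end Loc

/-- A solution of the local system with margin. -/
def Cert (v : Fin 5 → Fin 5 → ℚ) : Prop :=
  ∃ (π : Fin 9 → ℚ) (μ : Fin 9 → Fin 9 → Bool), Loc v π μ ∧ v 0 0 + v 1 1 ≤ ∑ c, π c ∧
    51 * (v 0 0 + v 1 1) ≤ 50 * (∑ c, π c + (π 6 + π 7 + π 8)) ∧
    ∀ a, -2 * (v 0 0 + v 1 1) ≤ π (tc a)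

def RegStmt : Prop :=
  ∀ a b : Fin 3 → ℚ, (∀ l, 0 ≤ a l) → (∀ l, 0 ≤ b l) → (∃ l, a l = 0) → (∃ l, b l = 0) →
    ∃ st : Fin 3, ∀ n : ℚ, n ≤ a st → n ≤ b st →
      Cert (vv a b (fun l => if l = st then a st + b st - max n 0 else max (a l) (b l)) n)

/-! ### Permutations -/

def CycStmt : Prop :=
  ∀ (β : Type) [Fintype β] (σ : Equiv.Perm β),
    ∃ (Ω : Type) (_ : Fintype Ω) (k : Ω → ℕ) (e : (Σ ω, Fin (k ω + 1)) ≃ β),
      ∀ ω i, σ (e ⟨ω, i⟩) = e ⟨ω, i + 1⟩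

def WinStmt : Prop :=
  ∀ (β : Type) [Fintype β] [DecidableEq β] (σ : Equiv.Perm β) (Z : β → Prop) [DecidablePred Z]
    (K : ℕ), 0 < K → ∃ win : β → β, (∀ b, win (σ b) ≠ win b → Z b) ∧
      (∀ w, (univ.filter fun b => win b = w ∧ Z b).card ≤ K) ∧
      K * (univ.filter fun b => win (σ b) ≠ win b).card ≤ 2 * Fintype.card β

def IndStmt : Prop :=
  ∀ (β : Type) [DecidableEq β] (σ : Equiv.Perm β) (J : Finset β), (∀ b ∈ J, σ b ≠ b) →
    ∃ J' ⊆ J, J.card ≤ 3 * J'.card ∧ ∀ b ∈ J', σ b ∉ J'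

def ColStmt : Prop :=
  ∀ (β : Type) [Fintype β] (τ : β × Bool → β × Bool), Function.Involutive τ → (∀ v, τ v ≠ v) →
    ∃ (σ : Equiv.Perm β) (sd : β → Bool), ∀ b, τ (b, sd b) = (σ b, !sd (σ b))

def ExtStmt : Prop :=
  ∀ (V : Type) [Fintype V], Even (Fintype.card V) → ∀ (k : ℕ) (s t : Fin k → V),
    Function.Injective (Sum.elim s t) →
      ∃ τ : V → V, Function.Involutive τ ∧ (∀ v, τ v ≠ v) ∧ ∀ i, τ (s i) = t i

def DCycStmt : Prop :=
  ∀ (v : Fin 5 → Fin 5 → ℚ) (π : Fin 9 → ℚ) (μ : Fin 9 → Fin 9 → Bool),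
    (∀ P Q, v P Q = v Q P) → (∀ P Q : Fin 5, 2 ≤ P.val → 2 ≤ Q.val → P ≠ Q → v P Q = 0) →
    Loc v π μ → ∀ (β : Type) [Fintype β] [DecidableEq β] (σ : Equiv.Perm β) (c : β → Fin 9),
      ∃ o : β → Bool, ∑ b, π (c b) ≤ ∑ b, if σ b = b then
        v (tok (c b) false) (tok (c b) false) + v (tok (c b) true) (tok (c b) true) -
          v (tok (c b) false) (tok (c b) true)
        else v (tok (c b) (o b)) (tok (c (σ b)) (!o (σ b)))

/-! ### The exchange step -/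

/-- The state `s'` on the window `w` and `s` elsewhere. -/
def mix {β X : Type} [DecidableEq β] (win : β → β) (s s' : β → X) (w : β) : β → X :=
  fun b => if win b = w then s' b else s b

/-- Sum of local terms. -/
def tot {β X ι : Type} [Fintype β] (σ : Equiv.Perm β) (f : β → X → X → X → ι → ℤ) (s : β → X)
    (i : ι) : ℤ :=
  ∑ b, f b (s b) (s (σ b)) (s (σ (σ b))) i

def StepStmt : Prop :=
  ∀ (β X ι : Type) [Fintype β] [DecidableEq β] [Nonempty β] [Fintype ι] (σ : Equiv.Perm β)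
    (f : β → X → X → X → ι → ℤ) (A : Set (β → X)) (T : ι → ℤ) (win : β → β) (g K M : ℕ),
    (∀ b x x' x'' i, |f b x x' x'' i| ≤ 1) → A.Nonempty → 0 < g →
    100 * g * Fintype.card ι ≤ K →
    K * (univ.filter fun b => win (σ b) ≠ win b).card ≤ 2 * Fintype.card β →
    (∀ s ∈ A, ∀ s' ∈ A, ∀ w, mix win s s' w ∈ A ∧
      ∀ i, |tot σ f (mix win s s' w) i - tot σ f s i| ≤ M) →
    (∀ s ∈ A, ∀ j, ∃ s' ∈ A,
      g * ∑ i, max (T i - tot σ f s i) 0 * T i + Fintype.card β * max (T j - tot σ f s j) 0 ≤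
        g * ∑ i, max (T i - tot σ f s i) 0 * tot σ f s' i) →
    ∃ s ∈ A, ∀ i, T i - tot σ f s i ≤ g * Fintype.card ι * M ^ 2

/-! ### Instances and states -/

/-- Blocks with classes, the successor permutation, and blocks of prescribed orientation. -/
structure Inst (β : Type) where
  σ : Equiv.Perm β
  c : β → Fin 9
  fx : Finset β
  o0 : β → Bool

/-- Orientation and two decorations. -/
abbrev Dc := Bool × Fin 3 × Fin 3

namespace Inst

variable {β : Type} [DecidableEq β] (I : Inst β)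

/-- Supply of the junction from `b` to `σ b`. -/
def sup (b : β) (x x' : Dc) (i : Fin 9) : ℤ :=
  if I.σ b = b ∧ b ∉ I.fx then
    dem (tok (I.c b) false) (tok (I.c b) false) x.2.1 0 i +
      dem (tok (I.c b) true) (tok (I.c b) true) x.2.2 0 i -
      dem (tok (I.c b) false) (tok (I.c b) true) 0 0 i
  else dem (tok (I.c b) x.1) (tok (I.c (I.σ b)) (!x'.1)) x.2.1 x.2.2 i

/-- The block `σ b` is an adjuster of type `X, a`. -/
def IsAdj (X : Bool) (a : Fin 3) (b : β) : Prop :=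
  (I.c b).val < 6 ∧ (I.c b).val % 3 = a.val ∧ I.c (I.σ b) = tc a ∧ I.σ b ∉ I.fx ∧
    I.c (I.σ (I.σ b)) = spk X a

instance (X : Bool) (a : Fin 3) (b : β) : Decidable (I.IsAdj X a b) := by
  unfold IsAdj; infer_instance

/-- Indicator of a ready adjuster. -/
def rdy (b : β) (x x' x'' : Dc) (t : Bool × Fin 3 × Bool) : ℤ :=
  if I.IsAdj t.1 t.2.1 b ∧ x.1 = true ∧ x'.1 = t.2.2 ∧ x''.1 = true then 1 else 0

/-- The prescribed orientations hold. -/
def Fix (s : β → Dc) : Prop := ∀ b ∈ I.fx, (s b).1 = I.o0 b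

/-- The junction from `b` to `σ b` asks for a path between the poles. -/
def NS (s : β → Dc) (b : β) : Prop :=
  (tok (I.c b) (s b).1).val + (tok (I.c (I.σ b)) (!(s (I.σ b)).1)).val = 1

/-- Demands between the poles have colours in `L`. -/
def Adm (L : Finset (Fin 3)) (s : β → Dc) : Prop :=
  I.Fix s ∧ ∀ b, I.NS s b → (s b).2.2 ∈ L

variable [Fintype β]

/-- Total supply. -/
def y (s : β → Dc) (i : Fin 9) : ℤ := ∑ b, I.sup b (s b) (s (I.σ b)) i

/-- Number of ready adjusters. -/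
def z (s : β → Dc) (t : Bool × Fin 3 × Bool) : ℤ :=
  ∑ b, I.rdy b (s b) (s (I.σ b)) (s (I.σ (I.σ b))) t

/-- Class sizes. -/
structure Ok (m e : ℕ) : Prop where
  sp : ∀ k : Fin 9, k.val < 6 → (univ.filter fun b => I.c b = k).card = m
  lo : ∀ k : Fin 9, 6 ≤ k.val → e ≤ (univ.filter fun b => I.c b = k).card
  hi : ∀ k : Fin 9, 6 ≤ k.val → (univ.filter fun b => I.c b = k).card ≤ e + 1
  fx3 : I.fx.card ≤ 3
  fxE : ∀ b ∈ I.fx, 6 ≤ (I.c b).val
  me : m ≤ e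
  em : e ≤ 2 * m

/-- The supply covers the links. -/
def Good (m : ℕ) (s : β → Dc) : Prop :=
  I.Fix s ∧ ∀ i : Fin 9, (if i.val < 6 then (m : ℤ) else 0) ≤ I.y s i

/-- Few loops at the colour `l` without demands between the poles. -/
def Few (h : ℕ) (l : Fin 3) : Prop := ∀ s, I.Adm ∅ s → I.y s (tc l) ≤ h

/-- Links at hub level. -/
def links : Multiset (Sym2 (Fin 5)) :=
  ∑ b, {s(tok (I.c b) false, tok (I.c b) true)} +
    ∑ b ∈ univ.filter (fun b => I.σ b = b ∧ b ∉ I.fx), {s(tok (I.c b) false, tok (I.c b) true)}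

/-- Demands at hub level. -/
def dems (s : β → Dc) : Multiset (Sym2 (Fin 5)) :=
  ∑ b ∈ univ.filter (fun b => ¬ (I.σ b = b ∧ b ∉ I.fx)),
    {s(tok (I.c b) (s b).1, tok (I.c (I.σ b)) (!(s (I.σ b)).1))}

end Inst

/-- Sum of the six pole coordinates. -/
def six (lam : Fin 9 → ℤ) : ℤ := lam 0 + lam 1 + lam 2 + lam 3 + lam 4 + lam 5

structure BasStmt : Prop where
  bound : ∀ (β : Type) [DecidableEq β] (I : Inst β) b x x' i, |I.sup b x x' i| ≤ 1
  three : ∀ (β : Type) [DecidableEq β] [Fintype β] (I : Inst β) (m e : ℕ), I.Ok m e →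
    ∀ s X, (3 * m : ℤ) ≤ ∑ l, I.y s (spk X l)
  pole : ∀ (β : Type) [DecidableEq β] (I : Inst β) b x x' (i : Fin 9), i.val < 6 →
    0 ≤ I.sup b x x' i
  eqt : ∀ (β : Type) [DecidableEq β] (I : Inst β) L s, I.Adm L s → ∀ l ∉ L, ∀ b,
    0 ≤ I.sup b (s b) (s (I.σ b)) (tc l)
  card : ∀ (β : Type) [DecidableEq β] [Fintype β] (I : Inst β) (m e : ℕ), I.Ok m e →
    9 * m ≤ Fintype.card β ∧ Fintype.card β ≤ 12 * m + 3
  redec : ∀ (β : Type) [DecidableEq β] [Fintype β] (I : Inst β) s, I.Adm ∅ s → ∀ X,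
    ∃ s', I.Adm ∅ s' ∧ ∀ l, I.y s' (spk X l) = I.y s (spk X l) + I.y s (tc l)
  dir : ∀ (β : Type) [DecidableEq β] (I : Inst β) (s : β → Dc) (D : Bool), I.Fix s →
    (∀ b, (I.c b).val < 6 → (s b).1 = D) → I.Adm ∅ s

def DCStmt : Prop :=
  ∀ (β : Type) [DecidableEq β] [Fintype β] (I : Inst β) (m e : ℕ), I.Ok m e →
    ∀ (L : Finset (Fin 3)) (h : ℕ) (lam : Fin 9 → ℤ), (∀ i, 0 ≤ lam i) →
      (∀ X, ∃ l, lam (spk X l) = 0) → (∀ l ∉ L, I.Few h l) →
      ∃ s, I.Adm L s ∧ (49 * m + e - 50 * h - 1000 : ℤ) * six lam ≤ 50 * ∑ i, lam i * I.y s i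

def Marg2Stmt : Prop :=
  ∀ q : ℕ, 0 < q → ∃ g m0 : ℕ, 0 < g ∧
    ∀ (β : Type) [DecidableEq β] [Fintype β] (I : Inst β) (m e : ℕ), I.Ok m e → m0 ≤ m →
      (q + 1) * m ≤ q * e → ∀ L : Finset (Fin 3), L.Nonempty →
      (∀ l, l ∉ L ↔ I.Few ((e - m) / 200) l) →
      ∀ lam : Fin 9 → ℤ, (∀ i, 0 ≤ lam i) → (∀ l ∉ L, lam (tc l) = 0) → ∀ j,
        ∃ s, I.Adm L s ∧ g * m * six lam + m * lam j ≤ g * ∑ i, lam i * I.y s i

def Reg2Stmt : Prop :=
  ∀ q : ℕ, 0 < q → ∃ m0 : ℕ,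
    ∀ (β : Type) [DecidableEq β] [Fintype β] (I : Inst β) (m e : ℕ), I.Ok m e → m0 ≤ m →
      (q + 1) * m ≤ q * e → (∃ l, ¬ I.Few ((e - m) / 200) l) → ∃ s, I.Good m s

def AdjStmt : Prop :=
  ∀ (β : Type) [DecidableEq β] [Fintype β] (I : Inst β) (m e h : ℕ), I.Ok m e →
    (∀ l, I.Few h l) → ∀ X a, e ≤ m + 20 * h + 30 + (univ.filter fun b => I.IsAdj X a b).card

def Marg1Stmt : Prop :=
  ∀ q : ℕ, 0 < q → ∃ g m0 : ℕ, 0 < g ∧
    ∀ (β : Type) [DecidableEq β] [Fintype β] (I : Inst β) (m e : ℕ), I.Ok m e → m0 ≤ m →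
      (q + 1) * m ≤ q * e → (∀ l, I.Few ((e - m) / 200) l) →
      ∀ (lam : Fin 9 → ℤ) (al : Bool × Fin 3 × Bool → ℤ), (∀ i, 0 ≤ lam i) → (∀ t, 0 ≤ al t) →
        (∀ l, lam (tc l) = 0) → (∀ X, ∃ l, lam (spk X l) = 0) →
        ∀ Λ, ((∃ j, Λ = lam j) ∨ ∃ t, Λ = al t) → ∃ s, I.Adm ∅ s ∧
          g * m * six lam + m * Λ ≤ g * (∑ i, lam i * I.y s i + ∑ t, al t * I.z s t)

def DeltaStmt : Prop :=
  ∀ (β : Type) [DecidableEq β] [Fintype β] (I : Inst β) (win : β → β) (K : ℕ),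
    (∀ b, win (I.σ b) ≠ win b → ¬ hard (I.c b) (I.c (I.σ b))) →
    (∀ w, (univ.filter fun b => win b = w ∧ ¬ hard (I.c b) (I.c (I.σ b))).card ≤ K) →
    ∀ s s', I.Adm ∅ s → I.Adm ∅ s' → ∀ w, I.Adm ∅ (mix win s s' w) ∧
      (∀ i, |I.y (mix win s s' w) i - I.y s i| ≤ 100 * K) ∧
      ∀ t, |I.z (mix win s s' w) t - I.z s t| ≤ 100 * K

def FinStmt : Prop :=
  ∀ (β : Type) [DecidableEq β] [Fintype β] (I : Inst β) (m e : ℕ), I.Ok m e →
    ∀ s, I.Adm ∅ s → (∀ t, six (fun i => max (m - I.y s i) 0) ≤ I.z s t) → ∃ s', I.Good m s'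

def Reg1Stmt : Prop :=
  ∀ q : ℕ, 0 < q → ∃ m0 : ℕ,
    ∀ (β : Type) [DecidableEq β] [Fintype β] (I : Inst β) (m e : ℕ), I.Ok m e → m0 ≤ m →
      (q + 1) * m ≤ q * e → (∀ l, I.Few ((e - m) / 200) l) → ∃ s, I.Good m s

/-! ### Hub level routing -/

def HubStmt : Prop :=
  ∀ (W : Multiset (Fin 9)) (D : Multiset (Fin 5 × Fin 5 × Fin 3 × Fin 3)),
    (∀ x : Fin 5, (D.map fun d => (if d.1 = x then 1 else 0) + (if d.2.1 = x then 1 else 0 : ℕ)).sum =
      (W.map fun k => (if tok k false = x then 1 else 0) +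
        (if tok k true = x then 1 else 0 : ℕ)).sum) →
    (∀ i, (W.map fun k => dem (tok k false) (tok k true) 0 0 i).sum ≤
      (D.map fun d => dem d.1 d.2.1 d.2.2.1 d.2.2.2 i).sum) →
    Red (W.map fun k => s(tok k false, tok k true)) (D.map fun d => s(d.1, d.2.1))

def HubRedStmt : Prop :=
  ∀ (β : Type) [DecidableEq β] [Fintype β] (I : Inst β) (m e : ℕ), I.Ok m e →
    ∀ s, I.Good m s → Red I.links (I.dems s)

/-! ### The graph -/

/-- Vertex type: five hubs, blocks of two vertices, one pendant vertex. -/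
abbrev VV (β : Type) := Fin 5 ⊕ (β × Bool) ⊕ Unit

/-- Generating relation. -/
def rel {β : Type} (c : β → Fin 9) : VV β → VV β → Prop
  | .inl x, .inl y => x.val + y.val ≠ 1
  | .inr (.inl a), .inl x => x = tok (c a.1) false ∨ x = tok (c a.1) true
  | .inr (.inl a), .inr (.inl b) => a.1 = b.1
  | .inr (.inr _), .inl x => x = 2
  | _, _ => False

/-- The graph. -/
def GG {β : Type} (c : β → Fin 9) : SimpleGraph (VV β) := SimpleGraph.fromRel (rel c)

def PlanStmt : Prop := ∀ (β : Type) (c : β → Fin 9), IsPlanar (GG c)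

def DegStmt : Prop :=
  ∀ (β : Type) [Fintype β] (c : β → Fin 9) (M : ℕ),
    (∀ x, (univ.filter fun b => tok (c b) false = x ∨ tok (c b) true = x).card ≤ M) →
    (∀ v, ((GG c).neighborSet v).ncard ≤ 2 * M + 5) ∧
      ∀ a b, (GG c).Adj (.inr (.inr ())) a → (GG c).Adj (.inr (.inr ())) b → a = b

def RouteStmt : Prop :=
  ∀ (β : Type) [DecidableEq β] [Fintype β] (c : β → Fin 9),
    (∀ I : Inst (β ⊕ Fin 3), I.c = Sum.elim c tc → I.fx = univ.image Sum.inr →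
      ∃ s, I.Fix s ∧ Red I.links (I.dems s)) → PathPairable (GG c)

def DelStmt : Prop :=
  ∀ (V : Type) [Fintype V] (G : SimpleGraph V) (z : V) (D : ℕ),
    (∀ a b, G.Adj z a → G.Adj z b → a = b) → IsPlanar G → PathPairable G →
    (∀ v, (G.neighborSet v).ncard ≤ D) →
    IsPlanar (G.induce {v | v ≠ z}) ∧ PathPairable (G.induce {v | v ≠ z}) ∧
      ∀ v, ((G.induce {v | v ≠ z}).neighborSet v).ncard ≤ D

def TransStmt : Prop :=
  ∀ (V : Type) (G : SimpleGraph V) (n D : ℕ), Nonempty (V ≃ Fin n) → IsPlanar G →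
    PathPairable G → (∀ v, (G.neighborSet v).ncard ≤ D) →
    ∃ G' : SimpleGraph (Fin n), IsPlanar G' ∧ PathPairable G' ∧
      ∀ v, (G'.neighborSet v).ncard ≤ D

def UBStmt : Prop :=
  ∀ d : ℝ, 0 < d → ∃ n0 : ℕ, ∀ n ≥ n0, ∃ G : SimpleGraph (Fin n), IsPlanar G ∧ PathPairable G ∧
    ∀ v, ((G.neighborSet v).ncard : ℝ) ≤ (4 / 9 + d) * n

end Pool.Agent.Lib.MP_453ac3_co.UB
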