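import Pool.Agent.Lib.MP_453ac3_co.UB.St

/-! Cycle decomposition of a permutation, windows along the cycles, independent subsets. -/

namespace Pool.Agent.Lib.MP_453ac3_co.UB

open Finset

namespace PermJ

theorem per_pos {β : Type} [Fintype β] (σ : Equiv.Perm β) (x : β) :
    0 < Function.minimalPeriod σ x := by
  refine Function.minimalPeriod_pos_of_mem_periodicPts
    (Function.mk_mem_periodicPts (orderOf_pos σ) ?_)
  change σ^[orderOf σ] x = x
  rw [← Equiv.Perm.coe_pow, pow_orderOf_eq_one]
  rfl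

/-- Windows on one cycle. -/
theorem one (k : ℕ) (Z : Fin (k + 1) → Prop) [DecidablePred Z] (K : ℕ) (hK : 0 < K) :
    ∃ lab : Fin (k + 1) → Fin (k + 1), (∀ i, lab (i + 1) ≠ lab i → Z i) ∧
      (∀ w, (univ.filter fun i => lab i = w ∧ Z i).card ≤ K) ∧
      K * (univ.filter fun i => lab (i + 1) ≠ lab i).card ≤ 2 * (k + 1) := by
  let P : ℕ → Prop := fun j => Z (Fin.ofNat (k + 1) j)
  have hP : ∀ i : Fin (k + 1), P i.val ↔ Z i := fun i => by
    simp only [P, Fin.ofNat_val_eq_self]
  set g := Nat.count P (k + 1) with hg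
  have gle : g ≤ k + 1 := Nat.count_le P
  have lt : ∀ i : Fin (k + 1), Nat.count P i.val % g / K < k + 1 := fun i =>
    lt_of_le_of_lt ((Nat.div_le_self _ _).trans ((Nat.mod_le _ _).trans (Nat.count_le P))) i.2
  let lab : Fin (k + 1) → Fin (k + 1) := fun i => ⟨Nat.count P i.val % g / K, lt i⟩
  have lv : ∀ i, (lab i).val = Nat.count P i.val % g / K := fun i => rfl
  have nx : ∀ i : Fin (k + 1), (lab (i + 1)).val = Nat.count P (i.val + 1) % g / K := fun i => by
    rw [lv, Fin.val_add_one]
    split_ifs with e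
    · subst e
      simp [← hg]
    · rfl
  have zl : ∀ i : Fin (k + 1), Z i → Nat.count P i.val < g := fun i h =>
    Nat.count_strict_mono ((hP i).2 h) i.2
  have h1 : ∀ i, lab (i + 1) ≠ lab i → Z i := fun i h => by
    by_contra z
    apply h
    apply Fin.ext
    rw [nx, lv, Nat.count_succ_eq_count_iff.2 (mt (hP i).1 z)]
  refine ⟨lab, h1, fun w => ?_, ?_⟩
  · rw [← card_range K]
    refine card_le_card_of_injOn (fun i => Nat.count P i.val % K) (fun i _ => ?_) ?_
    · simpa using Nat.mod_lt _ hK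
    · intro i hi j hj e
      simp only [coe_filter, mem_univ, true_and, Set.mem_ofPred_eq] at hi hj
      have e1 : Nat.count P i.val / K = Nat.count P j.val / K := by
        have := congrArg Fin.val (hi.1.trans hj.1.symm)
        rwa [lv, lv, Nat.mod_eq_of_lt (zl i hi.2), Nat.mod_eq_of_lt (zl j hj.2)] at this
      apply Fin.ext
      refine Nat.count_injective ((hP i).2 hi.2) ((hP j).2 hj.2) ?_
      rw [← Nat.div_add_mod (Nat.count P i.val) K, ← Nat.div_add_mod (Nat.count P j.val) K, e1]
      exact congrArg _ e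
  · by_cases hs : (g - 1) / K = 0
    · have : (univ.filter fun i => lab (i + 1) ≠ lab i) = ∅ := by
        refine filter_eq_empty_iff.2 fun i _ h => ?_
        have g0 : 0 < g := lt_of_le_of_lt (Nat.zero_le _) (zl i (h1 i h))
        have z : ∀ x, x % g / K = 0 := fun x =>
          Nat.eq_zero_of_le_zero (hs ▸ Nat.div_le_div_right
            (Nat.le_sub_one_of_lt (Nat.mod_lt _ g0)))
        apply h
        apply Fin.ext
        rw [lv, lv, z, z]
      simp [this]
    · have key : ∀ i j : Fin (k + 1), lab (i + 1) ≠ lab i → Z j → i < j →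
          Nat.count P i.val / K ≠ Nat.count P j.val / K := fun i j hi zj ij e => by
        have zi := h1 i hi
        have a1 : Nat.count P (i.val + 1) ≤ Nat.count P j.val := Nat.count_monotone P ij
        have a2 : Nat.count P i.val ≤ Nat.count P (i.val + 1) :=
          Nat.count_monotone P (Nat.le_succ _)
        apply hi
        apply Fin.ext
        rw [nx, lv, Nat.mod_eq_of_lt (zl i zi), Nat.mod_eq_of_lt (a1.trans_lt (zl j zj))]
        exact le_antisymm (e ▸ Nat.div_le_div_right a1) (Nat.div_le_div_right a2)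
      have c : (univ.filter fun i => lab (i + 1) ≠ lab i).card ≤ (g - 1) / K + 1 := by
        rw [← card_range ((g - 1) / K + 1)]
        refine card_le_card_of_injOn (fun i => Nat.count P i.val / K) (fun i hi => ?_) ?_
        · simp only [coe_filter, mem_univ, true_and, Set.mem_ofPred_eq] at hi
          simp only [coe_range, Set.mem_Iio]
          exact Nat.lt_succ_of_le (Nat.div_le_div_right (Nat.le_sub_one_of_lt (zl i (h1 i hi))))
        · intro i hi j hj e
          simp only [coe_filter, mem_univ, true_and, Set.mem_ofPred_eq] at hi hj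
          rcases lt_trichotomy i j with l | l | l
          · exact absurd e (key i j hi (h1 j hj) l)
          · exact l
          · exact absurd e.symm (key j i hj (h1 i hi) l)
      have m : K * ((g - 1) / K) ≤ g - 1 := Nat.mul_div_le _ _
      calc K * _ ≤ K * (2 * ((g - 1) / K)) := Nat.mul_le_mul_left _ (by omega)
        _ = 2 * (K * ((g - 1) / K)) := by ring
        _ ≤ 2 * (k + 1) := by omega

end PermJ

theorem cyc : CycStmt := by
  intro β _ σ
  classical
  let Ω := Quotient (Equiv.Perm.SameCycle.setoid σ)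
  let k : Ω → ℕ := fun ω => Function.minimalPeriod σ ω.out - 1
  have hk : ∀ ω, k ω + 1 = Function.minimalPeriod σ ω.out := fun ω =>
    Nat.sub_add_cancel (PermJ.per_pos σ _)
  let f : (Σ ω, Fin (k ω + 1)) → β := fun x => σ^[x.2.val] x.1.out
  have cl : ∀ (ω : Ω) (n : ℕ), (Quotient.mk _ (σ^[n] ω.out) : Ω) = ω := fun ω n => by
    conv_rhs => rw [← ω.out_eq]
    refine Quotient.sound (Equiv.Perm.SameCycle.symm ⟨n, ?_⟩)
    rw [zpow_natCast, Equiv.Perm.coe_pow]
  have bij : Function.Bijective f := by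
    constructor
    · rintro ⟨ω, i⟩ ⟨ω', j⟩ e
      have e' : σ^[i.val] ω.out = σ^[j.val] ω'.out := e
      obtain rfl : ω = ω' := by rw [← cl ω i.val, e', cl]
      have := (Function.iterate_eq_iterate_iff_of_lt_minimalPeriod (hk ω ▸ i.2)
        (hk ω ▸ j.2)).1 e'
      rw [Fin.ext this]
    · intro b
      let ω : Ω := Quotient.mk _ b
      have h : σ.SameCycle ω.out b := Quotient.exact (s := Equiv.Perm.SameCycle.setoid σ) ω.out_eq
      obtain ⟨n, hn⟩ := h.exists_nat_pow_eq
      refine ⟨⟨ω, ⟨n % (k ω + 1), Nat.mod_lt _ (Nat.succ_pos _)⟩⟩, ?_⟩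
      change σ^[n % (k ω + 1)] ω.out = b
      rw [hk, Function.iterate_mod_minimalPeriod_eq, ← Equiv.Perm.coe_pow, hn]
  refine ⟨Ω, inferInstance, k, Equiv.ofBijective f bij, fun ω i => ?_⟩
  change σ (σ^[i.val] ω.out) = σ^[(i + 1).val] ω.out
  rw [← Function.iterate_succ_apply' σ, Fin.val_add_one]
  split_ifs with e
  · subst e
    change σ^[k ω + 1] ω.out = _
    rw [hk]
    exact Function.iterate_minimalPeriod
  · rfl

theorem win (h : CycStmt) : WinStmt := by
  intro β _ _ σ Z _ K hK
  classical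
  obtain ⟨Ω, _, k, e, he⟩ := h β σ
  choose lab h1 h2 h3 using fun ω => PermJ.one (k ω) (fun i => Z (e ⟨ω, i⟩)) K hK
  let w : β → β := fun b => e ⟨(e.symm b).1, lab _ (e.symm b).2⟩
  have hw : ∀ ω i, w (e ⟨ω, i⟩) = e ⟨ω, lab ω i⟩ := fun ω i => by
    have : ∀ x : (Σ ω, Fin (k ω + 1)), x = ⟨ω, i⟩ → e ⟨x.1, lab _ x.2⟩ = e ⟨ω, lab ω i⟩ := by
      rintro _ rfl
      rfl
    exact this _ (e.symm_apply_apply _)
  have ch : ∀ ω i, w (σ (e ⟨ω, i⟩)) ≠ w (e ⟨ω, i⟩) ↔ lab ω (i + 1) ≠ lab ω i := fun ω i => by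
    rw [he, hw, hw]
    simp
  refine ⟨w, fun b => ?_, fun b0 => ?_, ?_⟩
  · obtain ⟨⟨ω, i⟩, rfl⟩ := e.surjective b
    exact fun c => h1 ω i ((ch ω i).1 c)
  · obtain ⟨⟨ω0, i0⟩, rfl⟩ := e.surjective b0
    refine le_trans ?_ (card_image_le.trans (h2 ω0 i0)) (b := (image (fun i => e ⟨ω0, i⟩) _).card)
    refine card_le_card fun b hb => ?_
    obtain ⟨⟨ω, i⟩, rfl⟩ := e.surjective b
    simp only [mem_filter, mem_univ, true_and, hw, EmbeddingLike.apply_eq_iff_eq] at hb
    obtain ⟨hb, z⟩ := hb
    obtain rfl : ω = ω0 := congrArg Sigma.fst hb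
    refine mem_image.2 ⟨i, ?_, rfl⟩
    simp only [mem_filter, mem_univ, true_and]
    exact ⟨by simpa using hb, z⟩
  · have c1 : (univ.filter fun b => w (σ b) ≠ w b).card =
        ∑ ω, (univ.filter fun i => lab ω (i + 1) ≠ lab ω i).card := by
      simp only [card_filter]
      rw [← e.sum_comp, Fintype.sum_sigma]
      exact sum_congr rfl fun ω _ => sum_congr rfl fun i _ => if_congr (ch ω i) rfl rfl
    have c2 : Fintype.card β = ∑ ω, (k ω + 1) := by
      rw [← Fintype.card_congr e]
      simp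
    rw [c1, c2, mul_sum, mul_sum]
    exact sum_le_sum fun ω _ => h3 ω

theorem ind : IndStmt := by
  intro β _ σ J
  induction J using Finset.strongInduction with
  | H J ih =>
    intro hJ
    rcases J.eq_empty_or_nonempty with rfl | ⟨b, hb⟩
    · exact ⟨∅, subset_rfl, by simp, by simp⟩
    · have ss : J \ {b, σ b, σ.symm b} ⊂ J :=
        (ssubset_iff_of_subset sdiff_subset).2 ⟨b, hb, by simp⟩
      obtain ⟨J', s1, s2, s3⟩ := ih _ ss fun x hx => hJ x (ss.subset hx)
      have nb : ∀ x ∈ J', x ≠ b ∧ x ≠ σ b ∧ x ≠ σ.symm b := fun x hx => by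
        have := (mem_sdiff.1 (s1 hx)).2
        simpa [not_or] using this
      refine ⟨insert b J', insert_subset hb (s1.trans ss.subset), ?_, ?_⟩
      · rw [card_insert_of_notMem fun c => (nb b c).1 rfl]
        have a1 := le_card_sdiff ({b, σ b, σ.symm b} : Finset β) J
        have a2 : ({b, σ b, σ.symm b} : Finset β).card ≤ 3 := card_le_three
        omega
      · intro x hx c
        rcases mem_insert.1 hx with rfl | hx
        · rcases mem_insert.1 c with c | c
          · exact hJ _ hb c
          · exact (nb _ c).2.1 rfl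
        · rcases mem_insert.1 c with c | c
          · exact (nb _ hx).2.2 (by rw [← c]; simp)
          · exact s3 x hx c

end Pool.Agent.Lib.MP_453ac3_co.UB
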