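import Pool.Agent.Lib.MP_453ac3_co.UB.St

/-! Many adjusters exist, and adjusters repair a small deficit. -/

namespace Pool.Agent.Lib.MP_453ac3_co.UB

open Finset

namespace AdjJ

/-- The hub of a colour. -/
def hub (l : Fin 3) : Fin 5 := ![2, 3, 4] l

/-- The class `k` contains the colour `l`. -/
def cont (k : Fin 9) (l : Fin 3) : Prop := tok k false = hub l ∨ tok k true = hub l

instance (k : Fin 9) (l : Fin 3) : Decidable (cont k l) := by unfold cont; infer_instance

/-- The side of the class `k` with the colour `l`. -/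
def pick (k : Fin 9) (l : Fin 3) : Bool := decide (tok k true = hub l)

theorem share : ∀ (k : Fin 9) (a : Fin 3), ¬ (k.val < 6 ∧ k.val % 3 = a.val) →
    ∃ l, cont k l ∧ cont (tc a) l := by decide

theorem spoke : ∀ (k : Fin 9) (a : Fin 3) (X : Bool), k.val < 6 ∧ k.val % 3 = a.val →
    k = spk X a ∨ k = spk (!X) a := by decide

theorem tok_pick : ∀ (k : Fin 9) (l : Fin 3), cont k l →
    tok k (pick k l) = hub l ∧ (k.val < 6 → tok k true = hub l) := by decide

theorem dem_loop : ∀ l : Fin 3, dem (hub l) (hub l) 2 2 (tc l) = 1 := by decide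

theorem dem_lp : ∀ a : Fin 3, dem (tok (tc a) false) (tok (tc a) false) 2 0 (tc (a + 1)) +
    dem (tok (tc a) true) (tok (tc a) true) 2 0 (tc (a + 1)) -
    dem (tok (tc a) false) (tok (tc a) true) 0 0 (tc (a + 1)) = 1 := by decide

theorem tc_ge : ∀ a : Fin 3, 6 ≤ (tc a).val := by decide

theorem spk_lt : ∀ (X : Bool) (a : Fin 3), (spk X a).val < 6 := by decide

theorem third : ∀ j k : Fin 3, j ≠ k → ∃ (a : Fin 3) (lab : Bool), a ≠ j ∧ a ≠ k ∧
    tok (tc a) lab = hub k ∧ tok (tc a) (!lab) = hub j := by decide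

theorem tok_spoke : ∀ (k : Fin 9) (a : Fin 3), k.val < 6 → k.val % 3 = a.val →
    tok k true = hub a := by decide

theorem dem_zero : ∀ a k : Fin 3, a ≠ k → ∀ p q i, dem (hub a) (hub k) p q i = 0 := by decide

theorem dem_pole : ∀ (X : Bool) (a k p q : Fin 3) (i : Fin 9),
    dem (hub k) (tok (spk X a) false) p q i = if i = spk X k then 1 else 0 := by decide

theorem tok_ge : ∀ (k : Fin 9) (s : Bool), 6 ≤ k.val → 2 ≤ (tok k s).val := by decide

theorem kinds : ∀ i : Fin 9, (i.val < 6 ∧ ∃ X l, i = spk X l) ∨ (¬ i.val < 6 ∧ ∃ l, i = tc l) := by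
  decide

theorem spk_inj : ∀ (X : Bool) (j k : Fin 3), spk X j = spk X k → j = k := by decide

theorem six_unit : ∀ q : Fin 9, q.val < 6 → six (fun i => if i = q then 1 else 0) = 1 := by
  unfold six
  decide

variable {β : Type} [DecidableEq β] [Fintype β]

theorem pre (σ : Equiv.Perm β) (A : Finset β) : (univ.filter fun b => σ b ∈ A).card = A.card :=
  card_bijective σ σ.bijective fun b => by simp

theorem few_card (h1 : BasStmt) (I : Inst β) {h : ℕ} {l : Fin 3} (hF : I.Few h l) {s : β → Dc}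
    (hs : I.Adm ∅ s) (A : Finset β) (hA : ∀ b ∈ A, I.sup b (s b) (s (I.σ b)) (tc l) = 1) :
    A.card ≤ h := by
  have k1 := hF s hs
  have k2 : ∑ b ∈ A, I.sup b (s b) (s (I.σ b)) (tc l) ≤ I.y s (tc l) :=
    sum_le_sum_of_subset_of_nonneg (subset_univ A) fun b _ _ =>
      h1.eqt β I ∅ s hs l (notMem_empty l) b
  rw [sum_congr rfl hA, sum_const, nsmul_eq_mul, mul_one] at k2
  exact_mod_cast k2.trans k1

/-- A state with prescribed orientations on the free equator blocks. -/
def st (I : Inst β) (D : Bool) (o : β → Bool) (b : β) : Dc :=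
  (if b ∈ I.fx then I.o0 b else if (I.c b).val < 6 then D else o b, 2, 2)

theorem st_adm (h1 : BasStmt) (I : Inst β) {m e : ℕ} (hI : I.Ok m e) (D : Bool) (o : β → Bool) :
    I.Adm ∅ (st I D o) := by
  refine h1.dir β I _ D (fun b hb => if_pos hb) fun b hb => ?_
  have : b ∉ I.fx := fun c => absurd (hI.fxE b c) (not_le.2 hb)
  simp only [st, if_neg this, if_pos hb]

/-- Junctions at which both blocks can send the colour `l`. -/
def J (I : Inst β) (l : Fin 3) (D : Bool) : Finset β :=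
  univ.filter fun b => I.σ b ≠ b ∧ b ∉ I.fx ∧ I.σ b ∉ I.fx ∧ cont (I.c b) l ∧
    cont (I.c (I.σ b)) l ∧ (D = false → 6 ≤ (I.c b).val) ∧ (D = true → 6 ≤ (I.c (I.σ b)).val)

theorem card_J (h1 : BasStmt) (h2 : IndStmt) (I : Inst β) {m e h : ℕ} (hI : I.Ok m e)
    {l : Fin 3} (hF : I.Few h l) (D : Bool) : (J I l D).card ≤ 3 * h := by
  obtain ⟨J', j1, j2, j3⟩ := h2 β I.σ (J I l D) fun b hb => (mem_filter.1 hb).2.1
  refine j2.trans (Nat.mul_le_mul_left 3 (few_card h1 I hF (st_adm h1 I hI D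
    fun b => if b ∈ J' then pick (I.c b) l else !pick (I.c b) l) J' fun b hb => ?_))
  obtain ⟨a1, a2, a3, a4, a5, a6, a7⟩ := (mem_filter.1 (j1 hb)).2
  have e1 : tok (I.c b) (if (I.c b).val < 6 then D else pick (I.c b) l) = hub l := by
    split_ifs with c
    · cases D
      · exact absurd (a6 rfl) (not_le.2 c)
      · exact (tok_pick _ _ a4).2 c
    · exact (tok_pick _ _ a4).1
  have e2 : tok (I.c (I.σ b))
      (!if (I.c (I.σ b)).val < 6 then D else !pick (I.c (I.σ b)) l) = hub l := by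
    split_ifs with c
    · cases D
      · exact (tok_pick _ _ a5).2 c
      · exact absurd (a7 rfl) (not_le.2 c)
    · rw [Bool.not_not]
      exact (tok_pick _ _ a5).1
  unfold Inst.sup
  rw [if_neg fun c => a1 c.1]
  simp only [st, if_neg a2, if_neg a3, if_pos hb, if_neg (j3 b hb), e1, e2]
  exact dem_loop l

theorem card_lp (h1 : BasStmt) (I : Inst β) {m e h : ℕ} (hI : I.Ok m e) (a : Fin 3)
    (hF : I.Few h (a + 1)) :
    (univ.filter fun b => (I.σ b = b ∧ b ∉ I.fx) ∧ I.c b = tc a).card ≤ h := by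
  refine few_card h1 I hF (st_adm h1 I hI false fun _ => false) _ fun b hb => ?_
  obtain ⟨a1, a2⟩ := (mem_filter.1 hb).2
  unfold Inst.sup
  rw [if_pos a1, a2]
  exact dem_lp a

theorem drop {y y' : Fin 9 → ℤ} {m : ℤ} {p q : Fin 9} (hq : q.val < 6) (hp : m < y p)
    (hq' : y q < m)
    (h : ∀ i, y' i = y i - (if i = p then 1 else 0) + (if i = q then 1 else 0)) :
    six (fun i => max (m - y' i) 0) + 1 = six fun i => max (m - y i) 0 := by
  have pt : ∀ i, max (m - y' i) 0 = max (m - y i) 0 - if i = q then 1 else 0 := by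
    intro i
    rw [h i]
    split_ifs with c1 c2 c2
    · rw [← c1, c2] at hp
      omega
    · rw [c1]
      omega
    · rw [c2]
      omega
    · omega
  have := six_unit q hq
  unfold six at this ⊢
  simp only [pt]
  omega

/-- Flipping a ready adjuster. -/
theorem flip (I : Inst β) {s : β → Dc} (hs : I.Adm ∅ s) {X lab : Bool} {a j k : Fin 3} {b : β}
    (hj : a ≠ j) (hk : a ≠ k) (t1 : tok (tc a) lab = hub k) (t2 : tok (tc a) (!lab) = hub j)
    (hb : I.IsAdj X a b) (s1 : (s b).1 = true) (s2 : (s (I.σ b)).1 = lab)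
    (s3 : (s (I.σ (I.σ b))).1 = true) :
    ∃ s', I.Adm ∅ s' ∧
      (∀ i, I.y s' i = I.y s i - (if i = spk X k then 1 else 0) +
        (if i = spk X j then 1 else 0)) ∧ ∀ t, I.z s t ≤ I.z s' t + 1 := by
  obtain ⟨b1, b2, b3, b4, b5⟩ := hb
  have g6 : 6 ≤ (I.c (I.σ b)).val := b3 ▸ tc_ge a
  have lo : ∀ u, (I.c u).val < 6 → u ≠ I.σ b := fun u hu e => absurd (e ▸ hu) (not_lt.2 g6)
  have n1 : b ≠ I.σ b := lo b b1
  have n2 : I.σ (I.σ b) ≠ I.σ b := lo _ (b5 ▸ spk_lt X a)
  set s' := Function.update s (I.σ b) (!lab, (s (I.σ b)).2) with hs'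
  have e0 : s' (I.σ b) = (!lab, (s (I.σ b)).2) := Function.update_self ..
  have e1 : ∀ u, u ≠ I.σ b → s' u = s u := fun u hu => Function.update_of_ne hu ..
  have n3 : ∀ u, u ≠ b → I.σ u ≠ I.σ b := fun u hu e => hu (I.σ.injective e)
  refine ⟨s', ⟨fun u hu => ?_, fun u hu => ?_⟩, fun i => ?_, fun t => ?_⟩
  · rw [e1 u fun e => b4 (e ▸ hu)]
    exact hs.1 u hu
  · exfalso
    unfold Inst.NS at hu
    by_cases c1 : u = I.σ b
    · have := tok_ge (I.c u) (s' u).1 (c1 ▸ g6)
      omega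
    by_cases c2 : u = b
    · have := tok_ge (I.c (I.σ u)) (!(s' (I.σ u)).1) (c2 ▸ g6)
      omega
    rw [e1 u c1, e1 _ (n3 u c2)] at hu
    exact notMem_empty _ (hs.2 u hu)
  · have key : ∑ u, (I.sup u (s' u) (s' (I.σ u)) i - I.sup u (s u) (s (I.σ u)) i) =
        (if i = spk X j then 1 else 0) - if i = spk X k then 1 else 0 := by
      rw [Fintype.sum_eq_add b (I.σ b) n1 fun u hu => by
        rw [e1 u hu.2, e1 _ (n3 u hu.1), sub_self]]
      unfold Inst.sup
      rw [if_neg fun c => n1 c.1.symm, if_neg fun c => n1 c.1.symm, if_neg fun c => n2 c.1,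
        if_neg fun c => n2 c.1, e0, e1 b n1, e1 _ n2, s1, s2, s3, b3, b5, tok_spoke _ a b1 b2]
      simp only [Bool.not_not, Bool.not_true, t1, t2, dem_zero a j hj, dem_zero a k hk, dem_pole]
      ring
    rw [sum_sub_distrib] at key
    unfold Inst.y
    omega
  · have key : ∑ u, (I.rdy u (s u) (s (I.σ u)) (s (I.σ (I.σ u))) t -
        I.rdy u (s' u) (s' (I.σ u)) (s' (I.σ (I.σ u))) t) ≤ 1 := by
      rw [Fintype.sum_eq_single b fun u hu => ?_]
      · unfold Inst.rdy
        split_ifs <;> norm_num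
      · by_cases c : I.IsAdj t.1 t.2.1 u
        · rw [e1 u (lo u c.1), e1 _ (n3 u hu), e1 _ (lo _ (c.2.2.2.2 ▸ spk_lt _ _)), sub_self]
        · unfold Inst.rdy
          rw [if_neg fun d => c d.1, if_neg fun d => c d.1, sub_self]
    rw [sum_sub_distrib] at key
    unfold Inst.z
    omega

end AdjJ

open AdjJ in
theorem adj (h1 : BasStmt) (h2 : IndStmt) : AdjStmt := by
  intro β _ _ I m e h hI hF X a
  have k0 := hI.lo (tc a) (tc_ge a)
  rw [← pre I.σ] at k0
  have k1 := hI.fx3
  have k2 := (pre I.σ I.fx).trans_le k1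
  have k3 := (pre I.σ (univ.filter fun b => I.σ b ∈ I.fx)).trans_le k2
  have k4 := (pre I.σ _).trans_le (card_lp h1 I hI a (hF _))
  have kJ : ∀ D, (univ.biUnion fun l => J I l D).card ≤ 9 * h := fun D =>
    card_biUnion_le.trans ((sum_le_sum fun l _ => card_J h1 h2 I hI (hF l) D).trans
      (by simp; omega))
  have k5 := kJ true
  have k6 := (pre I.σ _).trans_le (kJ false)
  have k7 := ((pre I.σ _).trans (pre I.σ _)).trans (hI.sp (spk (!X) a) (spk_lt _ _))
  refine k0.trans (le_trans (card_le_card ?_) (le_trans ((card_union_le _ _).trans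
    (Nat.add_le_add_right ((card_union_le _ _).trans (Nat.add_le_add ((card_union_le _ _).trans
    (Nat.add_le_add ((card_union_le _ _).trans (Nat.add_le_add ((card_union_le _ _).trans
    (Nat.add_le_add ((card_union_le _ _).trans (Nat.add_le_add ((card_union_le _ _).trans
    (Nat.add_le_add k1 k2)) k3)) k4)) k5)) k6)) k7.le)) _)) (Nat.add_le_add_right (by omega) _)))
  intro b hb
  simp only [mem_union, mem_filter, mem_univ, true_and, mem_biUnion, J] at hb ⊢
  by_contra hc
  simp only [not_or, not_exists] at hc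
  obtain ⟨⟨⟨⟨⟨⟨⟨c1, c2⟩, c3⟩, c4⟩, c5⟩, c6⟩, c7⟩, c8⟩ := hc
  have n2 : I.σ (I.σ b) ≠ I.σ b := fun e => c4 ⟨⟨e, c2⟩, hb⟩
  have n1 : I.σ b ≠ b := fun e => n2 (congrArg I.σ e)
  have g6 : 6 ≤ (I.c (I.σ b)).val := hb ▸ tc_ge a
  have p1 : (I.c b).val < 6 ∧ (I.c b).val % 3 = a.val := by
    by_contra d
    obtain ⟨l, l1, l2⟩ := share _ a d
    exact c5 l ⟨n1, c1, c2, l1, hb ▸ l2, by simp, fun _ => g6⟩
  have p2 : (I.c (I.σ (I.σ b))).val < 6 ∧ (I.c (I.σ (I.σ b))).val % 3 = a.val := by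
    by_contra d
    obtain ⟨l, l1, l2⟩ := share _ a d
    exact c6 l ⟨n2, c2, c3, hb ▸ l2, l1, fun _ => g6, by simp⟩
  exact c8 ⟨p1.1, p1.2, hb, c2, (spoke _ a X p2).resolve_right c7⟩

open AdjJ in
theorem fin (h : BasStmt) : FinStmt := by
  intro β _ _ I m e hI
  have main : ∀ (n : ℕ) (s : β → Dc), I.Adm ∅ s → six (fun i => max (m - I.y s i) 0) = n →
      (∀ t, (n : ℤ) ≤ I.z s t) → ∃ s', I.Good m s' := by
    intro n
    induction n with
    | zero =>
      intro s hs hd _
      refine ⟨s, hs.1, fun i => ?_⟩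
      rcases kinds i with ⟨c, -⟩ | ⟨c, l, rfl⟩
      · rw [if_pos c]
        simp only [six] at hd
        have : i = 0 ∨ i = 1 ∨ i = 2 ∨ i = 3 ∨ i = 4 ∨ i = 5 := by omega
        rcases this with rfl | rfl | rfl | rfl | rfl | rfl <;> omega
      · rw [if_neg c]
        exact sum_nonneg fun b _ => h.eqt β I ∅ s hs l (notMem_empty l) b
    | succ n ih =>
      intro s hs hd hz
      have h1 : ∃ X j, I.y s (spk X j) < m := by
        by_contra c
        push Not at c
        have c0 : (m : ℤ) ≤ I.y s 0 := c false 0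
        have c1 : (m : ℤ) ≤ I.y s 1 := c false 1
        have c2 : (m : ℤ) ≤ I.y s 2 := c false 2
        have c3 : (m : ℤ) ≤ I.y s 3 := c true 0
        have c4 : (m : ℤ) ≤ I.y s 4 := c true 1
        have c5 : (m : ℤ) ≤ I.y s 5 := c true 2
        simp only [six] at hd
        omega
      obtain ⟨X, j, hj⟩ := h1
      have h2 : ∃ k, (m : ℤ) < I.y s (spk X k) := by
        by_contra c
        push Not at c
        have k1 := h.three β I m e hI s X
        have k2 : ∑ l, I.y s (spk X l) < ∑ _l : Fin 3, (m : ℤ) :=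
          sum_lt_sum (fun l _ => c l) ⟨j, mem_univ _, hj⟩
        simp only [sum_const, card_univ, Fintype.card_fin, nsmul_eq_mul, Nat.cast_ofNat] at k2
        omega
      obtain ⟨k, hk⟩ := h2
      obtain ⟨a, lab, a1, a2, t1, t2⟩ := third j k fun e => by
        rw [e] at hj
        omega
      have h3 : ∃ b, I.IsAdj X a b ∧ (s b).1 = true ∧ (s (I.σ b)).1 = lab ∧
          (s (I.σ (I.σ b))).1 = true := by
        by_contra c
        have k1 := hz (X, a, lab)
        have k2 : I.z s (X, a, lab) = 0 := sum_eq_zero fun b _ => if_neg fun d => c ⟨b, d⟩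
        omega
      obtain ⟨b, hb, s1, s2, s3⟩ := h3
      obtain ⟨s', u1, u2, u3⟩ := flip I hs a1 a2 t1 t2 hb s1 s2 s3
      have k1 := drop (spk_lt X j) hk hj u2
      refine ih s' u1 (by omega) fun t => ?_
      have k2 := hz t
      have k3 := u3 t
      omega
  intro s hs hz
  have h0 : 0 ≤ six fun i => max (m - I.y s i) 0 := by
    unfold six
    positivity
  exact main _ s hs (Int.toNat_of_nonneg h0).symm fun t => (Int.toNat_of_nonneg h0).le.trans (hz t)

end Pool.Agent.Lib.MP_453ac3_co.UB
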