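import Pool.Agent.Lib.MP_453ac3_co.UB.St

/-! Choice of the class sizes and assembly of the upper bound. -/

namespace Pool.Agent.Lib.MP_453ac3_co.UB

open Finset

namespace AsmJ

theorem sizes (q N m1 : ℕ) (hq : 2 ≤ q) (hN : 12 * m1 ≤ N) :
    ∃ m R : ℕ, 6 * m + R = N ∧ m1 ≤ m ∧ 9 * m ≤ N ∧ (q + 1) * m ≤ q * (R / 3 + 1) ∧
      q * (R / 3 + 1) ≤ (q + 1) * m + 5 * q := by
  have hp : 0 < 9 * q + 3 := by omega
  obtain ⟨m, h1, h2⟩ : ∃ m, (9 * q + 3) * m ≤ q * N ∧ q * N < (9 * q + 3) * (m + 1) :=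
    ⟨q * N / (9 * q + 3), Nat.mul_div_le _ _, Nat.lt_mul_div_succ _ hp⟩
  have h9 : 9 * m ≤ N := by
    refine Nat.le_of_mul_le_mul_left (c := q) ?_ (by omega)
    nlinarith
  have h12 : N < 12 * (m + 1) := by
    refine Nat.lt_of_mul_lt_mul_left (a := q) ?_
    nlinarith
  obtain ⟨R, hR⟩ : ∃ R, 6 * m + R = N := ⟨N - 6 * m, by omega⟩
  obtain ⟨e, he⟩ : ∃ e, e = R / 3 + 1 := ⟨_, rfl⟩
  have e1 : R ≤ 3 * e := by omega
  have e2 : 3 * e ≤ R + 3 := by omega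
  have e3 := Nat.mul_le_mul_left q e1
  have e4 := Nat.mul_le_mul_left q e2
  refine ⟨m, R, hR, by omega, h9, ?_, ?_⟩
  · rw [← he]; subst hR; nlinarith
  · rw [← he]; subst hR; nlinarith

/-- Class sizes. -/
def sz (m R : ℕ) (k : Fin 9) : ℕ := if k.val < 6 then m else (R + (k.val - 6)) / 3

/-- The blocks. -/
abbrev B (m R : ℕ) : Type := Σ k : Fin 9, Fin (sz m R k)

theorem count (m R : ℕ) (P : Fin 9 → Prop) [DecidablePred P] :
    (univ.filter fun b : B m R => P b.1).card = ∑ k, if P k then sz m R k else 0 := by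
  rw [card_filter, Fintype.sum_sigma]
  refine sum_congr rfl fun k _ => ?_
  by_cases h : P k <;> simp [h]

theorem sum9 (f : Fin 9 → ℕ) :
    ∑ k, f k = f 0 + f 1 + f 2 + f 3 + f 4 + f 5 + f 6 + f 7 + f 8 := by
  simp only [Fin.sum_univ_succ, Fin.sum_univ_zero]
  change f 0 + (f 1 + (f 2 + (f 3 + (f 4 + (f 5 + (f 6 + (f 7 + (f 8 + 0)))))))) = _
  omega

theorem card_B (m R : ℕ) : Fintype.card (B m R) = 6 * m + R := by
  rw [Fintype.card_sigma, sum9]
  simp only [Fintype.card_fin]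
  change m + m + m + m + m + m + (R + 0) / 3 + (R + 1) / 3 + (R + 2) / 3 = _
  omega

theorem card_V (m R : ℕ) : Fintype.card (VV (B m R)) = 2 * (6 * m + R) + 6 := by
  simp only [Fintype.card_sum, Fintype.card_prod, card_B, Fintype.card_fin, Fintype.card_bool,
    Fintype.card_unit]
  omega

theorem count' (m R : ℕ) (k : Fin 9) :
    (univ.filter fun b : B m R ⊕ Fin 3 => Sum.elim Sigma.fst tc b = k).card =
      sz m R k + if k.val < 6 then 0 else 1 := by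
  have h1 := count m R (fun j => j = k)
  have h2 : ∀ k : Fin 9,
      (∑ a : Fin 3, if tc a = k then 1 else 0 : ℕ) = if k.val < 6 then 0 else 1 := by decide
  rw [card_filter, sum_ite_eq' univ k, if_pos (mem_univ k)] at h1
  rw [card_filter, Fintype.sum_sum_type]
  exact congrArg₂ (· + ·) h1 (h2 k)

theorem ok (m R : ℕ) (h1 : m ≤ R / 3 + 1) (h2 : R / 3 + 1 ≤ 2 * m) (I : Inst (B m R ⊕ Fin 3))
    (hc : I.c = Sum.elim Sigma.fst tc) (hf : I.fx = univ.image Sum.inr) :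
    I.Ok m (R / 3 + 1) := by
  refine ⟨fun k hk => ?_, fun k hk => ?_, fun k hk => ?_, ?_, fun b hb => ?_, h1, h2⟩
  · rw [hc, count', sz, if_pos hk, if_pos hk, add_zero]
  · rw [hc, count', sz, if_neg (by omega), if_neg (by omega)]
    omega
  · have := k.2
    rw [hc, count', sz, if_neg (by omega), if_neg (by omega)]
    omega
  · rw [hf]
    exact card_image_le.trans (by simp)
  · rw [hf] at hb
    obtain ⟨a, -, rfl⟩ := mem_image.1 hb
    have h : ∀ a : Fin 3, 6 ≤ (tc a).val := by decide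
    rw [hc]
    exact h a

theorem hubs (m R : ℕ) (h1 : m ≤ R / 3 + 1) (x : Fin 5) :
    (univ.filter fun b : B m R => tok b.1 false = x ∨ tok b.1 true = x).card ≤
      2 * m + 2 * (R / 3 + 1) := by
  rw [count m R (fun k => tok k false = x ∨ tok k true = x), sum9]
  fin_cases x
  · change m + m + m + 0 + 0 + 0 + 0 + 0 + 0 ≤ _
    omega
  · change 0 + 0 + 0 + m + m + m + 0 + 0 + 0 ≤ _
    omega
  · change m + 0 + 0 + m + 0 + 0 + 0 + (R + 1) / 3 + (R + 2) / 3 ≤ _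
    omega
  · change 0 + m + 0 + 0 + m + 0 + (R + 0) / 3 + 0 + (R + 2) / 3 ≤ _
    omega
  · change 0 + 0 + m + 0 + 0 + m + (R + 0) / 3 + (R + 1) / 3 + 0 ≤ _
    omega

theorem graphs (h5 : PlanStmt) (h6 : DegStmt) (h7 : DelStmt) (h8 : TransStmt) (m R : ℕ)
    (h1 : m ≤ R / 3 + 1) (hp : PathPairable (GG (Sigma.fst : B m R → Fin 9))) (n : ℕ)
    (hn : n = 2 * (6 * m + R) + 6 ∨ n = 2 * (6 * m + R) + 5) :
    ∃ G : SimpleGraph (Fin n), IsPlanar G ∧ PathPairable G ∧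
      ∀ v, (G.neighborSet v).ncard ≤ 2 * (2 * m + 2 * (R / 3 + 1)) + 5 := by
  classical
  obtain ⟨hd, hz⟩ := h6 (B m R) Sigma.fst _ (hubs m R h1)
  have hP := h5 (B m R) Sigma.fst
  rcases hn with hn | hn
  · exact h8 _ _ n _ ⟨Fintype.equivFinOfCardEq ((card_V m R).trans hn.symm)⟩ hP hp hd
  · obtain ⟨a, b, c⟩ := h7 _ _ _ _ hz hP hp hd
    refine h8 _ _ n _ ⟨Fintype.equivFinOfCardEq ?_⟩ a b c
    have := Fintype.card_subtype_compl (fun v : VV (B m R) => v = .inr (.inr ()))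
    rw [Fintype.card_subtype_eq, card_V] at this
    refine (Fintype.card_congr (Equiv.refl _)).trans (this.trans ?_)
    omega

end AsmJ

theorem ubMain (h1 : Reg1Stmt) (h2 : Reg2Stmt) (h3 : HubRedStmt) (h4 : RouteStmt)
    (h5 : PlanStmt) (h6 : DegStmt) (h7 : DelStmt) (h8 : TransStmt) : UBStmt := by
  intro d hd
  obtain ⟨q0, hq0⟩ := exists_nat_ge (1 / d)
  obtain ⟨n1, hn1⟩ := exists_nat_ge (50 / d)
  obtain ⟨q, hq2, hq⟩ : ∃ q : ℕ, 2 ≤ q ∧ 1 ≤ d * q := by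
    refine ⟨q0 + 2, by omega, ?_⟩
    rw [div_le_iff₀ hd] at hq0
    push_cast
    nlinarith
  obtain ⟨m1, r1⟩ := h1 q (by omega)
  obtain ⟨m2, r2⟩ := h2 q (by omega)
  refine ⟨n1 + 24 * (m1 + m2 + 10) + 6, fun n hn => ?_⟩
  obtain ⟨m, R, hN, hm, h9, lo, hi⟩ := AsmJ.sizes q ((n - 5) / 2) (m1 + m2 + 10) hq2 (by omega)
  obtain ⟨e, he⟩ : ∃ e, e = R / 3 + 1 := ⟨_, rfl⟩
  have me : m ≤ R / 3 + 1 := by
    refine Nat.le_of_mul_le_mul_left (c := q) ?_ (by omega)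
    nlinarith
  have em : R / 3 + 1 ≤ 2 * m := by
    refine Nat.le_of_mul_le_mul_left (c := q) (hi.trans ?_) (by omega)
    have a1 : 2 * m ≤ q * m := Nat.mul_le_mul_right m hq2
    have a2 : q * 10 ≤ q * m := Nat.mul_le_mul_left q (by omega)
    nlinarith
  have hp : PathPairable (GG (Sigma.fst : AsmJ.B m R → Fin 9)) := by
    refine h4 _ _ fun I hc hf => ?_
    have hok := AsmJ.ok m R me em I hc hf
    have : ∃ s, I.Good m s := by
      by_cases hF : ∀ l, I.Few ((R / 3 + 1 - m) / 200) l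
      · exact r1 _ I m _ hok (by omega) lo hF
      · exact r2 _ I m _ hok (by omega) lo (not_forall.1 hF)
    obtain ⟨s, hs⟩ := this
    exact ⟨s, hs.1, h3 _ I m _ hok s hs⟩
  obtain ⟨G, a, b, c⟩ := AsmJ.graphs h5 h6 h7 h8 m R me hp n (by omega)
  refine ⟨G, a, b, fun v => ?_⟩
  rw [← he] at c hi
  have c1 : ((G.neighborSet v).ncard : ℝ) ≤ 2 * (2 * m + 2 * e) + 5 := by exact_mod_cast c v
  have c2 : (q : ℝ) * e ≤ (q + 1) * m + 5 * q := by exact_mod_cast hi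
  have c3 : (18 : ℝ) * m ≤ n := by exact_mod_cast (by omega : 18 * m ≤ n)
  have c4 : (n1 : ℝ) ≤ n := by exact_mod_cast (by omega : n1 ≤ n)
  have c5 : 50 ≤ d * n := by
    rw [div_le_iff₀ hd] at hn1
    nlinarith
  have hm0 : (0 : ℝ) ≤ m := Nat.cast_nonneg m
  have hq0' : (0 : ℝ) < q := by exact_mod_cast (by omega : 0 < q)
  have c6 : (e : ℝ) ≤ m + d * m + 5 := by
    refine le_of_mul_le_mul_left ?_ hq0'
    nlinarith [mul_le_mul_of_nonneg_right hq hm0]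
  nlinarith [mul_le_mul_of_nonneg_left c3 hd.le]

end Pool.Agent.Lib.MP_453ac3_co.UB
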