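import Pool.Agent.Lib.MP_453ac3_co.UB.St

namespace Pool.Agent.Lib.MP_453ac3_co.UB

open Finset

namespace BasJ

/-- the pole as a hub -/
def hb (X : Bool) : Fin 5 := if X then 1 else 0

/-- the new decoration -/
def rd (X : Bool) (p : Fin 3) : Fin 3 := if p = 2 then (if X then 1 else 0) else p

/-- the supply of a loop -/
def lo (c : Fin 9) (p k : Fin 3) (i : Fin 9) : ℤ :=
  dem (tok c false) (tok c false) p 0 i + dem (tok c true) (tok c true) k 0 i -
    dem (tok c false) (tok c true) 0 0 i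

theorem d1 : ∀ P Q p k i, -1 ≤ dem P Q p k i ∧ dem P Q p k i ≤ 1 := by decide +kernel

theorem d2 : ∀ c p k i, 0 ≤ lo c p k i ∧ lo c p k i ≤ 1 := by decide +kernel

theorem d3 : ∀ P Q p k (i : Fin 9), i.val < 6 → 0 ≤ dem P Q p k i := by decide +kernel

theorem d4 : ∀ (P Q : Fin 5) p k l, (P.val + Q.val = 1 → k ≠ l) → 0 ≤ dem P Q p k (tc l) := by
  decide +kernel

theorem d5 : ∀ X P Q p k, (if P = hb X then 1 else 0) + (if Q = hb X then 1 else 0) ≤
    dem P Q p k (spk X 0) + dem P Q p k (spk X 1) + dem P Q p k (spk X 2) := by decide +kernel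

theorem d6 : ∀ X c o p k, (if tok c o = hb X then 1 else 0) + (if tok c (!o) = hb X then 1 else 0) ≤
    lo c p k (spk X 0) + lo c p k (spk X 1) + lo c p k (spk X 2) := by decide +kernel

theorem d7 : ∀ X c o, (if tok c o = hb X then 1 else 0) + (if tok c (!o) = hb X then 1 else 0) =
    (if c = spk X 0 then 1 else 0) + (if c = spk X 1 then 1 else 0) +
      (if c = spk X 2 then 1 else 0 : ℤ) := by decide +kernel

theorem d8 : ∀ X l (P Q : Fin 5) p k, P.val + Q.val ≠ 1 →
    dem P Q (rd X p) (rd X k) (spk X l) = dem P Q p k (spk X l) + dem P Q p k (tc l) := by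
  decide +kernel

theorem d9 : ∀ X l c p k, lo c (rd X p) (rd X k) (spk X l) = lo c p k (spk X l) + lo c p k (tc l) := by
  decide +kernel

theorem d10 : ∀ (c c' : Fin 9) (o o' D : Bool), (c.val < 6 → o = D) → (c'.val < 6 → o' = D) →
    (tok c o).val + (tok c' (!o')).val ≠ 1 := by decide +kernel

theorem d11 : ∀ k i : Fin 9,
    dem (tok k false) (tok k true) 0 0 i = if k = i then (if i.val < 6 then 1 else 0) else 0 := by
  decide +kernel

theorem d12 : ∀ c o x, (if tok c o = x then 1 else 0) + (if tok c (!o) = x then 1 else 0) =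
    (if tok c false = x then 1 else 0) + (if tok c true = x then 1 else 0 : ℕ) := by
  decide +kernel

theorem spk_lt : ∀ X l, (spk X l).val < 6 := by decide

variable {β : Type} [DecidableEq β]

theorem sup_eq (I : Inst β) (b : β) (x x' : Dc) (i : Fin 9) :
    I.sup b x x' i = if I.σ b = b ∧ b ∉ I.fx then lo (I.c b) x.2.1 x.2.2 i
      else dem (tok (I.c b) x.1) (tok (I.c (I.σ b)) (!x'.1)) x.2.1 x.2.2 i := rfl

theorem count [Fintype β] (c : β → Fin 9) (k : Fin 9) :
    ∑ b, (if c b = k then 1 else 0 : ℤ) = (univ.filter fun b => c b = k).card := by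
  simp

/-- reindexing along the successor permutation -/
theorem reidx [Fintype β] {M : Type} [AddCommMonoid M] (I : Inst β) (f g : β → M) :
    ∑ b, (f b + g (I.σ b)) = ∑ b, (f b + g b) := by
  rw [sum_add_distrib, sum_add_distrib, Equiv.sum_comp I.σ g]

theorem three [Fintype β] (I : Inst β) (m e : ℕ) (h : I.Ok m e) (s : β → Dc) (X : Bool) :
    (3 * m : ℤ) ≤ ∑ l, I.y s (spk X l) := by
  have a1 : ∀ b, (if tok (I.c b) (s b).1 = hb X then 1 else 0) +
      (if tok (I.c (I.σ b)) (!(s (I.σ b)).1) = hb X then 1 else 0) ≤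
      I.sup b (s b) (s (I.σ b)) (spk X 0) + I.sup b (s b) (s (I.σ b)) (spk X 1) +
        I.sup b (s b) (s (I.σ b)) (spk X 2) := fun b => by
    simp only [sup_eq]
    by_cases hl : I.σ b = b ∧ b ∉ I.fx
    · simp only [if_pos hl]
      rw [hl.1]
      exact d6 X _ _ _ _
    · simp only [if_neg hl]
      exact d5 X _ _ _ _
  have a2 := sum_le_sum fun b (_ : b ∈ univ) => a1 b
  rw [reidx I (fun b => if tok (I.c b) (s b).1 = hb X then (1 : ℤ) else 0)
    fun b => if tok (I.c b) (!(s b).1) = hb X then (1 : ℤ) else 0] at a2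
  simp only [d7] at a2
  rw [sum_add_distrib, sum_add_distrib, sum_add_distrib, sum_add_distrib, count, count, count,
    h.sp _ (spk_lt X 0), h.sp _ (spk_lt X 1), h.sp _ (spk_lt X 2)] at a2
  rw [Fin.sum_univ_three]
  unfold Inst.y
  linarith

theorem card [Fintype β] (I : Inst β) (m e : ℕ) (h : I.Ok m e) :
    9 * m ≤ Fintype.card β ∧ Fintype.card β ≤ 12 * m + 3 := by
  have a : Fintype.card β = ∑ k : Fin 9, (univ.filter fun b => I.c b = k).card :=
    card_eq_sum_card_fiberwise fun _ _ => mem_univ _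
  simp only [Fin.sum_univ_succ, Fin.sum_univ_zero] at a
  have s0 := h.sp 0 (by decide)
  have s1 := h.sp (Fin.succ 0) (by decide)
  have s2 := h.sp (Fin.succ (Fin.succ 0)) (by decide)
  have s3 := h.sp (Fin.succ (Fin.succ (Fin.succ 0))) (by decide)
  have s4 := h.sp (Fin.succ (Fin.succ (Fin.succ (Fin.succ 0)))) (by decide)
  have s5 := h.sp (Fin.succ (Fin.succ (Fin.succ (Fin.succ (Fin.succ 0))))) (by decide)
  have l6 := h.lo (Fin.succ (Fin.succ (Fin.succ (Fin.succ (Fin.succ (Fin.succ 0)))))) (by decide)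
  have l7 := h.lo (Fin.succ (Fin.succ (Fin.succ (Fin.succ (Fin.succ (Fin.succ (Fin.succ 0)))))))
    (by decide)
  have l8 := h.lo (Fin.succ (Fin.succ (Fin.succ (Fin.succ (Fin.succ (Fin.succ (Fin.succ
    (Fin.succ 0)))))))) (by decide)
  have h6 := h.hi (Fin.succ (Fin.succ (Fin.succ (Fin.succ (Fin.succ (Fin.succ 0)))))) (by decide)
  have h7 := h.hi (Fin.succ (Fin.succ (Fin.succ (Fin.succ (Fin.succ (Fin.succ (Fin.succ 0)))))))
    (by decide)
  have h8 := h.hi (Fin.succ (Fin.succ (Fin.succ (Fin.succ (Fin.succ (Fin.succ (Fin.succ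
    (Fin.succ 0)))))))) (by decide)
  have := h.me
  have := h.em
  omega

theorem redec [Fintype β] (I : Inst β) (s : β → Dc) (h : I.Adm ∅ s) (X : Bool) :
    ∃ s', I.Adm ∅ s' ∧ ∀ l, I.y s' (spk X l) = I.y s (spk X l) + I.y s (tc l) := by
  refine ⟨fun b => ((s b).1, rd X (s b).2.1, rd X (s b).2.2),
    ⟨h.1, fun b hb => absurd (h.2 b hb) (notMem_empty _)⟩, fun l => ?_⟩
  unfold Inst.y
  rw [← sum_add_distrib]
  refine sum_congr rfl fun b _ => ?_
  simp only [sup_eq]
  by_cases hl : I.σ b = b ∧ b ∉ I.fx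
  · simp only [if_pos hl]
    exact d9 X l _ _ _
  · simp only [if_neg hl]
    exact d8 X l _ _ _ _ fun hb => absurd (h.2 b hb) (notMem_empty _)

theorem sum_single {γ : Type} (S : Finset β) (f : β → γ) :
    ∑ b ∈ S, ({f b} : Multiset γ) = S.val.map f := by
  have := Multiset.sum_map_singleton (S.val.map f)
  rw [Multiset.map_map] at this
  exact this

end BasJ

open BasJ

theorem bas : BasStmt where
  bound β _ I b x x' i := by
    rw [sup_eq, abs_le]
    split_ifs
    · exact ⟨by linarith [(d2 (I.c b) x.2.1 x.2.2 i).1], (d2 _ _ _ _).2⟩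
    · exact d1 _ _ _ _ _
  three β _ _ I m e h s X := BasJ.three I m e h s X
  pole β _ I b x x' i hi := by
    rw [sup_eq]
    split_ifs
    · exact (d2 _ _ _ _).1
    · exact d3 _ _ _ _ i hi
  eqt β _ I L s h l hl b := by
    rw [sup_eq]
    split_ifs
    · exact (d2 _ _ _ _).1
    · exact d4 _ _ _ _ l fun hb e => hl (e ▸ h.2 b hb)
  card β _ _ I m e h := BasJ.card I m e h
  redec β _ _ I s h X := BasJ.redec I s h X
  dir β _ I s D h hD := ⟨h, fun b hb => absurd hb (d10 _ _ _ _ D (hD b) (hD (I.σ b)))⟩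

theorem hubRed (h : HubStmt) : HubRedStmt := by
  intro β _ _ I m e hI s hs
  set A := univ.filter fun b => I.σ b = b ∧ b ∉ I.fx with hA
  set B := univ.filter fun b => ¬ (I.σ b = b ∧ b ∉ I.fx) with hB
  have split : ∀ {M : Type} [AddCommMonoid M] (f : β → M), ∑ b, f b = ∑ b ∈ A, f b + ∑ b ∈ B, f b :=
    fun f => (sum_filter_add_sum_filter_not _ _ f).symm
  have r := h (univ.val.map I.c + A.val.map I.c)
    (B.val.map (fun b => (tok (I.c b) (s b).1, tok (I.c (I.σ b)) (!(s (I.σ b)).1), (s b).2.1,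
      (s b).2.2)) + (A.val.map (fun b => (tok (I.c b) false, tok (I.c b) false, (s b).2.1, 0)) +
      A.val.map fun b => (tok (I.c b) true, tok (I.c b) true, (s b).2.2, 0))) ?_ ?_
  · have e1 : I.links = (univ.val.map I.c + A.val.map I.c).map
        fun k => s(tok k false, tok k true) := by
      rw [Inst.links, sum_single, sum_single, Multiset.map_add, Multiset.map_map, Multiset.map_map]
      rfl
    rw [e1]
    refine r.trans (Red.of_le ?_)
    rw [Inst.dems, sum_single, Multiset.map_add, Multiset.map_map]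
    exact Multiset.le_add_right _ _
  · intro x
    simp only [Multiset.map_add, Multiset.sum_add, Multiset.map_map, Function.comp_def,
      sum_map_val]
    have a1 := reidx I (fun b => if tok (I.c b) (s b).1 = x then (1 : ℕ) else 0)
      fun b => if tok (I.c b) (!(s b).1) = x then (1 : ℕ) else 0
    simp only [d12] at a1
    have a2 : ∑ b ∈ A, ((if tok (I.c b) (s b).1 = x then (1 : ℕ) else 0) +
        if tok (I.c (I.σ b)) (!(s (I.σ b)).1) = x then (1 : ℕ) else 0) =
        ∑ b ∈ A, ((if tok (I.c b) false = x then (1 : ℕ) else 0) +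
          if tok (I.c b) true = x then (1 : ℕ) else 0) :=
      sum_congr rfl fun b hb => by rw [(mem_filter.1 hb).2.1, d12]
    rw [split, a2] at a1
    rw [← a1]
    simp only [sum_add_distrib]
    omega
  · intro i
    simp only [Multiset.map_add, Multiset.sum_add, Multiset.map_map, Function.comp_def,
      sum_map_val]
    have a1 := hs.2 i
    have a2 : ∑ b, dem (tok (I.c b) false) (tok (I.c b) true) 0 0 i =
        if i.val < 6 then (m : ℤ) else 0 := by
      simp only [d11]
      split_ifs with hi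
      · rw [count, hI.sp i hi]
      · simp
    have a3 : ∑ b ∈ A, I.sup b (s b) (s (I.σ b)) i = ∑ b ∈ A, lo (I.c b) (s b).2.1 (s b).2.2 i :=
      sum_congr rfl fun b hb => by rw [sup_eq, if_pos (mem_filter.1 hb).2]
    have a4 : ∑ b ∈ B, I.sup b (s b) (s (I.σ b)) i = ∑ b ∈ B,
        dem (tok (I.c b) (s b).1) (tok (I.c (I.σ b)) (!(s (I.σ b)).1)) (s b).2.1 (s b).2.2 i :=
      sum_congr rfl fun b hb => by rw [sup_eq, if_neg (mem_filter.1 hb).2]
    rw [Inst.y, split, a3, a4] at a1
    simp only [lo, sum_sub_distrib, sum_add_distrib] at a1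
    rw [a2]
    linarith

end Pool.Agent.Lib.MP_453ac3_co.UB
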