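import Pool.Agent.Lib.MP_453ac3_co.UB.Cert0

/-! Certificate data. -/

namespace Pool.Agent.Lib.MP_453ac3_co.UB.CertJ

/-- Rays of a root cone. -/
def R3 : Par V5 :=
  ⟨⟨1, 1, 1, 1, 0⟩, ⟨0, 0, 0, 0, 0⟩, ⟨1, 0, 0, 0, 0⟩, ⟨1, 1, 1, 0, 0⟩, ⟨0, 0, 0, 0, 0⟩, ⟨1, 0, 0, 0, 1⟩, ⟨1, 1, 2, 1, 0⟩, ⟨0, 0, 0, 0, 0⟩, ⟨1, 0, 0, 0, 1⟩, ⟨1, 1, 0, 0, 0⟩⟩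

/-- Subdivision of a root cone. -/
def T3 : Tr :=
  (.node 1 4 1 1
  (.node 2 4 1 1
  (.node 3 4 1 1
  (.node 2 4 1 1
  (.leaf ⟨2, 2, 3, 3, 3⟩
   [⟨2, 0, 0, 0, -1⟩, ⟨1, 0, -2, 0, -1⟩, ⟨2, 1, 2, 2, 1⟩, ⟨1, 2, 4, 2, 1⟩, ⟨0, 1, 2, 0, 1⟩,
    ⟨1, 1, 2, 0, 1⟩, ⟨0, 0, 0, 0, 1⟩, ⟨1, 1, 4, 2, 1⟩, ⟨0, 0, 0, 0, -1⟩]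
   952505617701381056336252)
  (.leaf ⟨2, 2, 5, 3, 3⟩
   [⟨2, 0, 2, 0, 0⟩, ⟨1, 0, -2, 0, -2⟩, ⟨2, 1, 2, 2, 2⟩, ⟨1, 2, 6, 2, 4⟩, ⟨0, 1, 1, 0, 2⟩,
    ⟨1, 1, 2, 0, 2⟩, ⟨0, 0, -2, 0, 0⟩, ⟨1, 1, 4, 2, 4⟩, ⟨0, 0, 2, 0, 0⟩]
   952505617701381056336252))
  (.leaf ⟨2, 2, 5, 3, 3⟩
   [⟨2, 0, 2, 1, 0⟩, ⟨0, 0, -2, 1, 0⟩, ⟨2, 1, 2, 1, 2⟩, ⟨2, 2, 6, 1, 2⟩, ⟨0, 1, 1, -1, 0⟩,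
    ⟨1, 1, 2, -1, 0⟩, ⟨0, 0, -2, -1, 0⟩, ⟨1, 1, 4, 1, 2⟩, ⟨0, 0, 2, 1, 0⟩]
   952505617701381056336252))
  (.node 1 2 1 1
  (.leaf ⟨2, 2, 3, 3, 5⟩
   [⟨2, 2, 2, 1, 2⟩, ⟨0, 0, 0, 1, -2⟩, ⟨2, 1, 0, 1, 2⟩, ⟨2, 4, 2, 1, 6⟩, ⟨0, 1, 0, -1, 1⟩,
    ⟨1, 1, 0, -1, 2⟩, ⟨0, -2, -2, -1, -2⟩, ⟨1, 2, 2, 1, 4⟩, ⟨0, 1, 2, 1, 2⟩]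
   952653191662766825771388)
  (.leaf ⟨2, 2, 2, 3, 5⟩
   [⟨2, 0, 2, 1, 2⟩, ⟨0, 0, 0, 1, -2⟩, ⟨2, 1, 1, 1, 2⟩, ⟨2, 2, 4, 1, 6⟩, ⟨0, 1, 1, -1, 1⟩,
    ⟨1, 1, 1, -1, 2⟩, ⟨0, 0, -2, -1, -2⟩, ⟨1, 1, 2, 1, 4⟩, ⟨0, 0, 1, 1, 2⟩]
   952653191662766825771388)))
  (.node 2 4 1 1
  (.leaf ⟨2, 3, 2, 3, 2⟩
   [⟨2, 2, 2, 1, 0⟩, ⟨0, 1, 0, 1, 0⟩, ⟨2, 1, 1, 1, 1⟩, ⟨2, 1, 4, 1, 2⟩, ⟨0, 1, 1, -1, 1⟩,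
    ⟨1, 1, 1, -1, 1⟩, ⟨0, -2, -2, -1, 0⟩, ⟨1, 1, 2, 1, 1⟩, ⟨0, 1, 1, 1, 0⟩]
   952653191662491943670140)
  (.leaf ⟨2, 3, 3, 3, 2⟩
   [⟨2, 2, 2, 1, 2⟩, ⟨0, 1, 0, 1, 0⟩, ⟨2, 1, 0, 1, 1⟩, ⟨2, 1, 2, 1, 4⟩, ⟨0, 1, 0, -1, 1⟩,
    ⟨1, 1, 0, -1, 1⟩, ⟨0, -2, -2, -1, -2⟩, ⟨1, 1, 2, 1, 2⟩, ⟨0, 1, 2, 1, 1⟩]
   952653191662491943670140)))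

theorem chk3 : chk T3 R3 = true := by decide +kernel

/-- Rays of a root cone. -/
def R5 : Par V5 :=
  ⟨⟨1, 1, 1, 0, 0⟩, ⟨0, 0, 0, 0, 0⟩, ⟨1, 0, 0, 0, 0⟩, ⟨1, 1, 0, 0, 0⟩, ⟨0, 0, 0, 0, 0⟩, ⟨1, 0, 0, 1, 0⟩, ⟨2, 2, 1, 0, 0⟩, ⟨0, 0, 0, 0, 0⟩, ⟨1, 0, 0, 1, 0⟩, ⟨0, 0, 0, 0, -1⟩⟩

/-- Subdivision of a root cone. -/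
def T5 : Tr :=
  (.node 1 3 1 1
  (.node 2 3 1 1
  (.node 1 3 1 1
  (.leaf ⟨2, 3, 3, 3, 1⟩
   [⟨2, 0, 0, -1, 0⟩, ⟨0, -2, 0, -1, 0⟩, ⟨2, 2, 2, 1, 0⟩, ⟨2, 4, 2, 1, 0⟩, ⟨0, 2, 0, 1, 0⟩,
    ⟨1, 2, 0, 1, 0⟩, ⟨0, 0, 0, 1, 0⟩, ⟨1, 4, 2, 1, 0⟩, ⟨0, 0, 0, -1, 0⟩]
   952505617912624736235900)
  (.leaf ⟨2, 5, 3, 3, 1⟩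
   [⟨2, 2, 0, 0, 0⟩, ⟨0, -2, 0, -2, 0⟩, ⟨2, 2, 2, 2, 0⟩, ⟨2, 6, 2, 4, 0⟩, ⟨0, 1, 0, 2, 0⟩,
    ⟨1, 2, 0, 2, 0⟩, ⟨0, -2, 0, 0, 0⟩, ⟨1, 4, 2, 4, 0⟩, ⟨0, 2, 0, 0, 0⟩]
   952505617912624736235900))
  (.leaf ⟨2, 5, 3, 3, 1⟩
   [⟨2, 2, 1, 0, 0⟩, ⟨0, -2, 1, 0, 0⟩, ⟨2, 2, 1, 2, 0⟩, ⟨2, 6, 1, 2, 0⟩, ⟨0, 1, -1, 0, 0⟩,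
    ⟨1, 2, -1, 0, 0⟩, ⟨0, -2, -1, 0, 0⟩, ⟨1, 4, 1, 2, 0⟩, ⟨0, 2, 1, 0, 0⟩]
   952505617912624736235900))
  (.leaf ⟨2, 3, 3, 5, 1⟩
   [⟨2, 2, 1, 2, 0⟩, ⟨0, 0, 1, -2, 0⟩, ⟨2, 0, 1, 2, 0⟩, ⟨2, 2, 1, 6, 0⟩, ⟨0, 0, -1, 1, 0⟩,
    ⟨1, 0, -1, 2, 0⟩, ⟨0, -2, -1, -2, 0⟩, ⟨1, 2, 1, 4, 0⟩, ⟨0, 2, 1, 2, 0⟩]
   952653191874010505671036))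

theorem chk5 : chk T5 R5 = true := by decide +kernel

/-- Rays of a root cone. -/
def R7 : Par V5 :=
  ⟨⟨1, 1, 0, 0, 0⟩, ⟨0, 0, 0, 0, 0⟩, ⟨0, 0, 1, 0, 0⟩, ⟨1, 0, 0, 0, 0⟩, ⟨0, 0, 0, 1, 0⟩, ⟨0, 0, 0, 0, 0⟩, ⟨2, 1, 0, 0, 0⟩, ⟨0, 0, 0, 1, 0⟩, ⟨0, 0, 1, 0, 0⟩, ⟨0, 0, 0, 0, -1⟩⟩

/-- Subdivision of a root cone. -/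
def T7 : Tr :=
  (.node 0 3 1 1
  (.node 0 2 1 1
  (.node 1 2 1 1
  (.node 2 3 1 1
  (.leaf ⟨2, 2, 3, 3, 1⟩
   [⟨2, 2, 0, -1, 0⟩, ⟨1, 1, 2, 1, 0⟩, ⟨0, 2, 0, -1, 0⟩, ⟨2, 0, 0, 1, 0⟩, ⟨0, -2, 0, 1, 0⟩,
    ⟨1, 0, 2, 1, 0⟩, ⟨0, 0, 2, 1, 0⟩, ⟨1, 1, 0, -1, 0⟩, ⟨1, 0, 0, 1, 0⟩]
   1103749830537882601058684)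
  (.leaf ⟨2, 2, 3, 3, 1⟩
   [⟨2, 2, 1, 0, 0⟩, ⟨1, 1, 1, 2, 0⟩, ⟨0, 2, 1, 0, 0⟩, ⟨2, 0, -1, 0, 0⟩, ⟨0, -2, -1, 0, 0⟩,
    ⟨1, 0, 1, 2, 0⟩, ⟨0, 0, 1, 2, 0⟩, ⟨1, 1, 1, 0, 0⟩, ⟨1, 0, -1, 0, 0⟩]
   1103749830537882601058684))
  (.node 1 3 1 1
  (.leaf ⟨2, 3, 2, 3, 1⟩
   [⟨2, 0, 2, -1, 0⟩, ⟨1, 2, 1, 1, 0⟩, ⟨0, 0, 2, -1, 0⟩, ⟨2, 2, 0, 1, 0⟩, ⟨0, 0, -2, 1, 0⟩,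
    ⟨1, 0, 0, 1, 0⟩, ⟨0, 0, 0, 1, 0⟩, ⟨1, 0, 1, -1, 0⟩, ⟨1, 2, 0, 1, 0⟩]
   1103768277281956310675836)
  (.leaf ⟨2, 3, 2, 3, 1⟩
   [⟨2, 1, 2, 0, 0⟩, ⟨1, 1, 1, 2, 0⟩, ⟨0, 1, 2, 0, 0⟩, ⟨2, 1, 0, 2, 0⟩, ⟨0, -1, -2, 0, 0⟩,
    ⟨1, -1, 0, 0, 0⟩, ⟨0, -1, 0, 0, 0⟩, ⟨1, 1, 1, 0, 0⟩, ⟨1, 1, 0, 2, 0⟩]
   1103768277281956310675836)))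
  (.node 1 3 1 1
  (.node 0 3 1 1
  (.leaf ⟨3, 3, 2, 3, 1⟩
   [⟨0, 0, 2, -1, 0⟩, ⟨2, 2, 1, 1, 0⟩, ⟨-2, 0, 0, -1, 0⟩, ⟨4, 2, 2, 1, 0⟩, ⟨2, 0, 0, 1, 0⟩,
    ⟨2, 0, 1, 1, 0⟩, ⟨0, 0, 0, 1, 0⟩, ⟨0, 0, 1, -1, 0⟩, ⟨4, 2, 1, 1, 0⟩]
   1103768277281956310675836)
  (.leaf ⟨6, 3, 2, 3, 1⟩
   [⟨2, 0, 2, 0, 0⟩, ⟨2, 2, 1, 2, 0⟩, ⟨-4, 0, 0, -2, 0⟩, ⟨8, 2, 2, 4, 0⟩, ⟨4, 0, 0, 2, 0⟩,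
    ⟨1, 0, 1, 2, 0⟩, ⟨-2, 0, 0, 0, 0⟩, ⟨2, 0, 1, 0, 0⟩, ⟨5, 2, 1, 4, 0⟩]
   1103768277281956310675836))
  (.leaf ⟨6, 3, 2, 3, 1⟩
   [⟨2, 1, 2, 0, 0⟩, ⟨2, 1, 1, 2, 0⟩, ⟨-4, 1, 0, 0, 0⟩, ⟨8, 1, 2, 2, 0⟩, ⟨4, -1, 0, 0, 0⟩,
    ⟨1, -1, 1, 0, 0⟩, ⟨-2, -1, 0, 0, 0⟩, ⟨2, 1, 1, 0, 0⟩, ⟨5, 1, 1, 2, 0⟩]
   1103768277281956310675836)))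
  (.node 1 2 1 1
  (.node 0 2 1 1
  (.node 2 3 1 1
  (.leaf ⟨6, 2, 2, 6, 1⟩
   [⟨8, 2, 2, 2, 0⟩, ⟨1, 1, 1, 2, 0⟩, ⟨4, 2, 0, -4, 0⟩, ⟨2, 0, 2, 8, 0⟩, ⟨-4, -2, 0, 4, 0⟩,
    ⟨2, 0, 1, 1, 0⟩, ⟨-2, 0, 0, -2, 0⟩, ⟨5, 1, 1, 2, 0⟩, ⟨2, 0, 1, 5, 0⟩]
   952652540822928409096572)
  (.node 0 2 1 1
  (.leaf ⟨3, 2, 3, 2, 1⟩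
   [⟨4, 2, 1, 2, 0⟩, ⟨2, 1, 1, 1, 0⟩, ⟨2, 2, 1, 0, 0⟩, ⟨0, 0, -1, 2, 0⟩, ⟨-2, -2, -1, 0, 0⟩,
    ⟨2, 0, 1, 1, 0⟩, ⟨0, 0, 1, 0, 0⟩, ⟨4, 1, 1, 1, 0⟩, ⟨0, 0, -1, 1, 0⟩]
   952634094078854699479420)
  (.leaf ⟨6, 2, 3, 2, 1⟩
   [⟨8, 2, 4, 2, 0⟩, ⟨1, 1, 2, 1, 0⟩, ⟨4, 2, 2, 0, 0⟩, ⟨2, 0, 0, 2, 0⟩, ⟨-4, -2, -2, 0, 0⟩,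
    ⟨2, 0, 2, 1, 0⟩, ⟨-2, 0, 0, 0, 0⟩, ⟨5, 1, 4, 1, 0⟩, ⟨2, 0, 0, 1, 0⟩]
   952634094078854699479420)))
  (.leaf ⟨3, 2, 6, 6, 1⟩
   [⟨2, 2, 8, 2, 0⟩, ⟨0, 1, 1, 2, 0⟩, ⟨0, 2, 4, -4, 0⟩, ⟨2, 0, 2, 8, 0⟩, ⟨0, -2, -4, 4, 0⟩,
    ⟨0, 0, 2, 1, 0⟩, ⟨-2, 0, -2, -2, 0⟩, ⟨2, 1, 5, 2, 0⟩, ⟨2, 0, 2, 5, 0⟩]
   952652540822928409096572))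
  (.leaf ⟨3, 3, 2, 6, 1⟩
   [⟨2, 1, 2, 2, 0⟩, ⟨0, 1, 1, 2, 0⟩, ⟨0, 1, 2, -4, 0⟩, ⟨2, 1, 0, 8, 0⟩, ⟨0, -1, -2, 4, 0⟩,
    ⟨0, -1, 0, 1, 0⟩, ⟨-2, -1, 0, -2, 0⟩, ⟨2, 1, 1, 2, 0⟩, ⟨2, 1, 0, 5, 0⟩]
   952652540822928409096572)))

theorem chk7 : chk T7 R7 = true := by decide +kernel

end Pool.Agent.Lib.MP_453ac3_co.UB.CertJ
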