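import Pool.Agent.Lib.MP_453ac3_co.UB.Cert0

/-! Certificate data. -/

namespace Pool.Agent.Lib.MP_453ac3_co.UB.CertJ

/-- Rays of a root cone. -/
def R6 : Par V5 :=
  ⟨⟨1, 1, 1, 0, 0⟩, ⟨0, 0, 0, 0, 0⟩, ⟨0, 0, 0, 1, 0⟩, ⟨1, 1, 0, 0, 0⟩, ⟨0, 0, 0, 0, 1⟩, ⟨0, 0, 0, 0, 0⟩, ⟨1, 2, 1, 0, 0⟩, ⟨0, 0, 0, 0, 1⟩, ⟨0, 0, 0, 1, 0⟩, ⟨1, 0, 0, 0, 0⟩⟩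

/-- Subdivision of a root cone. -/
def T6 : Tr :=
  (.node 0 4 1 1
  (.node 1 4 1 1
  (.node 0 3 1 1
  (.node 1 3 1 1
  (.node 2 3 1 1
  (.node 3 4 1 1
  (.leaf ⟨3, 2, 2, 3, 3⟩
   [⟨2, 2, 2, 0, -1⟩, ⟨3, 1, 1, 2, 1⟩, ⟨1, 0, 2, 0, -1⟩, ⟨2, 2, 0, 0, 1⟩, ⟨1, 0, -2, 0, 1⟩,
    ⟨2, 1, 0, 2, 1⟩, ⟨0, 0, 0, 2, 1⟩, ⟨0, 1, 1, 0, -1⟩, ⟨1, 1, 0, 0, 1⟩]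
   1103749830396732783251836)
  (.leaf ⟨3, 2, 2, 3, 3⟩
   [⟨2, 2, 2, 1, 0⟩, ⟨2, 1, 1, 1, 2⟩, ⟨1, 0, 2, 1, 0⟩, ⟨2, 2, 0, -1, 0⟩, ⟨1, 0, -2, -1, 0⟩,
    ⟨3, 1, 0, 1, 2⟩, ⟨0, 0, 0, 1, 2⟩, ⟨1, 1, 1, 1, 0⟩, ⟨0, 1, 0, -1, 0⟩]
   1103749830396732783251836))
  (.node 2 4 1 1
  (.leaf ⟨3, 2, 3, 2, 3⟩
   [⟨2, 2, 0, 2, -1⟩, ⟨2, 1, 2, 1, 1⟩, ⟨1, 0, 0, 2, -1⟩, ⟨2, 2, 2, 0, 1⟩, ⟨1, 0, 0, -2, 1⟩,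
    ⟨2, 1, 0, 0, 1⟩, ⟨0, 0, 0, 0, 1⟩, ⟨1, 1, 0, 1, -1⟩, ⟨1, 1, 2, 0, 1⟩]
   1103768277140806492868988)
  (.leaf ⟨4, 2, 3, 2, 3⟩
   [⟨3, 2, 1, 2, 0⟩, ⟨3, 1, 1, 1, 2⟩, ⟨1, 0, 1, 2, 0⟩, ⟨3, 2, 1, 0, 2⟩, ⟨1, 0, -1, -2, 0⟩,
    ⟨3, 1, -1, 0, 0⟩, ⟨1, 0, -1, 0, 0⟩, ⟨1, 1, 1, 1, 0⟩, ⟨0, 1, 1, 0, 2⟩]
   1103768277140806492868988)))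
  (.node 2 4 1 1
  (.node 1 4 1 1
  (.leaf ⟨3, 3, 3, 2, 3⟩
   [⟨2, 0, 0, 2, -1⟩, ⟨2, 2, 2, 1, 1⟩, ⟨1, -2, 0, 0, -1⟩, ⟨2, 4, 2, 2, 1⟩, ⟨1, 2, 0, 0, 1⟩,
    ⟨2, 2, 0, 1, 1⟩, ⟨0, 0, 0, 0, 1⟩, ⟨1, 0, 0, 1, -1⟩, ⟨1, 4, 2, 1, 1⟩]
   1103768277140806492868988)
  (.leaf ⟨3, 6, 3, 2, 3⟩
   [⟨2, 2, 0, 2, 0⟩, ⟨2, 2, 2, 1, 2⟩, ⟨1, -4, 0, 0, -2⟩, ⟨2, 8, 2, 2, 4⟩, ⟨1, 4, 0, 0, 2⟩,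
    ⟨3, 1, 0, 1, 2⟩, ⟨0, -2, 0, 0, 0⟩, ⟨1, 2, 0, 1, 0⟩, ⟨0, 5, 2, 1, 4⟩]
   1103768277140806492868988))
  (.leaf ⟨4, 6, 3, 2, 3⟩
   [⟨3, 2, 1, 2, 0⟩, ⟨3, 2, 1, 1, 2⟩, ⟨1, -4, 1, 0, 0⟩, ⟨3, 8, 1, 2, 2⟩, ⟨1, 4, -1, 0, 0⟩,
    ⟨3, 1, -1, 1, 0⟩, ⟨1, -2, -1, 0, 0⟩, ⟨1, 2, 1, 1, 0⟩, ⟨0, 5, 1, 1, 2⟩]
   1103768277140806492868988)))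
  (.node 2 4 1 1
  (.node 1 4 1 1
  (.leaf ⟨2, 3, 3, 3, 3⟩
   [⟨0, 0, 0, 2, -1⟩, ⟨1, 2, 2, 2, 1⟩, ⟨0, -2, 0, 1, -1⟩, ⟨2, 4, 2, 2, 1⟩, ⟨1, 2, 0, 1, 1⟩,
    ⟨1, 2, 0, 2, 1⟩, ⟨0, 0, 0, 0, 1⟩, ⟨0, 0, 0, 1, -1⟩, ⟨1, 4, 2, 1, 1⟩]
   1103768277140806492868988)
  (.leaf ⟨2, 6, 3, 3, 3⟩
   [⟨0, 2, 0, 2, 0⟩, ⟨1, 2, 2, 2, 2⟩, ⟨0, -4, 0, 1, -2⟩, ⟨2, 8, 2, 2, 4⟩, ⟨1, 4, 0, 1, 2⟩,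
    ⟨1, 1, 0, 3, 2⟩, ⟨0, -2, 0, 0, 0⟩, ⟨0, 2, 0, 1, 0⟩, ⟨1, 5, 2, 0, 4⟩]
   1103768277140806492868988))
  (.leaf ⟨2, 6, 3, 4, 3⟩
   [⟨0, 2, 1, 3, 0⟩, ⟨1, 2, 1, 3, 2⟩, ⟨0, -4, 1, 1, 0⟩, ⟨2, 8, 1, 3, 2⟩, ⟨1, 4, -1, 1, 0⟩,
    ⟨1, 1, -1, 3, 0⟩, ⟨0, -2, -1, 1, 0⟩, ⟨0, 2, 1, 1, 0⟩, ⟨1, 5, 1, 0, 2⟩]
   1103768277140806492868988)))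
  (.node 0 3 1 1
  (.node 1 3 1 1
  (.node 2 3 1 1
  (.node 3 4 1 1
  (.leaf ⟨3, 6, 2, 2, 6⟩
   [⟨2, 8, 2, 2, 2⟩, ⟨2, 1, 1, 1, 2⟩, ⟨1, 4, 2, 0, -4⟩, ⟨2, 2, 0, 2, 8⟩, ⟨1, -4, -2, 0, 4⟩,
    ⟨3, 2, 0, 1, 1⟩, ⟨0, -2, 0, 0, -2⟩, ⟨1, 5, 1, 1, 2⟩, ⟨0, 2, 0, 1, 5⟩]
   952652540681778591289724)
  (.node 1 3 1 1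
  (.leaf ⟨3, 5, 2, 3, 2⟩
   [⟨2, 8, 2, 1, 2⟩, ⟨2, 3, 1, 1, 1⟩, ⟨1, 4, 2, 1, 0⟩, ⟨2, 0, 0, -1, 2⟩, ⟨1, -4, -2, -1, 0⟩,
    ⟨3, 3, 0, 1, 1⟩, ⟨0, 0, 0, 1, 0⟩, ⟨1, 6, 1, 1, 1⟩, ⟨0, 0, 0, -1, 1⟩]
   952634093937704881672572)
  (.leaf ⟨3, 6, 2, 3, 2⟩
   [⟨2, 8, 2, 4, 2⟩, ⟨3, 1, 1, 2, 1⟩, ⟨1, 4, 2, 2, 0⟩, ⟨2, 2, 0, 0, 2⟩, ⟨1, -4, -2, -2, 0⟩,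
    ⟨2, 2, 0, 2, 1⟩, ⟨0, -2, 0, 0, 0⟩, ⟨0, 5, 1, 4, 1⟩, ⟨1, 2, 0, 0, 1⟩]
   952634093937704881672572)))
  (.node 1 2 1 1
  (.leaf ⟨4, 2, 3, 2, 6⟩
   [⟨3, 4, 1, 2, 2⟩, ⟨3, 1, 1, 1, 2⟩, ⟨1, 2, 1, 2, -4⟩, ⟨3, 2, 1, 0, 8⟩, ⟨1, -2, -1, -2, 4⟩,
    ⟨3, 0, -1, 0, 1⟩, ⟨1, -2, -1, 0, -2⟩, ⟨1, 2, 1, 1, 2⟩, ⟨0, 1, 1, 0, 5⟩]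
   952652540681778591289724)
  (.leaf ⟨3, 6, 2, 2, 6⟩
   [⟨2, 8, 4, 2, 2⟩, ⟨2, 1, 1, 1, 2⟩, ⟨1, 4, 2, 2, -4⟩, ⟨2, 2, 2, 0, 8⟩, ⟨1, -4, -2, -2, 4⟩,
    ⟨3, 2, 0, 0, 1⟩, ⟨0, -2, -2, 0, -2⟩, ⟨1, 5, 2, 1, 2⟩, ⟨0, 2, 1, 0, 5⟩]
   952652540681778591289724)))
  (.node 2 3 1 1
  (.node 0 1 1 1
  (.leaf ⟨2, 3, 2, 6, 6⟩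
   [⟨3, 2, 4, 8, 2⟩, ⟨2, 0, 1, 1, 2⟩, ⟨1, 0, 2, 4, -4⟩, ⟨3, 2, 2, 2, 8⟩, ⟨0, 0, -2, -4, 4⟩,
    ⟨2, 0, 0, 2, 1⟩, ⟨-1, -2, -2, -2, -2⟩, ⟨1, 2, 2, 5, 2⟩, ⟨1, 2, 1, 2, 5⟩]
   952652540681778591289724)
  (.leaf ⟨3, 2, 2, 6, 6⟩
   [⟨2, 3, 4, 8, 2⟩, ⟨2, 2, 1, 1, 2⟩, ⟨1, 1, 2, 4, -4⟩, ⟨2, 3, 2, 2, 8⟩, ⟨1, 0, -2, -4, 4⟩,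
    ⟨3, 2, 0, 2, 1⟩, ⟨0, -1, -2, -2, -2⟩, ⟨1, 1, 2, 5, 2⟩, ⟨0, 1, 1, 2, 5⟩]
   952652540681778591289724))
  (.node 0 1 1 1
  (.leaf ⟨2, 3, 3, 2, 6⟩
   [⟨3, 2, 1, 4, 2⟩, ⟨2, 0, 1, 1, 2⟩, ⟨0, 0, 1, 2, -4⟩, ⟨3, 2, 1, 2, 8⟩, ⟨1, 0, -1, -2, 4⟩,
    ⟨2, 0, -1, 0, 1⟩, ⟨-1, -2, -1, -2, -2⟩, ⟨1, 2, 1, 2, 2⟩, ⟨1, 2, 1, 1, 5⟩]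
   952652540681778591289724)
  (.leaf ⟨4, 2, 3, 2, 6⟩
   [⟨3, 3, 1, 4, 2⟩, ⟨3, 2, 1, 1, 2⟩, ⟨1, 0, 1, 2, -4⟩, ⟨3, 3, 1, 2, 8⟩, ⟨1, 1, -1, -2, 4⟩,
    ⟨3, 2, -1, 0, 1⟩, ⟨1, -1, -1, -2, -2⟩, ⟨1, 1, 1, 2, 2⟩, ⟨0, 1, 1, 1, 5⟩]
   952652540681778591289724))))
  (.node 0 1 1 1
  (.node 1 2 1 1
  (.leaf ⟨2, 6, 3, 4, 6⟩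
   [⟨2, 8, 1, 3, 2⟩, ⟨1, 2, 1, 3, 2⟩, ⟨0, 2, 1, 1, -4⟩, ⟨4, 8, 1, 3, 8⟩, ⟨1, -2, -1, 1, 4⟩,
    ⟨1, -2, -1, 3, 1⟩, ⟨-2, -8, -1, 1, -2⟩, ⟨1, 5, 1, 1, 2⟩, ⟨2, 5, 1, 0, 5⟩]
   952652540681778591289724)
  (.leaf ⟨2, 3, 3, 4, 6⟩
   [⟨2, 2, 3, 3, 2⟩, ⟨1, 0, 1, 3, 2⟩, ⟨0, 0, 1, 1, -4⟩, ⟨4, 2, 3, 3, 8⟩, ⟨1, 0, -1, 1, 4⟩,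
    ⟨1, 0, -1, 3, 1⟩, ⟨-2, -2, -3, 1, -2⟩, ⟨1, 2, 3, 1, 2⟩, ⟨2, 2, 3, 0, 5⟩]
   952652540681778591289724))
  (.leaf ⟨2, 2, 3, 4, 6⟩
   [⟨0, 2, 1, 3, 2⟩, ⟨1, 1, 1, 3, 2⟩, ⟨0, 0, 1, 1, -4⟩, ⟨2, 4, 1, 3, 8⟩, ⟨1, 1, -1, 1, 4⟩,
    ⟨1, 1, -1, 3, 1⟩, ⟨0, -2, -1, 1, -2⟩, ⟨0, 1, 1, 1, 2⟩, ⟨1, 2, 1, 0, 5⟩]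
   952652540681778591289724))))
  (.node 0 3 1 1
  (.node 1 3 1 1
  (.node 2 3 1 1
  (.node 3 4 1 1
  (.leaf ⟨2, 6, 2, 3, 2⟩
   [⟨2, 8, 2, 2, 0⟩, ⟨1, 1, 1, 2, 1⟩, ⟨2, 4, 2, 1, 0⟩, ⟨0, 2, 0, 2, 2⟩, ⟨-1, -4, -2, 1, 1⟩,
    ⟨1, 2, 0, 3, 1⟩, ⟨0, -2, 0, 0, 0⟩, ⟨1, 5, 1, 1, 0⟩, ⟨0, 2, 0, 0, 1⟩]
   952652540681778591289724)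
  (.node 1 3 1 1
  (.leaf ⟨2, 5, 2, 3, 3⟩
   [⟨2, 8, 2, 1, 2⟩, ⟨1, 3, 1, 1, 2⟩, ⟨2, 4, 2, 1, 1⟩, ⟨0, 0, 0, -1, 2⟩, ⟨-1, -4, -2, -1, 1⟩,
    ⟨1, 3, 0, 1, 3⟩, ⟨0, 0, 0, 1, 0⟩, ⟨1, 6, 1, 1, 1⟩, ⟨0, 0, 0, -1, 0⟩]
   952634093937704881672572)
  (.leaf ⟨2, 6, 2, 3, 3⟩
   [⟨2, 8, 2, 4, 2⟩, ⟨1, 1, 1, 2, 3⟩, ⟨2, 4, 2, 2, 1⟩, ⟨0, 2, 0, 0, 2⟩, ⟨-1, -4, -2, -2, 1⟩,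
    ⟨1, 2, 0, 2, 2⟩, ⟨0, -2, 0, 0, 0⟩, ⟨1, 5, 1, 4, 0⟩, ⟨0, 2, 0, 0, 1⟩]
   952634093937704881672572)))
  (.node 0 2 1 1
  (.node 1 2 1 1
  (.leaf ⟨2, 2, 3, 2, 2⟩
   [⟨3, 4, 1, 2, 0⟩, ⟨2, 1, 1, 1, 1⟩, ⟨2, 2, 1, 2, 0⟩, ⟨1, 2, 1, 0, 2⟩, ⟨-1, -2, -1, -2, 1⟩,
    ⟨0, 0, -1, 0, 1⟩, ⟨-1, -2, -1, 0, 0⟩, ⟨2, 2, 1, 1, 0⟩, ⟨0, 1, 1, 0, 1⟩]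
   952652540681778591289724)
  (.leaf ⟨2, 6, 2, 2, 2⟩
   [⟨3, 8, 4, 2, 0⟩, ⟨2, 1, 1, 1, 1⟩, ⟨2, 4, 2, 2, 0⟩, ⟨1, 2, 2, 0, 2⟩, ⟨-1, -4, -2, -2, 1⟩,
    ⟨0, 2, 0, 0, 1⟩, ⟨-1, -2, -2, 0, 0⟩, ⟨2, 5, 2, 1, 0⟩, ⟨0, 2, 1, 0, 1⟩]
   952652540681778591289724))
  (.leaf ⟨2, 6, 2, 2, 2⟩
   [⟨2, 8, 3, 2, 0⟩, ⟨1, 1, 2, 1, 1⟩, ⟨2, 4, 2, 2, 0⟩, ⟨0, 2, 1, 0, 2⟩, ⟨-1, -4, -1, -2, 1⟩,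
    ⟨1, 2, 0, 0, 1⟩, ⟨0, -2, -1, 0, 0⟩, ⟨1, 5, 2, 1, 0⟩, ⟨0, 2, 0, 0, 1⟩]
   952652540681778591289724)))
  (.node 2 3 2 1
  (.leaf ⟨2, 3, 1, 5, 2⟩
   [⟨2, 2, 2, 6, 0⟩, ⟨1, 0, 1, 1, 1⟩, ⟨1, 0, 1, 2, 0⟩, ⟨0, 2, 1, 2, 2⟩, ⟨0, 0, -1, -2, 1⟩,
    ⟨1, 0, 0, 2, 1⟩, ⟨0, -2, -1, -2, 0⟩, ⟨1, 2, 1, 4, 0⟩, ⟨0, 2, 1, 2, 1⟩]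
   952652540681778591289724)
  (.node 0 2 1 2
  (.node 1 4 1 1
  (.leaf ⟨1, 2, 3, 1, 2⟩
   [⟨2, 2, 1, 2, 0⟩, ⟨1, 1, 1, 1, 1⟩, ⟨1, 0, 1, 1, 0⟩, ⟨1, 4, 1, 1, 2⟩, ⟨-1, 1, -1, -1, 1⟩,
    ⟨0, 1, -1, 0, 1⟩, ⟨-1, -2, -1, -1, 0⟩, ⟨1, 1, 1, 1, 0⟩, ⟨1, 2, 1, 1, 1⟩]
   952652540681778591289724)
  (.leaf ⟨1, 3, 3, 1, 2⟩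
   [⟨2, 2, 1, 2, 2⟩, ⟨1, 0, 1, 1, 1⟩, ⟨1, 0, 1, 1, 0⟩, ⟨1, 2, 1, 1, 4⟩, ⟨-1, 0, -1, -1, 1⟩,
    ⟨0, 0, -1, 0, 1⟩, ⟨-1, -2, -1, -1, -2⟩, ⟨1, 2, 1, 1, 1⟩, ⟨1, 2, 1, 1, 2⟩]
   952652540681778591289724))
  (.node 1 4 1 1
  (.leaf ⟨2, 2, 1, 1, 2⟩
   [⟨2, 2, 2, 2, 0⟩, ⟨1, 1, 1, 1, 1⟩, ⟨1, 0, 1, 1, 0⟩, ⟨0, 4, 1, 1, 2⟩, ⟨0, 1, -1, -1, 1⟩,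
    ⟨1, 1, 0, 0, 1⟩, ⟨0, -2, -1, -1, 0⟩, ⟨1, 1, 1, 1, 0⟩, ⟨0, 2, 1, 1, 1⟩]
   952652540681778591289724)
  (.leaf ⟨2, 3, 1, 1, 2⟩
   [⟨2, 2, 2, 2, 2⟩, ⟨1, 0, 1, 1, 1⟩, ⟨1, 0, 1, 1, 0⟩, ⟨0, 2, 1, 1, 4⟩, ⟨0, 0, -1, -1, 1⟩,
    ⟨1, 0, 0, 0, 1⟩, ⟨0, -2, -1, -1, -2⟩, ⟨1, 2, 1, 1, 1⟩, ⟨0, 2, 1, 1, 2⟩]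
   952652540681778591289724)))))
  (.node 2 3 2 1
  (.node 1 3 2 1
  (.leaf ⟨3, 2, 1, 2, 2⟩
   [⟨2, 6, 2, 2, 0⟩, ⟨1, 1, 1, 1, 1⟩, ⟨1, 2, 1, 1, 0⟩, ⟨2, 4, 1, 0, 2⟩, ⟨0, -1, -1, 0, 1⟩,
    ⟨1, 1, 0, 1, 1⟩, ⟨-2, -4, -1, 0, 0⟩, ⟨1, 3, 1, 1, 0⟩, ⟨1, 2, 1, 0, 1⟩]
   952652540611409847095676)
  (.leaf ⟨3, 3, 1, 2, 2⟩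
   [⟨2, 2, 2, 6, 0⟩, ⟨1, 0, 1, 1, 1⟩, ⟨1, 0, 1, 2, 0⟩, ⟨2, 2, 1, 4, 2⟩, ⟨0, 0, -1, -1, 1⟩,
    ⟨1, 0, 0, 1, 1⟩, ⟨-2, -2, -1, -4, 0⟩, ⟨1, 2, 1, 3, 0⟩, ⟨1, 2, 1, 2, 1⟩]
   952652540611409847095676))
  (.node 1 4 1 1
  (.leaf ⟨3, 2, 3, 1, 2⟩
   [⟨2, 2, 1, 2, 0⟩, ⟨1, 1, 1, 1, 1⟩, ⟨1, 0, 1, 1, 0⟩, ⟨1, 4, 1, 1, 2⟩, ⟨1, 1, -1, -1, 1⟩,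
    ⟨1, 1, -1, 0, 1⟩, ⟨-2, -2, -1, -1, 0⟩, ⟨1, 1, 1, 1, 0⟩, ⟨1, 2, 1, 1, 1⟩]
   952652540611409847095676)
  (.leaf ⟨3, 3, 3, 1, 2⟩
   [⟨2, 2, 1, 2, 2⟩, ⟨1, 0, 1, 1, 1⟩, ⟨1, 0, 1, 1, 0⟩, ⟨1, 2, 1, 1, 4⟩, ⟨1, 0, -1, -1, 1⟩,
    ⟨1, 0, -1, 0, 1⟩, ⟨-2, -2, -1, -1, -2⟩, ⟨1, 2, 1, 1, 1⟩, ⟨1, 2, 1, 1, 2⟩]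
   952652540611409847095676)))))

theorem chk6 : chk T6 R6 = true := by decide +kernel

end Pool.Agent.Lib.MP_453ac3_co.UB.CertJ
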