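import Pool.Agent.Lib.MP_453ac3_co.UB.Cert1
import Pool.Agent.Lib.MP_453ac3_co.UB.Cert2
import Pool.Agent.Lib.MP_453ac3_co.UB.Cert3

/-! Symmetry reduction and covering by the root cones. -/

namespace Pool.Agent.Lib.MP_453ac3_co.UB

namespace CertJ

theorem cert_sym (gh : Fin 5 → Fin 5) (gc : Fin 9 → Fin 9) (fl : Fin 9 → Bool)
    (h1 : ∀ c s, tok (gc c) (xor s (fl c)) = gh (tok c s))
    (h2 : ∀ e f, hard (gc e) (gc f) → hard e f ∧ fl e = false ∧ fl f = false)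
    (h3 : ∀ e f, tf (gc e) (gc f) → tf e f) (h4 : Function.Bijective gc)
    (h5 : ∀ a, ∃ a', gc (tc a) = tc a') {v : Fin 5 → Fin 5 → ℚ} (hv : ∀ P Q, v P Q = v Q P)
    (h6 : ∀ π : Fin 9 → ℚ, π (gc 6) + π (gc 7) + π (gc 8) = π 6 + π 7 + π 8)
    (h7 : v (gh 0) (gh 0) + v (gh 1) (gh 1) = v 0 0 + v 1 1) (h : Cert v) :
    Cert fun P Q => v (gh P) (gh Q) := by
  obtain ⟨π, μ, hL, k1, k2, k3⟩ := h
  have hs : ∑ c, π (gc c) = ∑ c, π c := h4.sum_comp π
  have hu : ∀ d x, uu (fun P Q => v (gh P) (gh Q)) d x = uu v (gc d) (gh x) := by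
    intro d x
    simp only [uu, ← h1]
    cases fl d <;> simp [add_comm]
  have hi : ∀ e f, idl (fun P Q => v (gh P) (gh Q))
      (fun e f => xor (xor (μ (gc e) (gc f)) (fl e)) (fl f)) e f = idl v μ (gc e) (gc f) := by
    intro e f
    simp only [idl, ← h1]
    cases fl e <;> cases fl f <;> simp [add_comm]
  have ht : ∀ c s, gh (tok c (xor s (fl c))) = tok (gc c) s := by
    intro c s
    rw [← h1]
    simp
  have ht' : ∀ c s, gh (tok c (!xor s (fl c))) = tok (gc c) (!s) := by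
    intro c s
    rw [← h1]
    cases fl c <;> simp
  refine ⟨fun c => π (gc c), fun e f => xor (xor (μ (gc e) (gc f)) (fl e)) (fl f),
    ⟨fun c => ?_, fun e f => ?_, fun e f hef d g => ?_⟩, ?_, ?_, fun a => ?_⟩
  · have := hL.loop (gc c)
    simp only [← h1]
    cases fl c
    · simpa using this
    · rw [hv, add_comm (v _ _)] at this
      simpa using this
  · rw [hi]
    exact hL.pair _ _
  · have hef' : ¬ ((hard (gc e) (gc f) ∧ μ (gc e) (gc f) = true) ∨ tf (gc e) (gc f)) := by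
      rintro (⟨k, k'⟩ | k)
      · obtain ⟨j1, j2, j3⟩ := h2 e f k
        exact hef (Or.inl ⟨j1, by simp [j2, j3, k']⟩)
      · exact hef (Or.inr (h3 e f k))
    simp only [hu, hi]
    rcases hL.soft _ _ hef' (gc d) (gc g) with ⟨s, hs⟩ | ⟨t, hs⟩ | ⟨s, t, hs⟩
    · exact Or.inl ⟨xor s (fl e), by rwa [ht, ht']⟩
    · exact Or.inr (Or.inl ⟨xor t (fl f), by rwa [ht, ht']⟩)
    · exact Or.inr (Or.inr ⟨xor s (fl e), xor t (fl f), by rwa [ht, ht', ht, ht']⟩)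
  · rw [hs, h7]
    exact k1
  · rw [hs, h7, h6]
    exact k2
  · obtain ⟨a', ha⟩ := h5 a
    simp only [ha, h7]
    exact k3 a'

theorem vv_symm (a b t : Fin 3 → ℚ) (n : ℚ) (P Q : Fin 5) : vv a b t n P Q = vv a b t n Q P := by
  fin_cases P <;> fin_cases Q <;> rfl

/-- The statement for a given special colour. -/
def PP (a b : Fin 3 → ℚ) (st : Fin 3) : Prop :=
  ∀ n : ℚ, n ≤ a st → n ≤ b st →
    Cert (vv a b (fun l => if l = st then a st + b st - max n 0 else max (a l) (b l)) n)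

theorem pp_swap {a b : Fin 3 → ℚ} {st : Fin 3} (h : PP a b st) : PP b a st := by
  intro n h1 h2
  have := cert_sym ![1, 0, 2, 3, 4] ![3, 4, 5, 0, 1, 2, 6, 7, 8] (fun _ => false) (by decide)
    (by decide) (by decide) (by decide) (by decide) (vv_symm _ _ _ _) (fun _ => rfl)
    (add_comm _ _) (h n h2 h1)
  refine (congrArg Cert ?_).mp this
  funext P Q
  fin_cases P <;> fin_cases Q <;> simp [vv, add_comm, max_comm]

theorem pp_perm (ρ : Fin 3 → Fin 3) (gh : Fin 5 → Fin 5) (gc : Fin 9 → Fin 9)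
    (h0 : ∀ i, ρ (ρ i) = i)
    (h1 : ∀ c s, tok (gc c) (xor s (decide (6 ≤ c.val))) = gh (tok c s))
    (h2 : ∀ e f, hard (gc e) (gc f) →
      hard e f ∧ decide (6 ≤ e.val) = false ∧ decide (6 ≤ f.val) = false)
    (h3 : ∀ e f, tf (gc e) (gc f) → tf e f) (h4 : Function.Bijective gc)
    (h5 : ∀ a, ∃ a', gc (tc a) = tc a')
    (h6 : ∀ π : Fin 9 → ℚ, π (gc 6) + π (gc 7) + π (gc 8) = π 6 + π 7 + π 8)
    (h7 : gh 0 = 0 ∧ gh 1 = 1)
    (h8 : ∀ (a b t : Fin 3 → ℚ) n P Q,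
      vv (a ∘ ρ) (b ∘ ρ) (t ∘ ρ) n (gh P) (gh Q) = vv a b t n P Q)
    {a b : Fin 3 → ℚ} (h : ∃ st, PP (a ∘ ρ) (b ∘ ρ) st) : ∃ st, PP a b st := by
  obtain ⟨st, h⟩ := h
  refine ⟨ρ st, fun n k1 k2 => ?_⟩
  have := cert_sym gh gc _ h1 h2 h3 h4 h5 (vv_symm _ _ _ _) h6 (by rw [h7.1, h7.2]) (h n k1 k2)
  refine (congrArg Cert ?_).mp this
  funext P Q
  rw [← h8 a b]
  congr 1
  funext l
  have : ρ l = ρ st ↔ l = st := ⟨fun e => by rw [← h0 l, e, h0], fun e => by rw [e]⟩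
  simp [this]

theorem pp01 {a b : Fin 3 → ℚ} (h : ∃ st, PP (a ∘ ![1, 0, 2]) (b ∘ ![1, 0, 2]) st) :
    ∃ st, PP a b st := by
  refine pp_perm _ ![0, 1, 3, 2, 4] ![1, 0, 2, 4, 3, 5, 7, 6, 8] (by decide) (by decide)
    (by decide) (by decide) (by decide) (by decide) (fun π => ?_) (by decide) ?_ h
  · show π 7 + π 6 + π 8 = _
    ring
  · intro a b t n P Q
    fin_cases P <;> fin_cases Q <;> simp [vv] <;> ring

theorem pp12 {a b : Fin 3 → ℚ} (h : ∃ st, PP (a ∘ ![0, 2, 1]) (b ∘ ![0, 2, 1]) st) :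
    ∃ st, PP a b st := by
  refine pp_perm _ ![0, 1, 2, 4, 3] ![0, 2, 1, 3, 5, 4, 6, 8, 7] (by decide) (by decide)
    (by decide) (by decide) (by decide) (by decide) (fun π => ?_) (by decide) ?_ h
  · show π 6 + π 8 + π 7 = _
    ring
  · intro a b t n P Q
    fin_cases P <;> fin_cases Q <;> simp [vv] <;> ring

theorem pp02 {a b : Fin 3 → ℚ} (h : ∃ st, PP (a ∘ ![2, 1, 0]) (b ∘ ![2, 1, 0]) st) :
    ∃ st, PP a b st := by
  refine pp_perm _ ![0, 1, 4, 3, 2] ![2, 1, 0, 5, 4, 3, 8, 7, 6] (by decide) (by decide)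
    (by decide) (by decide) (by decide) (by decide) (fun π => ?_) (by decide) ?_ h
  · show π 8 + π 7 + π 6 = _
    ring
  · intro a b t n P Q
    fin_cases P <;> fin_cases Q <;> simp [vv] <;> ring

theorem root {T : Tr} {R : Par V5} (h : chk T R = true) (c0 c1 c2 c3 c4 : ℚ) (h0 : 0 ≤ c0)
    (h1 : 0 ≤ c1) (h2 : 0 ≤ c2) (h3 : 0 ≤ c3) (h4 : 0 ≤ c4) {a b t : Fin 3 → ℚ} {n : ℚ}
    (e : R.map (ev ![c0, c1, c2, c3, c4]) = ⟨a 0, a 1, a 2, b 0, b 1, b 2, t 0, t 1, t 2, n⟩) :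
    Cert (vv a b t n) := by
  have := cert_of_chk T R h ![c0, c1, c2, c3, c4] (by
    intro i
    fin_cases i <;> assumption)
  rw [e] at this
  have k : ∀ g : Fin 3 → ℚ, v3 (g 0) (g 1) (g 2) = g := by
    intro g
    funext l
    fin_cases l <;> rfl
  simpa only [Par.val, k] using this

theorem canon11 {a b : Fin 3 → ℚ} (ha : 0 ≤ a 2) (hb : 0 ≤ b 2) (h1 : a 1 = 0) (h2 : b 1 = 0)
    (h3 : b 0 ≤ a 0) (h4 : min (a 2) (b 2) ≤ b 0) : PP a b 0 := by
  intro n _ k2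
  rcases le_total (b 2) (a 2) with h | h
  · rw [min_eq_right h] at h4
    rcases le_total n 0 with k | k
    · refine root chk2 (b 2) (b 0 - b 2) (a 0 - b 0) (a 2 - b 2) (-n) hb (by linarith)
        (by linarith) (by linarith) (by linarith) ?_
      simp [R2, Par.map, ev, h1, h2, h, k]
      ring
    · rcases le_total n (b 2) with j | j
      · refine root chk1 n (b 2 - n) (b 0 - b 2) (a 0 - b 0) (a 2 - b 2) k (by linarith)
          (by linarith) (by linarith) (by linarith) ?_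
        simp [R1, Par.map, ev, h1, h2, h, k]
        ring
      · refine root chk0 (b 2) (n - b 2) (b 0 - n) (a 0 - b 0) (a 2 - b 2) hb (by linarith)
          (by linarith) (by linarith) (by linarith) ?_
        simp [R0, Par.map, ev, h1, h2, h, k]
        ring
  · rw [min_eq_left h] at h4
    rcases le_total n 0 with k | k
    · refine root chk5 (a 2) (b 0 - a 2) (a 0 - b 0) (b 2 - a 2) (-n) ha (by linarith)
        (by linarith) (by linarith) (by linarith) ?_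
      simp [R5, Par.map, ev, h1, h2, h, k]
      ring
    · rcases le_total n (a 2) with j | j
      · refine root chk4 n (a 2 - n) (b 0 - a 2) (a 0 - b 0) (b 2 - a 2) k (by linarith)
          (by linarith) (by linarith) (by linarith) ?_
        simp [R4, Par.map, ev, h1, h2, h, k]
        ring
      · refine root chk3 (a 2) (n - a 2) (b 0 - n) (a 0 - b 0) (b 2 - a 2) ha (by linarith)
          (by linarith) (by linarith) (by linarith) ?_
        simp [R3, Par.map, ev, h1, h2, h, k]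
        ring

theorem canon12 {a b : Fin 3 → ℚ} (ha : 0 ≤ a 2) (hb : 0 ≤ b 1) (hb0 : 0 ≤ b 0) (h1 : a 1 = 0)
    (h2 : b 2 = 0) (h3 : b 0 ≤ a 0) : PP a b 0 := by
  intro n _ k2
  rcases le_total n 0 with k | k
  · refine root chk7 (b 0) (a 0 - b 0) (a 2) (b 1) (-n) hb0 (by linarith) ha hb (by linarith) ?_
    simp [R7, Par.map, ev, h1, h2, k, ha, hb]
    ring
  · refine root chk6 n (b 0 - n) (a 0 - b 0) (a 2) (b 1) k (by linarith) (by linarith) ha hb ?_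
    simp [R6, Par.map, ev, h1, h2, k, ha, hb]
    ring

theorem q11' {a b : Fin 3 → ℚ} (ha : ∀ l, 0 ≤ a l) (hb : ∀ l, 0 ≤ b l) (h1 : a 1 = 0)
    (h2 : b 1 = 0) (h4 : min (a 2) (b 2) ≤ min (a 0) (b 0)) : ∃ st, PP a b st := by
  rcases le_total (b 0) (a 0) with h | h
  · exact ⟨0, canon11 (ha 2) (hb 2) h1 h2 h (h4.trans (min_le_right _ _))⟩
  · exact ⟨0, pp_swap (canon11 (hb 2) (ha 2) h2 h1 h
      ((min_comm _ _).le.trans (h4.trans (min_le_left _ _))))⟩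

theorem q11 {a b : Fin 3 → ℚ} (ha : ∀ l, 0 ≤ a l) (hb : ∀ l, 0 ≤ b l) (h1 : a 1 = 0)
    (h2 : b 1 = 0) : ∃ st, PP a b st := by
  rcases le_total (min (a 2) (b 2)) (min (a 0) (b 0)) with h | h
  · exact q11' ha hb h1 h2 h
  · exact pp02 (q11' (fun _ => ha _) (fun _ => hb _) h1 h2 h)

theorem q12 {a b : Fin 3 → ℚ} (ha : ∀ l, 0 ≤ a l) (hb : ∀ l, 0 ≤ b l) (h1 : a 1 = 0)
    (h2 : b 2 = 0) : ∃ st, PP a b st := by
  rcases le_total (b 0) (a 0) with h | h
  · exact ⟨0, canon12 (ha 2) (hb 1) (hb 0) h1 h2 h⟩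
  · exact pp12 ⟨0, pp_swap (canon12 (hb 1) (ha 2) (ha 0) h2 h1 h)⟩

theorem q10 {a b : Fin 3 → ℚ} (ha : ∀ l, 0 ≤ a l) (hb : ∀ l, 0 ≤ b l) (h1 : a 1 = 0)
    (h2 : b 0 = 0) : ∃ st, PP a b st :=
  pp02 (q12 (fun _ => ha _) (fun _ => hb _) h1 h2)

end CertJ

open CertJ in
theorem reg : RegStmt := by
  rintro a b ha hb ⟨i, hi⟩ ⟨j, hj⟩
  show ∃ st, PP a b st
  fin_cases i <;> fin_cases j
  · exact pp01 (q11 (fun _ => ha _) (fun _ => hb _) hi hj)
  · exact pp01 (q10 (fun _ => ha _) (fun _ => hb _) hi hj)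
  · exact pp01 (q12 (fun _ => ha _) (fun _ => hb _) hi hj)
  · exact q10 ha hb hi hj
  · exact q11 ha hb hi hj
  · exact q12 ha hb hi hj
  · exact pp12 (q10 (fun _ => ha _) (fun _ => hb _) hi hj)
  · exact pp12 (q12 (fun _ => ha _) (fun _ => hb _) hi hj)
  · exact pp12 (q11 (fun _ => ha _) (fun _ => hb _) hi hj)

end Pool.Agent.Lib.MP_453ac3_co.UB
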