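import Pool.Agent.Lib.MP_453ac3_co.UB.St

/-! A checker for the local system on simplicial cones with five integer rays. -/

namespace Pool.Agent.Lib.MP_453ac3_co.UB.CertJ

/-- Values on the five rays. -/
structure V5 where
  x0 : ℤ
  x1 : ℤ
  x2 : ℤ
  x3 : ℤ
  x4 : ℤ

instance : Add V5 := ⟨fun a b => ⟨a.x0 + b.x0, a.x1 + b.x1, a.x2 + b.x2, a.x3 + b.x3, a.x4 + b.x4⟩⟩

instance : Zero V5 := ⟨⟨0, 0, 0, 0, 0⟩⟩

instance : LE V5 :=
  ⟨fun a b => a.x0 ≤ b.x0 ∧ a.x1 ≤ b.x1 ∧ a.x2 ≤ b.x2 ∧ a.x3 ≤ b.x3 ∧ a.x4 ≤ b.x4⟩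

/-- Comparison on all rays. -/
def ble (a b : V5) : Bool :=
  decide (a.x0 ≤ b.x0) && (decide (a.x1 ≤ b.x1) && (decide (a.x2 ≤ b.x2) &&
    (decide (a.x3 ≤ b.x3) && decide (a.x4 ≤ b.x4))))

theorem le_of_ble {a b : V5} (h : ble a b = true) : a ≤ b := by
  have : a.x0 ≤ b.x0 ∧ a.x1 ≤ b.x1 ∧ a.x2 ≤ b.x2 ∧ a.x3 ≤ b.x3 ∧ a.x4 ≤ b.x4 := by
    simpa [ble] using h
  exact this

/-- Multiplication by an integer. -/
def sm (k : ℤ) (a : V5) : V5 := ⟨k * a.x0, k * a.x1, k * a.x2, k * a.x3, k * a.x4⟩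

/-- Rescaling of the rays. -/
def sc (q a : V5) : V5 := ⟨q.x0 * a.x0, q.x1 * a.x1, q.x2 * a.x2, q.x3 * a.x3, q.x4 * a.x4⟩

/-- Value on one ray. -/
def get (a : V5) : Fin 5 → ℤ
  | 0 => a.x0
  | 1 => a.x1
  | 2 => a.x2
  | 3 => a.x3
  | 4 => a.x4

/-- Replace the value on one ray. -/
def set (a : V5) (i : Fin 5) (x : ℤ) : V5 :=
  match i with
  | 0 => { a with x0 := x }
  | 1 => { a with x1 := x }
  | 2 => { a with x2 := x }
  | 3 => { a with x3 := x }
  | 4 => { a with x4 := x }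

/-- Value at the point with coordinates `c`. -/
def ev (c : Fin 5 → ℚ) (a : V5) : ℚ :=
  c 0 * a.x0 + c 1 * a.x1 + c 2 * a.x2 + c 3 * a.x3 + c 4 * a.x4

theorem ev_add (c : Fin 5 → ℚ) (a b : V5) : ev c (a + b) = ev c a + ev c b := by
  show ev c ⟨a.x0 + b.x0, a.x1 + b.x1, a.x2 + b.x2, a.x3 + b.x3, a.x4 + b.x4⟩ = _
  simp only [ev]
  push_cast
  ring

theorem ev_zero (c : Fin 5 → ℚ) : ev c 0 = 0 := by
  show ev c ⟨0, 0, 0, 0, 0⟩ = _
  simp [ev]

theorem ev_sm (c : Fin 5 → ℚ) (k : ℤ) (a : V5) : ev c (sm k a) = k * ev c a := by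
  simp only [ev, sm]
  push_cast
  ring

theorem ev_mono {c : Fin 5 → ℚ} (hc : ∀ i, 0 ≤ c i) {a b : V5} (h : a ≤ b) :
    ev c a ≤ ev c b := by
  obtain ⟨h0, h1, h2, h3, h4⟩ := h
  have k0 := mul_le_mul_of_nonneg_left (Int.cast_le (R := ℚ) |>.2 h0) (hc 0)
  have k1 := mul_le_mul_of_nonneg_left (Int.cast_le (R := ℚ) |>.2 h1) (hc 1)
  have k2 := mul_le_mul_of_nonneg_left (Int.cast_le (R := ℚ) |>.2 h2) (hc 2)
  have k3 := mul_le_mul_of_nonneg_left (Int.cast_le (R := ℚ) |>.2 h3) (hc 3)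
  have k4 := mul_le_mul_of_nonneg_left (Int.cast_le (R := ℚ) |>.2 h4) (hc 4)
  simp only [ev]
  linarith

theorem loc_map {c : Fin 5 → ℚ} (hc : ∀ i, 0 ≤ c i) {v : Fin 5 → Fin 5 → V5} {π : Fin 9 → V5}
    {μ : Fin 9 → Fin 9 → Bool} (h : Loc v π μ) :
    Loc (fun P Q => ev c (v P Q)) (fun k => ev c (π k)) μ := by
  refine ⟨fun k => ?_, fun e f => ?_, fun e f hef d g => ?_⟩
  · simpa only [ev_add] using ev_mono hc (h.loop k)
  · simpa only [ev_add, idl] using ev_mono hc (h.pair e f)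
  · rcases h.soft e f hef d g with ⟨s, hs⟩ | ⟨t, hs⟩ | ⟨s, t, hs⟩
    · exact Or.inl ⟨s, by simpa only [ev_add, idl, uu] using ev_mono hc hs⟩
    · exact Or.inr (Or.inl ⟨t, by simpa only [ev_add, idl, uu] using ev_mono hc hs⟩)
    · exact Or.inr (Or.inr ⟨s, t, by simpa only [ev_add, idl, uu] using ev_mono hc hs⟩)

/-- All classes. -/
def l9 : List (Fin 9) := [0, 1, 2, 3, 4, 5, 6, 7, 8]

theorem mem_l9 (k : Fin 9) : k ∈ l9 := by revert k; decide

/-- Packing of the five values into one integer. -/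
def pk (w : V5) : ℤ :=
  w.x0 + 65536 * w.x1 + 4294967296 * w.x2 + 281474976710656 * w.x3 +
    18446744073709551616 * w.x4

/-- The natural number `n` packs `w`, whose entries lie in `[0, k]`. -/
def Rep (k n : ℕ) (w : V5) : Prop :=
  (n : ℤ) = pk w ∧ (0 : V5) ≤ w ∧ w ≤ ⟨k, k, k, k, k⟩

theorem Rep.add {k k' n n' : ℕ} {w w' : V5} (h : Rep k n w) (h' : Rep k' n' w') :
    Rep (k + k') (Nat.add n n') (w + w') := by
  obtain ⟨h0, ⟨a0, a1, a2, a3, a4⟩, b0, b1, b2, b3, b4⟩ := h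
  obtain ⟨h1, ⟨c0, c1, c2, c3, c4⟩, d0, d1, d2, d3, d4⟩ := h'
  change (0 : ℤ) ≤ _ at a0 a1 a2 a3 a4 c0 c1 c2 c3 c4
  dsimp only at b0 b1 b2 b3 b4 d0 d1 d2 d3 d4
  refine ⟨?_, ⟨?_, ?_, ?_, ?_, ?_⟩, ?_, ?_, ?_, ?_, ?_⟩
  · show ((n + n' : ℕ) : ℤ) =
      pk ⟨w.x0 + w'.x0, w.x1 + w'.x1, w.x2 + w'.x2, w.x3 + w'.x3, w.x4 + w'.x4⟩
    simp only [pk] at *
    omega
  · show (0 : ℤ) ≤ w.x0 + w'.x0
    omega
  · show (0 : ℤ) ≤ w.x1 + w'.x1
    omega
  · show (0 : ℤ) ≤ w.x2 + w'.x2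
    omega
  · show (0 : ℤ) ≤ w.x3 + w'.x3
    omega
  · show (0 : ℤ) ≤ w.x4 + w'.x4
    omega
  · show w.x0 + w'.x0 ≤ ((k + k' : ℕ) : ℤ)
    omega
  · show w.x1 + w'.x1 ≤ ((k + k' : ℕ) : ℤ)
    omega
  · show w.x2 + w'.x2 ≤ ((k + k' : ℕ) : ℤ)
    omega
  · show w.x3 + w'.x3 ≤ ((k + k' : ℕ) : ℤ)
    omega
  · show w.x4 + w'.x4 ≤ ((k + k' : ℕ) : ℤ)
    omega

/-- Comparison of packed values. -/
def bp (l a : ℕ) : Bool :=
  Nat.beq (Nat.land (Nat.sub (Nat.add a 604472133320091078000640) l) 604472133320091078000640)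
    604472133320091078000640

theorem le_of_bp {k k' l a : ℕ} {L A : V5} (hL : Rep k l L) (hA : Rep k' a A) (hk : k ≤ 30000)
    (hk' : k' ≤ 30000) (h : bp l a = true) : L ≤ A := by
  obtain ⟨h0, ⟨a0, a1, a2, a3, a4⟩, b0, b1, b2, b3, b4⟩ := hL
  obtain ⟨h1, ⟨c0, c1, c2, c3, c4⟩, d0, d1, d2, d3, d4⟩ := hA
  change (0 : ℤ) ≤ _ at a0 a1 a2 a3 a4 c0 c1 c2 c3 c4
  dsimp only at b0 b1 b2 b3 b4 d0 d1 d2 d3 d4
  have e : (a + 604472133320091078000640 - l) &&& 604472133320091078000640 =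
      604472133320091078000640 := Nat.eq_of_beq_eq_true h
  have key : ∀ i, Nat.testBit 604472133320091078000640 i = true →
      (a + 604472133320091078000640 - l) / 2 ^ i % 2 = 1 := by
    intro i hi
    have := congrArg (fun x => Nat.testBit x i) e
    simp only [Nat.testBit_and, hi, Bool.and_true] at this
    simpa [Nat.testBit_eq_decide_div_mod_eq] using this
  have k0 := key 15 (by decide)
  have k1 := key 31 (by decide)
  have k2 := key 47 (by decide)
  have k3 := key 63 (by decide)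
  have k4 := key 79 (by decide)
  simp only [pk] at h0 h1
  generalize hD : a + 604472133320091078000640 - l = D at k0 k1 k2 k3 k4
  have hD' : (D : ℤ) = (A.x0 + 32768 - L.x0) + 65536 * (A.x1 + 32768 - L.x1) +
      4294967296 * (A.x2 + 32768 - L.x2) + 281474976710656 * (A.x3 + 32768 - L.x3) +
      18446744073709551616 * (A.x4 + 32768 - L.x4) := by omega
  clear hD h0 h1 e key h
  refine ⟨?_, ?_, ?_, ?_, ?_⟩
  · clear k1 k2 k3 k4
    omega
  · clear k0 k2 k3 k4
    omega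
  · clear k0 k1 k3 k4
    omega
  · clear k0 k1 k2 k4
    omega
  · clear k0 k1 k2 k3
    omega

/-- Packed form of `uu`. -/
def uuN (v : Fin 5 → Fin 5 → ℕ) (d : Fin 9) (x : Fin 5) : ℕ :=
  Nat.add (v (tok d false) x) (v (tok d true) x)

/-- Packed form of `idl`. -/
def idlN (v : Fin 5 → Fin 5 → ℕ) (μ : Fin 9 → Fin 9 → Bool) (e f : Fin 9) : ℕ :=
  Nat.add (v (tok e false) (tok f (μ e f))) (v (tok e true) (tok f (!μ e f)))

/-- Twice a number. -/
def dbl (n : ℕ) : ℕ := Nat.add n n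

/-- The eight options. -/
def softB (v : Fin 5 → Fin 5 → ℕ) (μ : Fin 9 → Fin 9 → Bool) (e f d h : Fin 9) (L : ℕ) : Bool :=
  bp L (Nat.add (Nat.add (uuN v d (tok e false)) (dbl (v (tok e true) (tok f false))))
    (uuN v h (tok f true))) ||
  (bp L (Nat.add (Nat.add (uuN v d (tok e true)) (dbl (v (tok e false) (tok f true))))
    (uuN v h (tok f false))) ||
  (bp L (Nat.add (Nat.add (uuN v d (tok e false)) (uuN v f (tok e true))) (idlN v μ f h)) ||
  (bp L (Nat.add (Nat.add (uuN v d (tok e true)) (uuN v f (tok e false))) (idlN v μ f h)) ||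
  (bp L (Nat.add (Nat.add (idlN v μ d e) (uuN v e (tok f false))) (uuN v h (tok f true))) ||
  (bp L (Nat.add (Nat.add (idlN v μ d e) (uuN v e (tok f true))) (uuN v h (tok f false))) ||
  (bp L (Nat.add (Nat.add (uuN v d (tok e false)) (dbl (v (tok e true) (tok f true))))
    (uuN v h (tok f false))) ||
  bp L (Nat.add (Nat.add (uuN v d (tok e true)) (dbl (v (tok e false) (tok f false))))
    (uuN v h (tok f true)))))))))

/-- Check of the local system. -/
def locB (v : Fin 5 → Fin 5 → ℕ) (π : Fin 9 → ℕ) (μ : Fin 9 → Fin 9 → Bool) : Bool :=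
  (l9.all fun c => bp (Nat.add (π c) (v (tok c false) (tok c true)))
    (Nat.add (v (tok c false) (tok c false)) (v (tok c true) (tok c true)))) &&
  ((l9.all fun e => l9.all fun f => bp (Nat.add (π e) (π f)) (idlN v μ e f)) &&
  l9.all fun e => l9.all fun f => decide ((hard e f ∧ μ e f = true) ∨ tf e f) ||
    l9.all fun d => l9.all fun h => softB v μ e f d h
      (Nat.add (Nat.add (π d) (Nat.add (dbl (π e)) (dbl (π f)))) (π h)))

theorem loc_of_locB {vN : Fin 5 → Fin 5 → ℕ} {πN : Fin 9 → ℕ} {v : Fin 5 → Fin 5 → V5}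
    {π : Fin 9 → V5} {μ : Fin 9 → Fin 9 → Bool} (hv : ∀ P Q, Rep 1000 (vN P Q) (v P Q))
    (hπ : ∀ k, Rep 1000 (πN k) (π k)) (h : locB vN πN μ = true) : Loc v π μ := by
  simp only [locB, Bool.and_eq_true, List.all_eq_true, Bool.or_eq_true, decide_eq_true_eq] at h
  obtain ⟨h1, h2, h3⟩ := h
  have hu : ∀ d x, Rep (1000 + 1000) (uuN vN d x) (uu v d x) := fun d x => (hv _ _).add (hv _ _)
  have hi : ∀ e f, Rep (1000 + 1000) (idlN vN μ e f) (idl v μ e f) :=
    fun e f => (hv _ _).add (hv _ _)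
  have hd : ∀ P Q, Rep (1000 + 1000) (dbl (vN P Q)) (v P Q + v P Q) :=
    fun P Q => (hv _ _).add (hv _ _)
  refine ⟨fun k => le_of_bp ((hπ _).add (hv _ _)) ((hv _ _).add (hv _ _)) (by norm_num)
      (by norm_num) (h1 k (mem_l9 k)),
    fun e f => le_of_bp ((hπ _).add (hπ _)) (hi _ _) (by norm_num) (by norm_num)
      (h2 e (mem_l9 e) f (mem_l9 f)), fun e f hef d g => ?_⟩
  have := (h3 e (mem_l9 e) f (mem_l9 f)).resolve_left hef d (mem_l9 d) g (mem_l9 g)
  simp only [softB, Bool.or_eq_true] at this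
  have hL := ((hπ d).add (((hπ e).add (hπ e)).add ((hπ f).add (hπ f)))).add (hπ g)
  rcases this with k | k | k | k | k | k | k | k
  · exact Or.inr (Or.inr ⟨false, false, le_of_bp hL (((hu _ _).add (hd _ _)).add (hu _ _))
      (by norm_num) (by norm_num) k⟩)
  · exact Or.inr (Or.inr ⟨true, true, le_of_bp hL (((hu _ _).add (hd _ _)).add (hu _ _))
      (by norm_num) (by norm_num) k⟩)
  · exact Or.inl ⟨false, le_of_bp hL (((hu _ _).add (hu _ _)).add (hi _ _))
      (by norm_num) (by norm_num) k⟩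
  · exact Or.inl ⟨true, le_of_bp hL (((hu _ _).add (hu _ _)).add (hi _ _))
      (by norm_num) (by norm_num) k⟩
  · exact Or.inr (Or.inl ⟨false, le_of_bp hL (((hi _ _).add (hu _ _)).add (hu _ _))
      (by norm_num) (by norm_num) k⟩)
  · exact Or.inr (Or.inl ⟨true, le_of_bp hL (((hi _ _).add (hu _ _)).add (hu _ _))
      (by norm_num) (by norm_num) k⟩)
  · exact Or.inr (Or.inr ⟨false, true, le_of_bp hL (((hu _ _).add (hd _ _)).add (hu _ _))
      (by norm_num) (by norm_num) k⟩)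
  · exact Or.inr (Or.inr ⟨true, false, le_of_bp hL (((hu _ _).add (hd _ _)).add (hu _ _))
      (by norm_num) (by norm_num) k⟩)

theorem loc_shift {v : Fin 5 → Fin 5 → ℚ} {π : Fin 9 → ℚ} {μ : Fin 9 → Fin 9 → Bool} (C : ℚ)
    (h : Loc (fun P Q => v P Q + C) (fun k => π k + C) μ) : Loc v π μ := by
  refine ⟨fun k => ?_, fun e f => ?_, fun e f hef d g => ?_⟩
  · have := h.loop k
    linarith
  · have := h.pair e f
    simp only [idl] at this ⊢
    linarith
  · rcases h.soft e f hef d g with ⟨s, hs⟩ | ⟨t, hs⟩ | ⟨s, t, hs⟩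
    · refine Or.inl ⟨s, ?_⟩
      simp only [idl, uu] at hs ⊢
      linarith
    · refine Or.inr (Or.inl ⟨t, ?_⟩)
      simp only [idl, uu] at hs ⊢
      linarith
    · refine Or.inr (Or.inr ⟨s, t, ?_⟩)
      simp only [idl, uu] at hs ⊢
      linarith

/-- The shift making all entries nonnegative. -/
def off : V5 := ⟨500, 500, 500, 500, 500⟩

/-- Range check. -/
def rng (w : V5) : Bool := ble 0 (w + off) && ble (w + off) ⟨1000, 1000, 1000, 1000, 1000⟩

theorem rep_of_rng {w : V5} (h : rng w = true) : Rep 1000 (pk (w + off)).toNat (w + off) := by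
  simp only [rng, Bool.and_eq_true] at h
  refine ⟨Int.toNat_of_nonneg ?_, le_of_ble h.1, le_of_ble h.2⟩
  obtain ⟨a0, a1, a2, a3, a4⟩ := le_of_ble h.1
  change (0 : ℤ) ≤ _ at a0 a1 a2 a3 a4
  simp only [pk]
  omega

/-- All hubs. -/
def l5 : List (Fin 5) := [0, 1, 2, 3, 4]

theorem mem_l5 (k : Fin 5) : k ∈ l5 := by revert k; decide

/-- The ten parameters. -/
structure Par (R : Type) where
  a0 : R
  a1 : R
  a2 : R
  b0 : R
  b1 : R
  b2 : R
  t0 : R
  t1 : R
  t2 : R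
  n : R

/-- Apply a map to all parameters. -/
def Par.map {R S : Type} (g : R → S) (X : Par R) : Par S :=
  ⟨g X.a0, g X.a1, g X.a2, g X.b0, g X.b1, g X.b2, g X.t0, g X.t1, g X.t2, g X.n⟩

/-- A function on three colours. -/
def v3 {R : Type} (x y z : R) : Fin 3 → R
  | 0 => x
  | 1 => y
  | 2 => z

/-- The value table of the parameters. -/
def Par.val {R : Type} [Add R] [Zero R] (X : Par R) : Fin 5 → Fin 5 → R :=
  vv (v3 X.a0 X.a1 X.a2) (v3 X.b0 X.b1 X.b2) (v3 X.t0 X.t1 X.t2) X.n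

theorem val_map (c : Fin 5 → ℚ) (X : Par V5) :
    (X.map (ev c)).val = fun P Q => ev c (X.val P Q) := by
  funext P Q
  fin_cases P <;> fin_cases Q <;> simp [Par.val, Par.map, vv, v3, ev_add, ev_zero]

/-- Check at a leaf. -/
def leafB (X : Par V5) (p : List V5) (μ : ℕ) : Bool :=
  let π : Fin 9 → V5 := fun k => p.getD k.val 0
  let S := X.val 0 0 + X.val 1 1
  let T := π 0 + π 1 + π 2 + π 3 + π 4 + π 5 + π 6 + π 7 + π 8
  ble S T && (ble (sm 51 S) (sm 50 (T + (π 6 + π 7 + π 8))) &&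
    (ble (sm (-2) S) (π 6) && (ble (sm (-2) S) (π 7) && (ble (sm (-2) S) (π 8) &&
      ((l5.all fun P => l5.all fun Q => rng (X.val P Q)) && ((l9.all fun k => rng (π k)) &&
      locB (fun P Q => (pk (X.val P Q + off)).toNat) (fun k => (pk (π k + off)).toNat)
        fun e f => μ.testBit (9 * e.val + f.val)))))))

theorem cert_of_leafB {X : Par V5} {p : List V5} {μ : ℕ} (h : leafB X p μ = true)
    {c : Fin 5 → ℚ} (hc : ∀ i, 0 ≤ c i) : Cert (X.map (ev c)).val := by
  simp only [leafB, Bool.and_eq_true, List.all_eq_true] at h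
  obtain ⟨h1, h2, h3, h4, h5, h6, h7, h8⟩ := h
  have h9 := loc_map hc (loc_of_locB (fun P Q => rep_of_rng (h6 P (mem_l5 P) Q (mem_l5 Q)))
    (fun k => rep_of_rng (h7 k (mem_l9 k))) h8)
  simp only [ev_add] at h9
  have k1 := ev_mono hc (le_of_ble h1)
  have k2 := ev_mono hc (le_of_ble h2)
  have k3 := ev_mono hc (le_of_ble h3)
  have k4 := ev_mono hc (le_of_ble h4)
  have k5 := ev_mono hc (le_of_ble h5)
  simp only [ev_add, ev_sm] at k1 k2 k3 k4 k5
  rw [val_map]
  have hs : ∀ g : Fin 9 → ℚ, ∑ k, g k = g 0 + g 1 + g 2 + g 3 + g 4 + g 5 + g 6 + g 7 + g 8 := by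
    intro g
    simp only [Fin.sum_univ_succ, Fin.sum_univ_zero]
    simp only [← add_assoc, add_zero]
    rfl
  refine ⟨_, _, loc_shift _ h9, ?_, ?_, fun a => ?_⟩
  · rw [hs]
    exact k1
  · rw [hs]
    exact_mod_cast k2
  · fin_cases a
    · exact_mod_cast k3
    · exact_mod_cast k4
    · exact_mod_cast k5

/-- Subdivision trees. -/
inductive Tr
  | leaf (q : V5) (p : List V5) (μ : ℕ)
  | node (i j : Fin 5) (α β : ℕ) (l r : Tr)

/-- The ray `k` is replaced by `α` times the ray `i` plus `β` times the ray `j`. -/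
def spl (k i j : Fin 5) (α β : ℕ) (a : V5) : V5 := set a k (α * get a i + β * get a j)

/-- Check of a tree. -/
def chk : Tr → Par V5 → Bool
  | .leaf q p μ, X => ble ⟨1, 1, 1, 1, 1⟩ q && leafB (X.map (sc q)) p μ
  | .node i j α β l r, X => decide (i ≠ j ∧ 0 < α ∧ 0 < β) &&
      (chk l (X.map (spl i i j α β)) && chk r (X.map (spl j i j α β)))

theorem ev_split (i j : Fin 5) (hij : i ≠ j) (α β : ℕ) (hα : 0 < α) (c : Fin 5 → ℚ) (a : V5) :
    ev (Function.update (Function.update c j (c j - β * c i / α)) i (c i / α))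
      (set a i (α * get a i + β * get a j)) = ev c a := by
  have : (α : ℚ) ≠ 0 := by positivity
  fin_cases i <;> fin_cases j <;> first
    | exact absurd rfl hij
    | (simp [ev, set, get, Function.update]
       field_simp
       ring)

theorem par_ext {X : Par V5} {g : V5 → V5} {c c' : Fin 5 → ℚ} (h : ∀ a, ev c' (g a) = ev c a) :
    (X.map g).map (ev c') = X.map (ev c) := by
  simp only [Par.map, h]

theorem cert_of_chk : ∀ (t : Tr) (X : Par V5), chk t X = true →
    ∀ c : Fin 5 → ℚ, (∀ i, 0 ≤ c i) → Cert (X.map (ev c)).val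
  | .leaf q p μ, X, h, c, hc => by
    simp only [chk, Bool.and_eq_true] at h
    obtain ⟨h0, h1, h2, h3, h4⟩ := le_of_ble h.1
    have hq : ∀ i, (0 : ℚ) < get q i := by
      intro i
      have : 0 < get q i := by fin_cases i <;> simp [get] at * <;> omega
      exact_mod_cast this
    have := cert_of_leafB h.2 (c := fun i => c i / get q i) fun i => div_nonneg (hc i) (hq i).le
    rwa [par_ext (c := c)] at this
    intro a
    have q0 := (hq 0).ne'
    have q1 := (hq 1).ne'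
    have q2 := (hq 2).ne'
    have q3 := (hq 3).ne'
    have q4 := (hq 4).ne'
    simp only [ev, sc, get] at *
    push_cast
    field_simp
  | .node i j α β l r, X, h, c, hc => by
    simp only [chk, Bool.and_eq_true, decide_eq_true_eq] at h
    obtain ⟨⟨hij, hα, hβ⟩, hl, hr⟩ := h
    have hα' : (0 : ℚ) < α := by positivity
    have hβ' : (0 : ℚ) < β := by positivity
    rcases le_total (β * c i) (α * c j) with hle | hle
    · have := cert_of_chk l _ hl
        (Function.update (Function.update c j (c j - β * c i / α)) i (c i / α)) (by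
          intro k
          simp only [Function.update]
          split_ifs
          · simpa using div_nonneg (hc i) hα'.le
          · simpa [div_le_iff₀ hα', mul_comm] using hle
          · exact hc k)
      rwa [par_ext (c := c) (g := spl i i j α β) (ev_split i j hij α β hα c)] at this
    · have := cert_of_chk r _ hr
        (Function.update (Function.update c i (c i - α * c j / β)) j (c j / β)) (by
          intro k
          simp only [Function.update]
          split_ifs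
          · simpa using div_nonneg (hc j) hβ'.le
          · simpa [div_le_iff₀ hβ', mul_comm] using hle
          · exact hc k)
      rwa [par_ext (c := c) (fun a => by
        rw [spl, add_comm]
        exact ev_split j i hij.symm β α hβ c a)] at this

end Pool.Agent.Lib.MP_453ac3_co.UB.CertJ
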