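import Pool.Agent.Lib.MP_453ac3_co.UB.Cert0

/-! Certificate data. -/

namespace Pool.Agent.Lib.MP_453ac3_co.UB.CertJ

/-- Rays of a root cone. -/
def R0 : Par V5 :=
  ⟨⟨1, 1, 1, 1, 0⟩, ⟨0, 0, 0, 0, 0⟩, ⟨1, 0, 0, 0, 1⟩, ⟨1, 1, 1, 0, 0⟩, ⟨0, 0, 0, 0, 0⟩, ⟨1, 0, 0, 0, 0⟩, ⟨1, 1, 2, 1, 0⟩, ⟨0, 0, 0, 0, 0⟩, ⟨1, 0, 0, 0, 1⟩, ⟨1, 1, 0, 0, 0⟩⟩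

/-- Subdivision of a root cone. -/
def T0 : Tr :=
  (.node 1 4 1 1
  (.node 2 4 1 1
  (.node 3 4 1 1
  (.node 2 4 1 1
  (.leaf ⟨2, 2, 3, 2, 3⟩
   [⟨2, 2, 4, 2, 1⟩, ⟨0, 1, 2, 1, 1⟩, ⟨2, 2, 2, 2, 1⟩, ⟨2, 0, 0, 0, -1⟩, ⟨0, -1, -2, -2, -1⟩,
    ⟨1, 1, 2, 0, 1⟩, ⟨0, 0, 0, 0, 1⟩, ⟨1, 1, 4, 1, 1⟩, ⟨0, 0, 0, 0, -1⟩]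
   952634238333828915843452)
  (.leaf ⟨2, 2, 6, 2, 3⟩
   [⟨2, 2, 8, 2, 4⟩, ⟨1, 1, 1, 1, 2⟩, ⟨2, 2, 4, 2, 2⟩, ⟨1, 0, 2, 0, 0⟩, ⟨0, -1, -4, -2, -2⟩,
    ⟨1, 1, 2, 0, 2⟩, ⟨0, 0, -2, 0, 0⟩, ⟨1, 1, 5, 1, 4⟩, ⟨0, 0, 2, 0, 0⟩]
   952634238333828915843452))
  (.node 2 3 1 1
  (.node 1 3 1 2
  (.leaf ⟨2, 1, 2, 3, 2⟩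
   [⟨2, 2, 4, 1, 2⟩, ⟨0, 1, 1, 1, 1⟩, ⟨2, 1, 2, 1, 2⟩, ⟨2, 1, 2, 1, 0⟩, ⟨0, -1, -2, -1, -2⟩,
    ⟨1, 0, 0, -1, 0⟩, ⟨0, -1, -2, -1, 0⟩, ⟨1, 1, 2, 1, 1⟩, ⟨0, 1, 1, 1, 0⟩]
   952652685077902625460604)
  (.leaf ⟨2, 2, 2, 1, 2⟩
   [⟨2, 2, 4, 2, 2⟩, ⟨1, 1, 1, 1, 1⟩, ⟨2, 2, 2, 1, 2⟩, ⟨1, 0, 2, 1, 0⟩, ⟨0, -1, -2, -1, -2⟩,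
    ⟨1, 1, 0, 0, 0⟩, ⟨0, 0, -2, -1, 0⟩, ⟨1, 1, 2, 1, 1⟩, ⟨0, 0, 1, 1, 0⟩]
   952652685077902625460604))
  (.leaf ⟨2, 2, 6, 2, 2⟩
   [⟨2, 2, 8, 4, 2⟩, ⟨1, 1, 1, 1, 1⟩, ⟨2, 2, 4, 2, 2⟩, ⟨1, 0, 2, 2, 0⟩, ⟨0, -1, -4, -2, -2⟩,
    ⟨1, 1, 2, 0, 0⟩, ⟨0, 0, -2, -2, 0⟩, ⟨1, 1, 5, 2, 1⟩, ⟨0, 0, 2, 1, 0⟩]
   952652685077902625460604)))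
  (.node 3 4 2 1
  (.leaf ⟨2, 2, 3, 1, 5⟩
   [⟨2, 2, 2, 2, 6⟩, ⟨0, 1, 0, 1, 1⟩, ⟨2, 1, 0, 1, 2⟩, ⟨2, 0, 2, 1, 2⟩, ⟨0, 0, 0, -1, -2⟩,
    ⟨1, 1, 0, 0, 2⟩, ⟨0, 0, -2, -1, -2⟩, ⟨1, 1, 2, 1, 4⟩, ⟨0, 0, 2, 1, 2⟩]
   952652685077902625460604)
  (.node 1 3 1 3
  (.leaf ⟨2, 2, 3, 3, 1⟩
   [⟨2, 5, 2, 1, 2⟩, ⟨0, 3, 0, 1, 1⟩, ⟨2, 4, 0, 1, 1⟩, ⟨2, 2, 2, 1, 1⟩, ⟨0, -3, 0, -1, -1⟩,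
    ⟨1, -1, 0, -1, 0⟩, ⟨0, -3, -2, -1, -1⟩, ⟨1, 3, 2, 1, 1⟩, ⟨0, 2, 2, 1, 1⟩]
   952652685077902625460604)
  (.leaf ⟨2, 2, 3, 2, 1⟩
   [⟨2, 2, 2, 5, 2⟩, ⟨0, 1, 0, 3, 1⟩, ⟨2, 1, 0, 4, 1⟩, ⟨2, 0, 2, 2, 1⟩, ⟨0, 0, 0, -3, -1⟩,
    ⟨1, 1, 0, -1, 0⟩, ⟨0, 0, -2, -3, -1⟩, ⟨1, 1, 2, 3, 1⟩, ⟨0, 0, 2, 2, 1⟩]
   952652685077902625460604))))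
  (.leaf ⟨2, 3, 3, 3, 2⟩
   [⟨2, 2, 2, 1, 2⟩, ⟨0, 1, 0, 1, 1⟩, ⟨2, 1, 0, 1, 1⟩, ⟨2, 1, 2, 1, 0⟩, ⟨0, 1, 0, -1, 0⟩,
    ⟨1, 1, 0, -1, 1⟩, ⟨0, -2, -2, -1, 0⟩, ⟨1, 1, 2, 1, 1⟩, ⟨0, 1, 2, 1, 0⟩]
   952652685007533881266556))

theorem chk0 : chk T0 R0 = true := by decide +kernel

/-- Rays of a root cone. -/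
def R1 : Par V5 :=
  ⟨⟨1, 1, 1, 1, 0⟩, ⟨0, 0, 0, 0, 0⟩, ⟨1, 1, 0, 0, 1⟩, ⟨1, 1, 1, 0, 0⟩, ⟨0, 0, 0, 0, 0⟩, ⟨1, 1, 0, 0, 0⟩, ⟨1, 2, 2, 1, 0⟩, ⟨0, 0, 0, 0, 0⟩, ⟨1, 1, 0, 0, 1⟩, ⟨1, 0, 0, 0, 0⟩⟩

/-- Subdivision of a root cone. -/
def T1 : Tr :=
  (.node 3 4 1 1
  (.node 2 4 1 1
  (.node 2 4 1 1
  (.leaf ⟨2, 2, 3, 2, 3⟩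
   [⟨2, 2, 4, 2, 1⟩, ⟨0, 0, 2, 1, 1⟩, ⟨2, 2, 2, 2, 1⟩, ⟨2, 2, 0, 0, -1⟩, ⟨0, 0, -2, -2, -1⟩,
    ⟨1, 1, 2, 0, 1⟩, ⟨0, 0, 0, 0, 1⟩, ⟨1, 1, 4, 1, 1⟩, ⟨0, 0, 0, 0, -1⟩]
   952634238474841294688636)
  (.leaf ⟨2, 2, 6, 2, 3⟩
   [⟨2, 2, 8, 2, 4⟩, ⟨1, 0, 1, 1, 2⟩, ⟨2, 2, 4, 2, 2⟩, ⟨1, 2, 2, 0, 0⟩, ⟨0, 0, -4, -2, -2⟩,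
    ⟨1, 1, 2, 0, 2⟩, ⟨0, 0, -2, 0, 0⟩, ⟨1, 1, 5, 1, 4⟩, ⟨0, 0, 2, 0, 0⟩]
   952634238474841294688636))
  (.leaf ⟨2, 2, 3, 2, 6⟩
   [⟨2, 2, 2, 2, 8⟩, ⟨0, 0, 0, 1, 1⟩, ⟨2, 2, 0, 2, 4⟩, ⟨2, 2, 2, 0, 2⟩, ⟨0, 0, 0, -2, -4⟩,
    ⟨1, 1, 0, 0, 2⟩, ⟨0, 0, -2, 0, -2⟩, ⟨1, 1, 2, 1, 5⟩, ⟨0, 0, 2, 0, 2⟩]
   952652685218915004305788))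
  (.leaf ⟨2, 2, 3, 3, 2⟩
   [⟨2, 2, 2, 1, 2⟩, ⟨0, 0, 0, 1, 1⟩, ⟨2, 2, 0, 1, 2⟩, ⟨2, 2, 2, 1, 0⟩, ⟨0, 0, 0, -1, -2⟩,
    ⟨1, 1, 0, -1, 0⟩, ⟨0, 0, -2, -1, 0⟩, ⟨1, 1, 2, 1, 1⟩, ⟨0, 0, 2, 1, 0⟩]
   952652685218915004305788))

theorem chk1 : chk T1 R1 = true := by decide +kernel

/-- Rays of a root cone. -/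
def R2 : Par V5 :=
  ⟨⟨1, 1, 1, 0, 0⟩, ⟨0, 0, 0, 0, 0⟩, ⟨1, 0, 0, 1, 0⟩, ⟨1, 1, 0, 0, 0⟩, ⟨0, 0, 0, 0, 0⟩, ⟨1, 0, 0, 0, 0⟩, ⟨2, 2, 1, 0, 0⟩, ⟨0, 0, 0, 0, 0⟩, ⟨1, 0, 0, 1, 0⟩, ⟨0, 0, 0, 0, -1⟩⟩

/-- Subdivision of a root cone. -/
def T2 : Tr :=
  (.node 2 3 1 1
  (.node 1 3 1 1
  (.node 1 3 1 1
  (.leaf ⟨2, 3, 2, 3, 1⟩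
   [⟨2, 4, 2, 1, 0⟩, ⟨0, 2, 1, 1, 0⟩, ⟨2, 2, 2, 1, 0⟩, ⟨2, 0, 0, -1, 0⟩, ⟨0, -2, -2, -1, 0⟩,
    ⟨1, 2, 0, 1, 0⟩, ⟨0, 0, 0, 1, 0⟩, ⟨1, 4, 1, 1, 0⟩, ⟨0, 0, 0, -1, 0⟩]
   952634238474978733650300)
  (.leaf ⟨2, 6, 2, 3, 1⟩
   [⟨2, 8, 2, 4, 0⟩, ⟨0, 1, 1, 2, 0⟩, ⟨2, 4, 2, 2, 0⟩, ⟨2, 2, 0, 0, 0⟩, ⟨0, -4, -2, -2, 0⟩,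
    ⟨1, 2, 0, 2, 0⟩, ⟨0, -2, 0, 0, 0⟩, ⟨1, 5, 1, 4, 0⟩, ⟨0, 2, 0, 0, 0⟩]
   952634238474978733650300))
  (.leaf ⟨2, 3, 2, 6, 1⟩
   [⟨2, 2, 2, 8, 0⟩, ⟨0, 0, 1, 1, 0⟩, ⟨2, 0, 2, 4, 0⟩, ⟨2, 2, 0, 2, 0⟩, ⟨0, 0, -2, -4, 0⟩,
    ⟨1, 0, 0, 2, 0⟩, ⟨0, -2, 0, -2, 0⟩, ⟨1, 2, 1, 5, 0⟩, ⟨0, 2, 0, 2, 0⟩]
   952652685219052443267452))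
  (.leaf ⟨2, 3, 3, 2, 1⟩
   [⟨2, 2, 1, 2, 0⟩, ⟨0, 0, 1, 1, 0⟩, ⟨2, 0, 1, 2, 0⟩, ⟨2, 2, 1, 0, 0⟩, ⟨0, 0, -1, -2, 0⟩,
    ⟨1, 0, -1, 0, 0⟩, ⟨0, -2, -1, 0, 0⟩, ⟨1, 2, 1, 1, 0⟩, ⟨0, 2, 1, 0, 0⟩]
   952652685219052443267452))

theorem chk2 : chk T2 R2 = true := by decide +kernel

/-- Rays of a root cone. -/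
def R4 : Par V5 :=
  ⟨⟨1, 1, 1, 1, 0⟩, ⟨0, 0, 0, 0, 0⟩, ⟨1, 1, 0, 0, 0⟩, ⟨1, 1, 1, 0, 0⟩, ⟨0, 0, 0, 0, 0⟩, ⟨1, 1, 0, 0, 1⟩, ⟨1, 2, 2, 1, 0⟩, ⟨0, 0, 0, 0, 0⟩, ⟨1, 1, 0, 0, 1⟩, ⟨1, 0, 0, 0, 0⟩⟩

/-- Subdivision of a root cone. -/
def T4 : Tr :=
  (.node 2 4 1 1
  (.node 3 4 1 1
  (.node 2 4 1 1
  (.leaf ⟨2, 2, 3, 3, 3⟩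
   [⟨2, 2, 0, 0, -1⟩, ⟨1, 0, -2, 0, -1⟩, ⟨2, 2, 2, 2, 1⟩, ⟨1, 2, 4, 2, 1⟩, ⟨0, 0, 2, 0, 1⟩,
    ⟨1, 1, 2, 0, 1⟩, ⟨0, 0, 0, 0, 1⟩, ⟨1, 1, 4, 2, 1⟩, ⟨0, 0, 0, 0, -1⟩]
   952505617912487297274236)
  (.leaf ⟨2, 2, 5, 3, 3⟩
   [⟨2, 2, 2, 0, 0⟩, ⟨1, 0, -2, 0, -2⟩, ⟨2, 2, 2, 2, 2⟩, ⟨1, 2, 6, 2, 4⟩, ⟨0, 0, 1, 0, 2⟩,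
    ⟨1, 1, 2, 0, 2⟩, ⟨0, 0, -2, 0, 0⟩, ⟨1, 1, 4, 2, 4⟩, ⟨0, 0, 2, 0, 0⟩]
   952505617912487297274236))
  (.leaf ⟨2, 2, 5, 3, 3⟩
   [⟨2, 2, 2, 1, 0⟩, ⟨0, 0, -2, 1, 0⟩, ⟨2, 2, 2, 1, 2⟩, ⟨2, 2, 6, 1, 2⟩, ⟨0, 0, 1, -1, 0⟩,
    ⟨1, 1, 2, -1, 0⟩, ⟨0, 0, -2, -1, 0⟩, ⟨1, 1, 4, 1, 2⟩, ⟨0, 0, 2, 1, 0⟩]
   952505617912487297274236))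
  (.leaf ⟨2, 2, 3, 3, 5⟩
   [⟨2, 2, 2, 1, 2⟩, ⟨0, 0, 0, 1, -2⟩, ⟨2, 2, 0, 1, 2⟩, ⟨2, 2, 2, 1, 6⟩, ⟨0, 0, 0, -1, 1⟩,
    ⟨1, 1, 0, -1, 2⟩, ⟨0, 0, -2, -1, -2⟩, ⟨1, 1, 2, 1, 4⟩, ⟨0, 0, 2, 1, 2⟩]
   952653191873873066709372))

theorem chk4 : chk T4 R4 = true := by decide +kernel

end Pool.Agent.Lib.MP_453ac3_co.UB.CertJ
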