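import Pool.Agent.Lib.MP_453ac3_co.UB.St

/-! Two involutions, extension of pairings, deletion of a pendant vertex, transfer along a
bijection. -/

namespace Pool.Agent.Lib.MP_453ac3_co.UB

namespace ColJ

theorem not_same {V : Type} (a t : Equiv.Perm V) (ha : a * a = 1) (ht : t * t = 1)
    (ha' : ∀ v, a v ≠ v) (ht' : ∀ v, t v ≠ v) (v : V) : ¬ (t * a).SameCycle v (a v) := by
  set r := t * a with hr
  have hai : a⁻¹ = a := inv_eq_of_mul_eq_one_right ha
  have hti : t⁻¹ = t := inv_eq_of_mul_eq_one_right ht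
  have h1 : a * r * a⁻¹ = r⁻¹ := by
    rw [hr, mul_inv_rev, hai, hti, mul_assoc, mul_assoc, ha, mul_one]
  have h2 : ∀ j : ℤ, a * r ^ j = r ^ (-j) * a := fun j => by
    have h3 : (a * r * a⁻¹) ^ j = a * r ^ j * a⁻¹ := conj_zpow
    rw [h1, inv_zpow'] at h3
    rw [h3, inv_mul_cancel_right]
  have h4 : t = r * a := by rw [hr, mul_assoc, ha, mul_one]
  rintro ⟨i, hi⟩
  obtain ⟨j, rfl | rfl⟩ := Int.even_or_odd' i
  · refine ha' ((r ^ j) v) ?_
    rw [← Equiv.Perm.mul_apply, h2, Equiv.Perm.mul_apply, ← hi, ← Equiv.Perm.mul_apply,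
      ← zpow_add]
    congr 2
    ring
  · refine ht' ((r ^ (j + 1)) v) ?_
    have h5 : t * r ^ (j + 1) = r ^ (-j) * a := by
      conv_lhs => rw [h4]
      rw [mul_assoc, h2, ← mul_assoc, ← zpow_one_add]
      congr 2
      ring
    rw [← Equiv.Perm.mul_apply, h5, Equiv.Perm.mul_apply, ← hi, ← Equiv.Perm.mul_apply,
      ← zpow_add]
    congr 2
    ring

theorem colour {V : Type} [Fintype V] (a t : Equiv.Perm V) (ha : a * a = 1) (ht : t * t = 1)
    (ha' : ∀ v, a v ≠ v) (ht' : ∀ v, t v ≠ v) :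
    ∃ c : V → Prop, (∀ v, c (a v) ↔ ¬ c v) ∧ ∀ v, c (t v) ↔ ¬ c v := by
  let S := Equiv.Perm.SameCycle.setoid (t * a)
  let rep : V → ℕ := fun v => Fintype.equivFin V (Quotient.mk S v).out
  have hrep : ∀ v w, rep v = rep w ↔ (t * a).SameCycle v w := fun v w => by
    constructor
    · intro h
      exact Quotient.exact (s := S)
        (Quotient.out_injective ((Fintype.equivFin V).injective (Fin.ext h)))
    · intro h
      have : Quotient.mk S v = Quotient.mk S w := Quotient.sound h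
      simp only [rep, this]
  have haa : ∀ v, a (a v) = v := fun v => by rw [← Equiv.Perm.mul_apply, ha]; rfl
  have htt : ∀ v, t (t v) = v := fun v => by rw [← Equiv.Perm.mul_apply, ht]; rfl
  have hne : ∀ v, rep v ≠ rep (a v) := fun v h => not_same a t ha ht ha' ht' v ((hrep _ _).1 h)
  refine ⟨fun v => rep v < rep (a v), fun v => ?_, fun v => ?_⟩
  · have := hne v
    simp only [haa]
    omega
  · have h1 : rep (a v) = rep (t v) := (hrep _ _).2 ⟨1, by simp [haa]⟩
    have h2 : rep (a (t v)) = rep v := (hrep _ _).2 ⟨1, by simp [haa, htt]⟩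
    have := hne v
    simp only [h2, ← h1]
    omega

variable {V W : Type} {G : SimpleGraph V} {φ : W → V}

theorem conn_image (hφ : Function.Injective φ) {s : Set W}
    (h : ((G.comap φ).induce s).Connected) : (G.induce (φ '' s)).Connected := by
  let f : (G.comap φ).induce s →g G.induce (φ '' s) :=
    ⟨fun x => ⟨φ x, x, x.2, rfl⟩, fun h => h⟩
  refine h.map f ?_
  rintro ⟨_, x, hx, rfl⟩
  exact ⟨⟨x, hx⟩, rfl⟩

theorem planar_comap (hφ : Function.Injective φ) (h : IsPlanar G) : IsPlanar (G.comap φ) := by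
  constructor
  · rintro ⟨f, h1, h2, h3⟩
    refine h.1 ⟨fun i => φ '' f i, fun i => conn_image hφ (h1 i),
      fun i j hij => (Set.disjoint_image_iff hφ).2 (h2 i j hij), fun i j hij => ?_⟩
    obtain ⟨a, ha, b, hb, hab⟩ := h3 i j hij
    exact ⟨φ a, ⟨a, ha, rfl⟩, φ b, ⟨b, hb, rfl⟩, hab⟩
  · rintro ⟨f, h1, h2, h3⟩
    refine h.2 ⟨fun i => φ '' f i, fun i => conn_image hφ (h1 i),
      fun i j hij => (Set.disjoint_image_iff hφ).2 (h2 i j hij), fun i j => ?_⟩
    obtain ⟨a, ha, b, hb, hab⟩ := h3 i j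
    exact ⟨φ a, ⟨a, ha, rfl⟩, φ b, ⟨b, hb, rfl⟩, hab⟩

theorem deg_comap [Finite V] (hφ : Function.Injective φ) {D : ℕ}
    (h : ∀ v, (G.neighborSet v).ncard ≤ D) (w : W) :
    ((G.comap φ).neighborSet w).ncard ≤ D :=
  (Set.ncard_le_ncard_of_injOn φ (fun _ ha => ha) hφ.injOn).trans (h (φ w))

theorem lift (hφ : Function.Injective φ) {u v : V} (p : G.Walk u v) :
    (∀ x ∈ p.support, x ∈ Set.range φ) → ∀ a b, φ a = u → φ b = v →
      ∃ q : (G.comap φ).Walk a b, q.support.map φ = p.support ∧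
        q.edges.map (Sym2.map φ) = p.edges := by
  induction p with
  | nil =>
    intro _ a b ha hb
    obtain rfl := hφ (ha.trans hb.symm)
    exact ⟨.nil, by simp [ha], by simp⟩
  | @cons u w v h p ih =>
    intro hs a b ha hb
    obtain ⟨c, hc⟩ := hs w (by simp)
    obtain ⟨q, h1, h2⟩ := ih (fun x hx => hs x (by simp [hx])) c b hc hb
    have hac : (G.comap φ).Adj a c := by
      show G.Adj (φ a) (φ c)
      rw [ha, hc]
      exact h
    exact ⟨.cons hac q, by simp [h1, ha], by simp [h2, ha, hc]⟩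

theorem pp_comap (hφ : Function.Injective φ) (h : PathPairable G)
    (hr : ∀ a b (p : G.Walk (φ a) (φ b)), p.IsPath → ∀ x ∈ p.support, x ∈ Set.range φ) :
    PathPairable (G.comap φ) := by
  intro k s t hst
  have hi : Function.Injective (Sum.elim (φ ∘ s) (φ ∘ t)) := by
    rw [← Sum.comp_elim]
    exact hφ.comp hst
  obtain ⟨P, h1, h2⟩ := h k _ _ hi
  choose Q hQ1 hQ2 using fun i => lift hφ (P i) (hr _ _ (P i) (h1 i)) (s i) (t i) rfl rfl
  refine ⟨Q, fun i => ?_, fun i j hij e he he' => ?_⟩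
  · have := (h1 i).support_nodup
    rw [← hQ1 i] at this
    exact SimpleGraph.Walk.IsPath.mk' (List.Nodup.of_map _ this)
  · refine h2 hij (a := Sym2.map φ e) ?_ ?_
    · rw [← hQ2 i]
      exact List.mem_map_of_mem he
    · rw [← hQ2 j]
      exact List.mem_map_of_mem he'

theorem avoid {z : V} (hz : ∀ a b, G.Adj z a → G.Adj z b → a = b) {u v : V} (p : G.Walk u v) :
    p.IsPath → u ≠ z → v ≠ z → z ∉ p.support := by
  induction p with
  | nil => intro _ hu _; simpa using hu.symm
  | @cons u w v h p ih =>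
    intro hp hu hv
    rw [SimpleGraph.Walk.cons_isPath_iff] at hp
    by_cases hw : w = z
    · subst hw
      cases p with
      | nil => exact absurd rfl hv
      | cons h' r =>
        obtain rfl := hz _ _ h.symm h'
        exact absurd (by simp) hp.2
    · have := ih hp.1 hw hv
      simp [this, hu.symm]

end ColJ

theorem col : ColStmt := by
  classical
  intro β _ τ hτ hτ'
  have hal : Function.Involutive fun v : β × Bool => (v.1, !v.2) := fun v => by simp
  obtain ⟨c, h1, h2⟩ := ColJ.colour hal.toPerm hτ.toPerm (Equiv.ext fun v => hal v)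
    (Equiv.ext fun v => hτ v) (fun v h => by simpa using congrArg Prod.snd h) hτ'
  have h1' : ∀ b x, c (b, !x) ↔ ¬ c (b, x) := fun b x => h1 (b, x)
  have h2' : ∀ v, c (τ v) ↔ ¬ c v := h2
  let sd : β → Bool := fun b => decide (c (b, true))
  have hsd : ∀ b, c (b, sd b) := fun b => by
    by_cases h : c (b, true)
    · simpa [sd, h] using h
    · simpa [sd, h] using (h1' b true).2 h
  have hn : ∀ v : β × Bool, ¬ c v → v = (v.1, !sd v.1) := fun v hv => by
    refine Prod.ext rfl ?_
    have h3 : v.2 ≠ sd v.1 := fun h => hv (by have := hsd v.1; rwa [← h] at this)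
    exact Bool.eq_not_of_ne h3
  have hf : ∀ b, τ (b, sd b) = ((τ (b, sd b)).1, !sd (τ (b, sd b)).1) := fun b =>
    hn _ fun h => (h2' _).1 h (hsd b)
  have hinj : Function.Injective fun b => (τ (b, sd b)).1 := fun b b' h => by
    have h3 : τ (b, sd b) = τ (b', sd b') := by
      rw [hf b, hf b']
      simp only at h
      rw [h]
    exact congrArg Prod.fst (hτ.injective h3)
  exact ⟨Equiv.ofBijective _ (Finite.injective_iff_bijective.1 hinj), sd, hf⟩

theorem ext : ExtStmt := by
  classical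
  intro V _ hV k s t hst
  have hc : Even (Fintype.card ↥(Set.range (Sum.elim s t))ᶜ) := by
    rw [Fintype.card_compl_set, Set.card_range_of_injective hst]
    have h := Fintype.card_le_of_injective _ hst
    rw [Nat.even_sub h]
    simp [hV]
  obtain ⟨j, hj⟩ := hc
  obtain ⟨e⟩ : Nonempty ((Fin j ⊕ Fin j) ≃ ↥(Set.range (Sum.elim s t))ᶜ) :=
    Fintype.card_eq.1 (by simp only [Fintype.card_sum, Fintype.card_fin]; exact hj.symm)
  let E : (Fin k ⊕ Fin k) ⊕ (Fin j ⊕ Fin j) ≃ V :=
    (Equiv.sumCongr (Equiv.ofInjective _ hst) e).trans (Equiv.Set.sumCompl _)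
  have hE : ∀ a, E (Sum.inl a) = Sum.elim s t a := fun a => rfl
  refine ⟨fun v => E (Sum.map Sum.swap Sum.swap (E.symm v)), fun v => ?_, fun v h => ?_,
    fun i => ?_⟩
  · obtain ⟨x, rfl⟩ := E.surjective v
    rcases x with x | x <;> simp
  · obtain ⟨x, rfl⟩ := E.surjective v
    rcases x with (x | x) | (x | x) <;> simp at h
  · have h : s i = E (Sum.inl (Sum.inl i)) := rfl
    simp only [h, Equiv.symm_apply_apply]
    rfl

theorem del : DelStmt := by
  intro V _ G z D hz h1 h2 h3
  have hφ : Function.Injective (Subtype.val : {v | v ≠ z} → V) := Subtype.val_injective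
  refine ⟨ColJ.planar_comap hφ h1, ColJ.pp_comap hφ h2 fun a b p hp x hx => ?_,
    ColJ.deg_comap hφ h3⟩
  exact ⟨⟨x, fun h => ColJ.avoid hz p hp a.2 b.2 (h ▸ hx)⟩, rfl⟩

theorem trans : TransStmt := by
  rintro V G n D ⟨e⟩ h1 h2 h3
  haveI : Finite V := Finite.of_equiv _ e.symm
  exact ⟨G.comap e.symm, ColJ.planar_comap e.symm.injective h1,
    ColJ.pp_comap e.symm.injective h2 fun _ _ _ _ x _ => e.symm.surjective x,
    ColJ.deg_comap e.symm.injective h3⟩

end Pool.Agent.Lib.MP_453ac3_co.UB
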