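import Pool.Agent.Lib.MP_453ac3_co.UB.DC1

/-! From potentials to decorated states. -/

namespace Pool.Agent.Lib.MP_453ac3_co.UB

open Finset

namespace DCJ

variable {β : Type} [DecidableEq β]

/-- Value of the junction from `b` to `σ b` under the orientation `o`. -/
def jv (I : Inst β) (v : Fin 5 → Fin 5 → ℚ) (o : β → Bool) (b : β) : ℚ :=
  if I.σ b = b ∧ b ∉ I.fx then
    v (tok (I.c b) false) (tok (I.c b) false) + v (tok (I.c b) true) (tok (I.c b) true) -
      v (tok (I.c b) false) (tok (I.c b) true)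
  else v (tok (I.c b) (o b)) (tok (I.c (I.σ b)) (!o (I.σ b)))

omit [DecidableEq β] in
theorem sum_pot [Fintype β] (I : Inst β) {m e : ℕ} (hI : I.Ok m e) (π : Fin 9 → ℚ) (S : ℚ)
    (hS : 0 ≤ S) (h1 : S ≤ ∑ c, π c) (h2 : 51 * S ≤ 50 * (∑ c, π c + (π 6 + π 7 + π 8)))
    (h3 : ∀ a, -2 * S ≤ π (tc a)) :
    (49 * m + e - 300 : ℚ) * S ≤ 50 * ∑ b, π (I.c b) := by
  have e1 : ∑ b, π (I.c b) = ∑ k, ((univ.filter fun b => I.c b = k).card : ℚ) * π k := by
    rw [← Finset.sum_fiberwise_of_maps_to (s := univ) (t := univ) (g := I.c)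
      (fun _ _ => mem_univ _)]
    refine sum_congr rfl fun k _ => ?_
    rw [sum_congr rfl (g := fun _ => π k) fun b hb => by rw [(mem_filter.mp hb).2]]
    simp
  have e2 : ∀ k : Fin 9, 6 ≤ k.val → -2 * S ≤ π k →
      e * π k - 2 * S ≤ ((univ.filter fun b => I.c b = k).card : ℚ) * π k := by
    intro k hk hπ
    have a1 := hI.lo k hk
    have a2 := hI.hi k hk
    rcases (by omega : (univ.filter fun b => I.c b = k).card = e ∨
      (univ.filter fun b => I.c b = k).card = e + 1) with h | h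
    · rw [h]; linarith
    · rw [h]; push_cast; linarith
  have e6 := e2 6 (by decide) (h3 0)
  have e7 := e2 7 (by decide) (h3 1)
  have e8 := e2 8 (by decide) (h3 2)
  have hme : (m : ℚ) ≤ e := by exact_mod_cast hI.me
  have hem : (e : ℚ) ≤ 2 * m := by exact_mod_cast hI.em
  rw [e1]
  simp only [Fin.sum_univ_succ, Fin.sum_univ_zero] at h1 h2 ⊢
  have s0 := hI.sp 0 (by decide)
  have s1 := hI.sp 1 (by decide)
  have s2 := hI.sp 2 (by decide)
  have s3 := hI.sp 3 (by decide)
  have s4 := hI.sp 4 (by decide)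
  have s5 := hI.sp 5 (by decide)
  change _ ≤ 50 * ((((univ.filter fun b => I.c b = 0).card : ℕ) : ℚ) * π 0 +
    (((univ.filter fun b => I.c b = 1).card : ℚ) * π 1 +
    (((univ.filter fun b => I.c b = 2).card : ℚ) * π 2 +
    (((univ.filter fun b => I.c b = 3).card : ℚ) * π 3 +
    (((univ.filter fun b => I.c b = 4).card : ℚ) * π 4 +
    (((univ.filter fun b => I.c b = 5).card : ℚ) * π 5 +
    (((univ.filter fun b => I.c b = 6).card : ℚ) * π 6 +
    (((univ.filter fun b => I.c b = 7).card : ℚ) * π 7 +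
    (((univ.filter fun b => I.c b = 8).card : ℚ) * π 8 + 0)))))))))
  change S ≤ π 0 + (π 1 + (π 2 + (π 3 + (π 4 + (π 5 + (π 6 + (π 7 + (π 8 + 0)))))))) at h1
  change 51 * S ≤ 50 * (π 0 + (π 1 + (π 2 + (π 3 + (π 4 + (π 5 + (π 6 + (π 7 + (π 8 + 0))))))))
    + (π 6 + π 7 + π 8)) at h2
  rw [s0, s1, s2, s3, s4, s5]
  have p1 := mul_le_mul_of_nonneg_left h1 (by linarith : (0 : ℚ) ≤ 2 * m - e)
  have p2 := mul_le_mul_of_nonneg_left h2 (by linarith : (0 : ℚ) ≤ e - m)
  nlinarith

theorem orient (h2 : DCycStmt) [Fintype β] (I : Inst β) {m e : ℕ} (hI : I.Ok m e)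
    (v : Fin 5 → Fin 5 → ℚ) (S : ℚ) (hS : 0 ≤ S) (hSv : v 0 0 + v 1 1 = S)
    (hsym : ∀ P Q, v P Q = v Q P)
    (hz : ∀ P Q : Fin 5, 2 ≤ P.val → 2 ≤ Q.val → P ≠ Q → v P Q = 0)
    (hle : ∀ P Q, v P Q ≤ S) (h0 : ∀ P Q : Fin 5, P.val + Q.val ≠ 1 → 0 ≤ v P Q)
    (hc : Cert v) :
    ∃ o : β → Bool, (∀ b ∈ I.fx, o b = I.o0 b) ∧
      (49 * m + e - 900 : ℚ) * S ≤ 50 * ∑ b, jv I v o b := by
  obtain ⟨π, μ, hL, c1, c2, c3⟩ := hc
  rw [hSv] at c1 c2 c3
  obtain ⟨o, ho⟩ := h2 v π μ hsym hz hL β I.σ I.c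
  have hp := sum_pot I hI π S hS c1 c2 c3
  refine ⟨fun b => if b ∈ I.fx then I.o0 b else o b, fun b hb => if_pos hb, ?_⟩
  have key : ∀ b, (if I.σ b = b then
        v (tok (I.c b) false) (tok (I.c b) false) + v (tok (I.c b) true) (tok (I.c b) true) -
          v (tok (I.c b) false) (tok (I.c b) true)
        else v (tok (I.c b) (o b)) (tok (I.c (I.σ b)) (!o (I.σ b)))) ≤
      jv I v (fun b => if b ∈ I.fx then I.o0 b else o b) b +
        ((if b ∈ I.fx then 2 * S else 0) + if I.σ b ∈ I.fx then 2 * S else 0) := by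
    intro b
    by_cases hb : b ∈ I.fx ∨ I.σ b ∈ I.fx
    · have a1 : 0 ≤ jv I v (fun b => if b ∈ I.fx then I.o0 b else o b) b := by
        have : ¬ (I.σ b = b ∧ b ∉ I.fx) := by
          rintro ⟨e1, e2⟩
          rw [e1] at hb
          exact e2 (hb.elim id id)
        rw [jv, if_neg this]
        apply h0
        rcases hb with hb | hb
        · have := tok_ge (I.c b) (if b ∈ I.fx then I.o0 b else o b) (hI.fxE b hb)
          omega
        · have := tok_ge (I.c (I.σ b))
            (!(if I.σ b ∈ I.fx then I.o0 (I.σ b) else o (I.σ b))) (hI.fxE _ hb)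
          omega
      have a2 : 2 * S ≤ (if b ∈ I.fx then 2 * S else 0) + if I.σ b ∈ I.fx then 2 * S else 0 := by
        split_ifs with x1 x2 x2
        · linarith
        · linarith
        · linarith
        · exact absurd hb (not_or.mpr ⟨x1, x2⟩)
      have a3 := h0 _ _ (tok_ns (I.c b) false)
      have a4 := hle (tok (I.c b) false) (tok (I.c b) false)
      have a5 := hle (tok (I.c b) true) (tok (I.c b) true)
      have a6 := hle (tok (I.c b) (o b)) (tok (I.c (I.σ b)) (!o (I.σ b)))
      simp only [Bool.not_false] at a3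
      split_ifs at a2 ⊢ <;> linarith
    · obtain ⟨x1, x2⟩ := not_or.mp hb
      simp only [jv, x1, x2, if_false, not_false_eq_true, and_true, add_zero, le_refl]
  have hs := sum_le_sum fun b (_ : b ∈ univ) => key b
  rw [sum_add_distrib, sum_add_distrib,
    Equiv.sum_comp I.σ fun b => if b ∈ I.fx then 2 * S else 0] at hs
  have hf : ∑ b, (if b ∈ I.fx then 2 * S else 0) ≤ 6 * S := by
    rw [sum_ite_mem, univ_inter, sum_const, nsmul_eq_mul]
    have : (I.fx.card : ℚ) ≤ 3 := by exact_mod_cast hI.fx3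
    nlinarith
  nlinarith

theorem key (lq : Fin 9 → ℚ) (best : Fin 3 → Fin 3) (t : Fin 3 → ℚ) (n c : ℚ) (st : Fin 3)
    (hc : 0 ≤ c) (hT : ∀ l, t l ≤ lq (cls (best l) l) + if l = st then c else 0)
    (P Q : Fin 5) (k k' : Fin 3)
    (hN : P.val + Q.val = 1 → c = 0 ∧ n ≤ lq (spk false k) + lq (spk true k) - lq (tc k)) :
    vv (fun l => lq (spk false l)) (fun l => lq (spk true l)) t n P Q -
      c * (dem P Q 2 k' (tc st) : ℚ) ≤ ∑ i, lq i * (dem P Q (best (col P)) k i : ℚ) := by
  rw [W_eq, sub_le_iff_le_add]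
  by_cases h : P.val + Q.val = 1
  · obtain ⟨rfl, h2⟩ := hN h
    rw [vv_ns _ _ h, vv_ns _ _ h]
    linarith
  · rw [dem_tc P Q k' st h]
    refine vv_le P Q ?_ (fun h' => absurd h' h) fun h1 h2 => ?_
    · split_ifs <;> simp [hc]
    · have := hT (col P)
      by_cases h3 : col P = st
      · rw [if_pos h3] at this
        rw [if_pos ⟨h1, h2, h3⟩]
        simpa using this
      · rw [if_neg h3] at this
        rw [if_neg fun h4 => h3 h4.2.2]
        simpa using this

/-- The decorated state. -/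
def dec (I : Inst β) (best : Fin 3 → Fin 3) (st : Fin 3) (o : β → Bool) (b : β) : Dc :=
  if I.σ b = b ∧ b ∉ I.fx then
    (o b, best (col (tok (I.c b) false)), best (col (tok (I.c b) true)))
  else (o b, best (col (tok (I.c b) (o b))), st)

theorem dec_fst (I : Inst β) (best : Fin 3 → Fin 3) (st : Fin 3) (o : β → Bool) (b : β) :
    (dec I best st o b).1 = o b := by
  unfold dec
  split_ifs <;> rfl

omit [DecidableEq β] in
theorem ns_ne (I : Inst β) (s : β → Dc) (b : β) (h : I.NS s b) : I.σ b ≠ b := by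
  intro e
  unfold Inst.NS at h
  rw [e] at h
  exact tok_ns _ _ h

theorem decor [Fintype β] (I : Inst β) (lam : Fin 9 → ℤ) (best : Fin 3 → Fin 3)
    (t : Fin 3 → ℚ) (n c : ℚ) (st : Fin 3) (hc : 0 ≤ c)
    (hT : ∀ l, t l ≤ (lam (cls (best l) l) : ℚ) + if l = st then c else 0) (o : β → Bool)
    (hN : ∀ b, I.NS (fun b => (o b, 2, 2)) b → c = 0 ∧
      n ≤ (lam (spk false st) : ℚ) + lam (spk true st) - lam (tc st)) :
    ∑ b, jv I (vv (fun l => (lam (spk false l) : ℚ)) (fun l => (lam (spk true l) : ℚ)) t n) o b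
      - c * (I.y (fun b => (o b, 2, 2)) (tc st) : ℚ) ≤
      ((∑ i, lam i * I.y (dec I best st o) i : ℤ) : ℚ) := by
  simp only [Inst.y, Int.cast_sum, Int.cast_mul, mul_sum]
  rw [sum_comm, ← sum_sub_distrib]
  refine sum_le_sum fun b _ => ?_
  have K := key (fun i => (lam i : ℚ)) best t n c st hc hT
  by_cases hb : I.σ b = b ∧ b ∉ I.fx
  · have k1 := K (tok (I.c b) false) (tok (I.c b) false) 0 0 fun h => absurd h (by omega)
    have k2 := K (tok (I.c b) true) (tok (I.c b) true) 0 0 fun h => absurd h (by omega)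
    have k3 := W_eq (fun i => (lam i : ℚ)) (tok (I.c b) false) (tok (I.c b) true) 0 0
    rw [vv_eq (t' := t) (n' := n) _ (tok (I.c b) true) (tok_ns (I.c b) false) (tok_ne _)] at k3
    simp only [jv, Inst.sup, dec, if_pos hb, dem_tc0, Int.cast_add, Int.cast_sub, mul_add,
      mul_sub, sum_add_distrib, sum_sub_distrib, sub_zero]
    linarith
  · have k1 := K (tok (I.c b) (o b)) (tok (I.c (I.σ b)) (!o (I.σ b))) st 2 (hN b)
    simp only [jv, Inst.sup, if_neg hb, dec_fst]
    simp only [dec, if_neg hb]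
    exact k1

theorem exists_best (lam : Fin 9 → ℤ) (l : Fin 3) : ∃ p, lam (spk false l) ≤ lam (cls p l) ∧
    lam (spk true l) ≤ lam (cls p l) ∧ lam (tc l) ≤ lam (cls p l) := by
  obtain ⟨p, -, hp⟩ := exists_max_image univ (fun p => lam (cls p l)) univ_nonempty
  exact ⟨p, hp 0 (mem_univ _), hp 1 (mem_univ _), hp 2 (mem_univ _)⟩

end DCJ

open DCJ

theorem dc (h1 : RegStmt) (h2 : DCycStmt) (_h3 : BasStmt) : DCStmt := by
  intro β _ _ I m e hI L h lam hl hX hF
  set a : Fin 3 → ℚ := fun l => lam (spk false l) with ha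
  set b : Fin 3 → ℚ := fun l => lam (spk true l) with hb
  have a0 : ∀ l, 0 ≤ a l := fun l => Int.cast_nonneg (hl _)
  have b0 : ∀ l, 0 ≤ b l := fun l => Int.cast_nonneg (hl _)
  obtain ⟨S, hSdef⟩ : ∃ S : ℚ, S = ((six lam : ℤ) : ℚ) := ⟨_, rfl⟩
  have hS : a 0 + a 1 + a 2 + (b 0 + b 1 + b 2) = S := by
    rw [hSdef, six]
    push_cast
    change (lam 0 : ℚ) + lam 1 + lam 2 + (lam 3 + lam 4 + lam 5) = _
    ring
  have hab : ∀ l, a l + b l ≤ S := by
    intro l
    have := a0 0; have := a0 1; have := a0 2; have := b0 0; have := b0 1; have := b0 2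
    fin_cases l
    · change a 0 + b 0 ≤ S; linarith
    · change a 1 + b 1 ≤ S; linarith
    · change a 2 + b 2 ≤ S; linarith
  have S0 : 0 ≤ S := by linarith [hab 0, a0 0, b0 0]
  obtain ⟨st, hst⟩ := h1 a b a0 b0
    (by obtain ⟨l, hl⟩ := hX false; exact ⟨l, by simp [ha, hl]⟩)
    (by obtain ⟨l, hl⟩ := hX true; exact ⟨l, by simp [hb, hl]⟩)
  choose best hb1 hb2 hb3 using exists_best lam
  have hb1' : ∀ l, a l ≤ (lam (cls (best l) l) : ℚ) := fun l => Int.cast_le.mpr (hb1 l)
  have hb2' : ∀ l, b l ≤ (lam (cls (best l) l) : ℚ) := fun l => Int.cast_le.mpr (hb2 l)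
  have hb3' : ∀ l, (lam (tc l) : ℚ) ≤ (lam (cls (best l) l) : ℚ) :=
    fun l => Int.cast_le.mpr (hb3 l)
  have main : ∀ n : ℚ, n ≤ a st → n ≤ b st → ∃ o : β → Bool, (∀ x ∈ I.fx, o x = I.o0 x) ∧
      (49 * m + e - 900 : ℚ) * S ≤ 50 * ∑ x, jv I (vv a b
        (fun l => if l = st then a st + b st - max n 0 else max (a l) (b l)) n) o x ∧
      ∀ x, jv I (vv a b
        (fun l => if l = st then a st + b st - max n 0 else max (a l) (b l)) n) o x ≤ 2 * S := by
    intro n n1 n2
    have t0 : ∀ l, 0 ≤ (if l = st then a st + b st - max n 0 else max (a l) (b l)) := by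
      intro l
      split_ifs
      · have := max_le n1 (a0 st)
        linarith [b0 st]
      · exact le_max_of_le_left (a0 l)
    have t1 : ∀ l, (if l = st then a st + b st - max n 0 else max (a l) (b l)) ≤ S := by
      intro l
      split_ifs
      · have := le_max_right n 0
        linarith [hab st]
      · exact max_le (by linarith [hab l, b0 l]) (by linarith [hab l, a0 l])
    have vle := vv_le_S (a := a) (b := b) (n := n) (S := S) (fun l => by linarith [hab l, b0 l])
      (fun l => by linarith [hab l, a0 l]) t1 (by linarith [hab st, b0 st]) S0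
      (by linarith [b0 0, b0 1, b0 2]) (by linarith [a0 0, a0 1, a0 2])
    have v0 := vv_nonneg (n := n) a0 b0 t0
    obtain ⟨o, o1, o2⟩ := orient h2 I hI _ S S0 hS vv_symm vv_zero vle v0 (hst n n1 n2)
    refine ⟨o, o1, o2, fun x => ?_⟩
    unfold jv
    split_ifs
    · have a3 := v0 _ _ (tok_ns (I.c x) false)
      have a4 := vle (tok (I.c x) false) (tok (I.c x) false)
      have a5 := vle (tok (I.c x) true) (tok (I.c x) true)
      simp only [Bool.not_false] at a3
      linarith
    · linarith [vle (tok (I.c x) (o x)) (tok (I.c (I.σ x)) (!o (I.σ x)))]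
  have h0 : (0 : ℚ) ≤ h := Nat.cast_nonneg h
  have m0 : (0 : ℚ) ≤ m := Nat.cast_nonneg m
  have e0 : (0 : ℚ) ≤ e := Nat.cast_nonneg e
  by_cases hL : st ∈ L
  · have x1 := le_max_left (max (a st) (b st)) (lam (tc st) : ℚ)
    have x2 := le_max_right (max (a st) (b st)) (lam (tc st) : ℚ)
    have x3 := le_max_left (a st) (b st)
    have x4 := le_max_right (a st) (b st)
    obtain ⟨o, o1, o2, -⟩ := main (a st + b st - max (max (a st) (b st)) (lam (tc st)))
      (by linarith) (by linarith)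
    have D := decor I lam best (a st + b st - max (max (a st) (b st)) (lam (tc st))) 0 st le_rfl
      (t := fun l => if l = st then a st + b st -
        max (a st + b st - max (max (a st) (b st)) (lam (tc st))) 0 else max (a l) (b l))
      (fun l => by
        by_cases hl : l = st
        · subst hl
          have := le_max_left (a l + b l - max (max (a l) (b l)) (lam (tc l))) 0
          have := max_le (max_le (hb1' l) (hb2' l)) (hb3' l)
          simp only [if_true]
          linarith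
        · simp only [if_neg hl, add_zero]
          exact max_le (hb1' l) (hb2' l)) o
      (fun _ _ => ⟨rfl, by change _ ≤ a st + b st - _; linarith⟩)
    refine ⟨dec I best st o, ⟨fun x hx => by rw [dec_fst, o1 x hx], fun x hx => ?_⟩, ?_⟩
    · rw [dec, if_neg fun h => ns_ne I _ x hx h.1]
      exact hL
    · rw [← Int.cast_le (R := ℚ), Int.cast_mul, Int.cast_mul, ← hSdef]
      rw [zero_mul, sub_zero] at D
      push_cast at D ⊢
      nlinarith [mul_nonneg h0 S0]
  · have c0 : (0 : ℚ) ≤ Fintype.card β := Nat.cast_nonneg _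
    have cS := mul_nonneg c0 S0
    obtain ⟨o, o1, o2, o3⟩ := main (-(Fintype.card β * (2 * S) + 18 * S + 1))
      (by linarith [a0 st]) (by linarith [b0 st])
    have noNS : ∀ x, ¬ I.NS (fun x => (o x, 2, 2)) x := by
      intro x hx
      have y1 := sum_le_sum fun z (_ : z ∈ univ.erase x) => o3 z
      rw [← add_sum_erase _ _ (mem_univ x)] at o2
      rw [sum_const, nsmul_eq_mul] at y1
      have y2 : ((univ.erase x).card : ℚ) ≤ Fintype.card β := by
        exact_mod_cast card_le_univ _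
      have y3 := mul_le_mul_of_nonneg_right y2 (by linarith : 0 ≤ 2 * S)
      rw [jv, if_neg fun h => ns_ne I _ x hx h.1, vv_ns _ _ hx] at o2
      nlinarith [mul_nonneg m0 S0, mul_nonneg e0 S0]
    have D := decor I lam best (-(Fintype.card β * (2 * S) + 18 * S + 1)) S st S0
      (t := fun l => if l = st then a st + b st -
        max (-(Fintype.card β * (2 * S) + 18 * S + 1)) 0 else max (a l) (b l))
      (fun l => by
        by_cases hl : l = st
        · subst hl
          have := le_max_right (-(Fintype.card β * (2 * S) + 18 * S + 1)) 0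
          simp only [if_true]
          linarith [hab l, hb1' l, a0 l]
        · simp only [if_neg hl, add_zero]
          exact max_le (hb1' l) (hb2' l)) o
      (fun x hx => absurd hx (noNS x))
    have hfew : (I.y (fun x => (o x, 2, 2)) (tc st) : ℚ) ≤ h := by
      exact_mod_cast hF st hL (fun x => (o x, 2, 2)) ⟨o1, fun x hx => absurd hx (noNS x)⟩
    refine ⟨dec I best st o, ⟨fun x hx => by rw [dec_fst, o1 x hx], fun x hx => ?_⟩, ?_⟩
    · refine absurd ?_ (noNS x)
      simpa only [Inst.NS, dec_fst] using hx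
    · rw [← Int.cast_le (R := ℚ), Int.cast_mul, Int.cast_mul, ← hSdef]
      have := mul_le_mul_of_nonneg_left hfew S0
      push_cast at D ⊢
      nlinarith

end Pool.Agent.Lib.MP_453ac3_co.UB
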