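import Pool.Agent.Lib.MP_453ac3_co.UB.St

/-! Tables of values for the decoration step. -/

namespace Pool.Agent.Lib.MP_453ac3_co.UB

open Finset

namespace DCJ

/-- The coordinate of colour `l` chosen by the allocation `p`. -/
def cls (p l : Fin 3) : Fin 9 := ![spk false l, spk true l, tc l] p

/-- The colour of a hub. -/
def col (P : Fin 5) : Fin 3 := ![0, 0, 0, 1, 2] P

/-- Indicator. -/
def ind (j i : Fin 9) : ℤ := if i = j then 1 else 0

theorem dem_eq : ∀ (P Q : Fin 5) (p k : Fin 3) (i : Fin 9), dem P Q p k i =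
    vv (fun l => ind (spk false l) i) (fun l => ind (spk true l) i) (fun l => ind (cls p l) i)
      (ind (spk false k) i + ind (spk true k) i - ind (tc k) i) P Q := by
  decide +kernel

theorem sum_ind (lq : Fin 9 → ℚ) (j : Fin 9) : ∑ i, lq i * (ind j i : ℚ) = lq j := by
  simp [ind]

theorem W_eq (lq : Fin 9 → ℚ) (P Q : Fin 5) (p k : Fin 3) :
    ∑ i, lq i * (dem P Q p k i : ℚ) =
      vv (fun l => lq (spk false l)) (fun l => lq (spk true l)) (fun l => lq (cls p l))
        (lq (spk false k) + lq (spk true k) - lq (tc k)) P Q := by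
  simp only [dem_eq]
  fin_cases P <;> fin_cases Q <;>
    simp only [vv, Int.cast_add, Int.cast_sub, mul_add, mul_sub, sum_add_distrib,
      sum_sub_distrib, sum_ind, Int.cast_zero, mul_zero, sum_const_zero]

theorem dem_tc : ∀ (P Q : Fin 5) (k st : Fin 3), P.val + Q.val ≠ 1 →
    dem P Q 2 k (tc st) = if 2 ≤ P.val ∧ P = Q ∧ col P = st then 1 else 0 := by
  decide +kernel

theorem dem_tc0 : ∀ (c : Fin 9) (st : Fin 3), dem (tok c false) (tok c true) 0 0 (tc st) = 0 := by
  decide +kernel

theorem tok_ne : ∀ c : Fin 9, tok c false ≠ tok c true := by decide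

theorem tok_ns : ∀ (c : Fin 9) (x : Bool), (tok c x).val + (tok c (!x)).val ≠ 1 := by decide

theorem tok_ge : ∀ (c : Fin 9) (x : Bool), 6 ≤ c.val → 2 ≤ (tok c x).val := by decide

section Table

variable {a b t t' : Fin 3 → ℚ} {n n' r S : ℚ}

theorem vv_le (P Q : Fin 5) (h0 : 0 ≤ r) (h1 : P.val + Q.val = 1 → n ≤ n' + r)
    (h2 : 2 ≤ P.val → P = Q → t (col P) ≤ t' (col P) + r) :
    vv a b t n P Q ≤ vv a b t' n' P Q + r := by
  fin_cases P <;> fin_cases Q <;>
    first
      | exact le_add_of_nonneg_right h0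
      | exact h1 rfl
      | exact h2 (by decide) rfl

theorem vv_eq (P Q : Fin 5) (h1 : P.val + Q.val ≠ 1) (h2 : P ≠ Q) :
    vv a b t n P Q = vv a b t' n' P Q := by
  fin_cases P <;> fin_cases Q <;>
    first
      | rfl
      | exact absurd rfl h1
      | exact absurd rfl h2

theorem vv_symm (P Q : Fin 5) : vv a b t n P Q = vv a b t n Q P := by
  fin_cases P <;> fin_cases Q <;> rfl

theorem vv_zero (P Q : Fin 5) (hP : 2 ≤ P.val) (hQ : 2 ≤ Q.val) (h : P ≠ Q) :
    vv a b t n P Q = 0 := by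
  fin_cases P <;> fin_cases Q <;>
    first
      | rfl
      | exact absurd hP (by decide)
      | exact absurd hQ (by decide)
      | exact absurd rfl h

theorem vv_ns (P Q : Fin 5) (h : P.val + Q.val = 1) : vv a b t n P Q = n := by
  fin_cases P <;> fin_cases Q <;>
    first
      | rfl
      | exact absurd h (by decide)

theorem vv_nonneg (ha : ∀ l, 0 ≤ a l) (hb : ∀ l, 0 ≤ b l) (ht : ∀ l, 0 ≤ t l) (P Q : Fin 5)
    (h : P.val + Q.val ≠ 1) : 0 ≤ vv a b t n P Q := by
  fin_cases P <;> fin_cases Q <;>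
    first
      | exact le_rfl
      | exact absurd rfl h
      | exact ha _
      | exact hb _
      | exact ht _
      | exact add_nonneg (add_nonneg (ha _) (ha _)) (ha _)
      | exact add_nonneg (add_nonneg (hb _) (hb _)) (hb _)

theorem vv_le_S (ha : ∀ l, a l ≤ S) (hb : ∀ l, b l ≤ S) (ht : ∀ l, t l ≤ S) (hn : n ≤ S)
    (h0 : 0 ≤ S) (h1 : a 0 + a 1 + a 2 ≤ S) (h2 : b 0 + b 1 + b 2 ≤ S) (P Q : Fin 5) :
    vv a b t n P Q ≤ S := by
  fin_cases P <;> fin_cases Q <;>
    first
      | exact h0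
      | exact hn
      | exact h1
      | exact h2
      | exact ha _
      | exact hb _
      | exact ht _

end Table

end DCJ

end Pool.Agent.Lib.MP_453ac3_co.UB
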