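import Pool.Agent.Lib.MP_453ac3_co.UB.St

/-! Orientation of the cycles of a permutation from the local inequality system. -/

namespace Pool.Agent.Lib.MP_453ac3_co.UB

open Finset

namespace DCycJ

variable {v : Fin 5 → Fin 5 → ℚ} {π : Fin 9 → ℚ} {μ : Fin 9 → Fin 9 → Bool}

/-- Value of a junction. -/
def jv (v : Fin 5 → Fin 5 → ℚ) (e f : Fin 9) (x y : Bool) : ℚ := v (tok e x) (tok f (!y))

/-- The running orientation. -/
def run (μ : Fin 9 → Fin 9 → Bool) (c : ℕ → Fin 9) : ℕ → Bool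
  | 0 => false
  | i + 1 => !(xor (run μ c i) (μ (c i) (c (i + 1))))

lemma coupled (e f : Fin 9) (x : Bool) :
    jv v e f x (!(xor x (μ e f))) + jv v e f (!x) (!(!(xor x (μ e f)))) = idl v μ e f := by
  unfold jv idl
  cases x <;> cases μ e f <;> simp [add_comm]

lemma uu_left (d e : Fin 9) (x y : Bool) :
    jv v d e x y + jv v d e (!x) y = uu v d (tok e (!y)) := by
  unfold jv uu
  cases x <;> simp [add_comm]

lemma uu_right (hs : ∀ P Q, v P Q = v Q P) (e f : Fin 9) (x y : Bool) :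
    jv v e f x y + jv v e f x (!y) = uu v f (tok e x) := by
  unfold jv uu
  rw [hs (tok f false), hs (tok f true)]
  cases y <;> simp [add_comm]

lemma mid (hL : Loc v π μ) (m : ℕ) (c : ℕ → Fin 9) (hc : c (m + 3) = c 0)
    (x0 y0 x1 y1 : Bool)
    (H : π (c (m + 2)) + (π (c 0) + π (c 0) + (π (c 1) + π (c 1))) + π (c 2) ≤
      (jv v (c (m + 2)) (c 0) (run μ c (m + 2)) x0 +
        jv v (c (m + 2)) (c 0) (!run μ c (m + 2)) y0) +
      (jv v (c 0) (c 1) x0 x1 + jv v (c 0) (c 1) y0 y1) +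
      (jv v (c 1) (c 2) x1 (run μ c 2) + jv v (c 1) (c 2) y1 (!run μ c 2))) :
    ∃ o : ℕ → Bool, o (m + 3) = o 0 ∧ ∑ i ∈ range (m + 3), π (c i) ≤
      ∑ i ∈ range (m + 3), jv v (c i) (c (i + 1)) (o i) (o (i + 1)) := by
  let op : ℕ → Bool := fun i =>
    if i = 0 then x0 else if i = 1 then x1 else if i = m + 3 then x0 else run μ c i
  let om : ℕ → Bool := fun i =>
    if i = 0 then y0 else if i = 1 then y1 else if i = m + 3 then y0 else !run μ c i
  have split : ∀ g : ℕ → ℚ, ∑ i ∈ range (m + 3), g i =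
      g 0 + g 1 + ∑ i ∈ range m, g (i + 2) + g (m + 2) := by
    intro g
    rw [sum_range_succ, sum_range_succ', sum_range_succ']
    ring
  have hp : ∀ i, 2 ≤ i → i < m + 3 → op i = run μ c i ∧ om i = !run μ c i := by
    intro i h1 h2
    have a1 : i ≠ 0 := by omega
    have a2 : i ≠ 1 := by omega
    have a3 : i ≠ m + 3 := by omega
    simp [op, om, a1, a2, a3]
  have p0 : op 0 = x0 := by simp [op]
  have q0 : om 0 = y0 := by simp [om]
  have p1 : op 1 = x1 := by simp [op]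
  have q1 : om 1 = y1 := by simp [om]
  have pN : op (m + 3) = x0 := by simp [op]
  have qN : om (m + 3) = y0 := by simp [om]
  have hmid : ∑ i ∈ range m, (π (c (i + 2)) + π (c (i + 3))) ≤
      ∑ i ∈ range m, jv v (c (i + 2)) (c (i + 2 + 1)) (op (i + 2)) (op (i + 2 + 1)) +
      ∑ i ∈ range m, jv v (c (i + 2)) (c (i + 2 + 1)) (om (i + 2)) (om (i + 2 + 1)) := by
    rw [← sum_add_distrib]
    refine sum_le_sum fun i hi => ?_
    have hi' := mem_range.1 hi
    obtain ⟨a1, a2⟩ := hp (i + 2) (by omega) (by omega)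
    obtain ⟨a3, a4⟩ := hp (i + 2 + 1) (by omega) (by omega)
    rw [a1, a2, a3, a4]
    have := coupled (v := v) (μ := μ) (c (i + 2)) (c (i + 2 + 1)) (run μ c (i + 2))
    have h2 := hL.pair (c (i + 2)) (c (i + 2 + 1))
    rw [← this] at h2
    exact h2
  have e1 : ∑ i ∈ range m, π (c (i + 3)) + π (c 2) =
      ∑ i ∈ range m, π (c (i + 2)) + π (c (m + 2)) := by
    have a := sum_range_succ (fun i => π (c (i + 2))) m
    have b := sum_range_succ' (fun i => π (c (i + 2))) m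
    simp only [zero_add] at b
    rw [← a, b]
  rw [sum_add_distrib] at hmid
  have tot : 2 * ∑ i ∈ range (m + 3), π (c i) ≤
      ∑ i ∈ range (m + 3), jv v (c i) (c (i + 1)) (op i) (op (i + 1)) +
      ∑ i ∈ range (m + 3), jv v (c i) (c (i + 1)) (om i) (om (i + 1)) := by
    rw [split, split, split]
    obtain ⟨a1, a2⟩ := hp 2 le_rfl (by omega)
    obtain ⟨a3, a4⟩ := hp (m + 2) (by omega) (by omega)
    simp only [zero_add, show (1 : ℕ) + 1 = 2 from rfl, show m + 2 + 1 = m + 3 from rfl]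
    rw [p0, q0, p1, q1, pN, qN, a1, a2, a3, a4, hc]
    linarith
  by_cases h : ∑ i ∈ range (m + 3), π (c i) ≤
      ∑ i ∈ range (m + 3), jv v (c i) (c (i + 1)) (op i) (op (i + 1))
  · exact ⟨op, by rw [pN, p0], h⟩
  · exact ⟨om, by rw [qN, q0], by linarith [not_le.1 h]⟩

lemma soft (hs : ∀ P Q, v P Q = v Q P) (hL : Loc v π μ) (m : ℕ) (c : ℕ → Fin 9)
    (hc : c (m + 3) = c 0)
    (hn : ¬ ((hard (c 0) (c 1) ∧ μ (c 0) (c 1) = true) ∨ tf (c 0) (c 1))) :
    ∃ o : ℕ → Bool, o (m + 3) = o 0 ∧ ∑ i ∈ range (m + 3), π (c i) ≤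
      ∑ i ∈ range (m + 3), jv v (c i) (c (i + 1)) (o i) (o (i + 1)) := by
  rcases hL.soft _ _ hn (c (m + 2)) (c 2) with ⟨s, h⟩ | ⟨t, h⟩ | ⟨s, t, h⟩
  · refine mid hL m c hc (!s) (!s) (run μ c 1) (!run μ c 1) ?_
    rw [uu_left, uu_right hs]
    have := coupled (v := v) (μ := μ) (c 1) (c 2) (run μ c 1)
    have e : run μ c 2 = !(xor (run μ c 1) (μ (c 1) (c 2))) := rfl
    rw [e, this, Bool.not_not]
    exact h
  · refine mid hL m c hc (run μ c (m + 3)) (!run μ c (m + 3)) (!t) (!t) ?_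
    rw [uu_left, uu_right hs]
    have := coupled (v := v) (μ := μ) (c (m + 2)) (c 0) (run μ c (m + 2))
    have e : run μ c (m + 3) = !(xor (run μ c (m + 2)) (μ (c (m + 2)) (c 0))) := by
      rw [← hc]; rfl
    rw [e, this, Bool.not_not]
    exact h
  · refine mid hL m c hc (!s) (!s) (!t) (!t) ?_
    rw [uu_left, uu_right hs]
    simp only [jv, Bool.not_not]
    exact h

lemma softFin (hs : ∀ P Q, v P Q = v Q P) (hL : Loc v π μ) (m : ℕ) (c : Fin (m + 3) → Fin 9)
    (hn : ¬ ((hard (c 0) (c 1) ∧ μ (c 0) (c 1) = true) ∨ tf (c 0) (c 1))) :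
    ∃ o : Fin (m + 3) → Bool, ∑ i, π (c i) ≤ ∑ i, jv v (c i) (c (i + 1)) (o i) (o (i + 1)) := by
  let c' : ℕ → Fin 9 := fun n => c (Fin.ofNat (m + 3) n)
  have h0 : c' 0 = c 0 := rfl
  have h1 : c' 1 = c 1 := rfl
  have hN : c' (m + 3) = c' 0 := by
    simp only [c']
    congr 1
    ext
    simp [Fin.ofNat]
  obtain ⟨o, ho, h⟩ := soft hs hL m c' hN (by rw [h0, h1]; exact hn)
  refine ⟨fun i => o i.val, ?_⟩
  rw [← Fin.sum_univ_eq_sum_range (fun i => π (c' i)),
    ← Fin.sum_univ_eq_sum_range (fun i => jv v (c' i) (c' (i + 1)) (o i) (o (i + 1)))] at h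
  have a1 : ∀ i : Fin (m + 3), c' i.val = c i := by
    intro i
    simp only [c']
    congr 1
    ext
    simp [Fin.ofNat, Nat.mod_eq_of_lt i.isLt]
  have a2 : ∀ i : Fin (m + 3), c' (i.val + 1) = c (i + 1) := by
    intro i
    simp only [c']
    congr 1
  have a3 : ∀ i : Fin (m + 3), o (i.val + 1) = o (i + 1 : Fin (m + 3)).val := by
    intro i
    rw [Fin.val_add_one]
    split_ifs with hi
    · rw [hi, Fin.val_last]; exact ho
    · rfl
  simpa only [a1, a2, a3] using h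

lemma rigid (hz : ∀ P Q : Fin 5, 2 ≤ P.val → 2 ≤ Q.val → P ≠ Q → v P Q = 0) (e f : Fin 9)
    (hr : (hard e f ∧ μ e f = true) ∨ tf e f) (x y : Bool) :
    jv v e f (if e.val < 6 then false else x) (if f.val < 6 then false else !μ e f) +
      jv v e f (if e.val < 6 then true else μ e f) (if f.val < 6 then true else y) =
      idl v μ e f := by
  rcases hr with ⟨h, hm⟩ | ⟨h, h' | h'⟩
  · have he : e.val < 6 := by unfold hard at h; omega
    have hf : f.val < 6 := by unfold hard at h; omega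
    simp [jv, idl, he, hf, hm]
  · have hf : ¬ f.val < 6 := by omega
    have z : ∀ b, v (tok e true) (tok f b) = 0 := by
      intro b
      have k : ∀ e f : Fin 9, ∀ b, e.val % 3 = f.val % 3 → e.val < 6 → 6 ≤ f.val →
          2 ≤ (tok e true).val ∧ 2 ≤ (tok f b).val ∧ tok e true ≠ tok f b := by decide
      obtain ⟨k1, k2, k3⟩ := k e f b h h'.1 h'.2
      exact hz _ _ k1 k2 k3
    simp [jv, idl, h'.1, hf, z]
  · have he : ¬ e.val < 6 := by omega
    have z : ∀ b, v (tok e b) (tok f true) = 0 := by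
      intro b
      have k : ∀ e f : Fin 9, ∀ b, e.val % 3 = f.val % 3 → f.val < 6 → 6 ≤ e.val →
          2 ≤ (tok e b).val ∧ 2 ≤ (tok f true).val ∧ tok e b ≠ tok f true := by decide
      obtain ⟨k1, k2, k3⟩ := k e f b h h'.1 h'.2
      exact hz _ _ k1 k2 k3
    cases hm : μ e f <;> simp [jv, idl, h'.1, he, z, hm]

lemma core (hs : ∀ P Q, v P Q = v Q P)
    (hz : ∀ P Q : Fin 5, 2 ≤ P.val → 2 ≤ Q.val → P ≠ Q → v P Q = 0) (hL : Loc v π μ)
    (k : ℕ) (hk : k ≠ 0) (c : Fin (k + 1) → Fin 9) :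
    ∃ o : Fin (k + 1) → Bool, ∑ i, π (c i) ≤ ∑ i, jv v (c i) (c (i + 1)) (o i) (o (i + 1)) := by
  by_cases hr : ∀ i, (hard (c i) (c (i + 1)) ∧ μ (c i) (c (i + 1)) = true) ∨ tf (c i) (c (i + 1))
  · let op : Fin (k + 1) → Bool := fun i =>
      if (c i).val < 6 then false else !μ (c (i - 1)) (c i)
    let om : Fin (k + 1) → Bool := fun i =>
      if (c i).val < 6 then true else μ (c i) (c (i + 1))
    have tot : ∑ i, π (c i) + ∑ i, π (c (i + 1)) ≤
        ∑ i, jv v (c i) (c (i + 1)) (op i) (op (i + 1)) +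
        ∑ i, jv v (c i) (c (i + 1)) (om i) (om (i + 1)) := by
      rw [← sum_add_distrib, ← sum_add_distrib]
      refine sum_le_sum fun i _ => ?_
      have := rigid (μ := μ) hz (c i) (c (i + 1)) (hr i) (!μ (c (i - 1)) (c i))
        (μ (c (i + 1)) (c (i + 1 + 1)))
      simp only [op, om, add_sub_cancel_right]
      rw [this]
      exact hL.pair _ _
    have e : ∑ i, π (c (i + 1)) = ∑ i, π (c i) :=
      Equiv.sum_comp (Equiv.addRight (1 : Fin (k + 1))) (fun i => π (c i))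
    rw [e] at tot
    by_cases h : ∑ i, π (c i) ≤ ∑ i, jv v (c i) (c (i + 1)) (op i) (op (i + 1))
    · exact ⟨op, h⟩
    · exact ⟨om, by linarith [not_le.1 h]⟩
  · obtain ⟨j, hj⟩ := not_forall.1 hr
    match k, hk, c, j, hj with
    | 1, _, c, _, _ =>
      refine ⟨![false, !μ (c 0) (c 1)], ?_⟩
      have := hL.pair (c 0) (c 1)
      rw [Fin.sum_univ_two, Fin.sum_univ_two]
      simp only [jv, idl] at this ⊢
      have e1 : (0 : Fin 2) + 1 = 1 := rfl
      have e2 : (1 : Fin 2) + 1 = 0 := rfl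
      rw [e1, e2]
      simp only [Matrix.cons_val_zero, Matrix.cons_val_one, Bool.not_not, Bool.not_false]
      rw [hs (tok (c 1) _) (tok (c 0) true)]
      exact this
    | m + 2, _, c, j, hj =>
      obtain ⟨o, ho⟩ := softFin hs hL m (fun i => c (i + j))
        (by simpa only [zero_add, add_comm (1 : Fin (m + 3)) j] using hj)
      refine ⟨fun i => o (i - j), ?_⟩
      rw [← Equiv.sum_comp (Equiv.addRight j) (fun i => π (c i)),
        ← Equiv.sum_comp (Equiv.addRight j)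
          (fun i => jv v (c i) (c (i + 1)) (o (i - j)) (o (i + 1 - j)))]
      simp only [Equiv.coe_addRight, add_sub_cancel_right]
      have e : ∀ i : Fin (m + 3), i + j + 1 = i + 1 + j := fun i => add_right_comm _ _ _
      simp only [e, add_sub_cancel_right]
      exact ho

end DCycJ

open DCycJ in
theorem dcyc (h : CycStmt) : DCycStmt := by
  intro v π μ hs hz hL β _ _ σ c
  obtain ⟨Ω, _, k, e, he⟩ := h β σ
  have key : ∀ ω, ∃ o : Fin (k ω + 1) → Bool, ∑ i, π (c (e ⟨ω, i⟩)) ≤ ∑ i,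
      if σ (e ⟨ω, i⟩) = e ⟨ω, i⟩ then
        v (tok (c (e ⟨ω, i⟩)) false) (tok (c (e ⟨ω, i⟩)) false) +
          v (tok (c (e ⟨ω, i⟩)) true) (tok (c (e ⟨ω, i⟩)) true) -
          v (tok (c (e ⟨ω, i⟩)) false) (tok (c (e ⟨ω, i⟩)) true)
      else v (tok (c (e ⟨ω, i⟩)) (o i)) (tok (c (e ⟨ω, i + 1⟩)) (!o (i + 1))) := by
    intro ω
    by_cases hk : k ω = 0
    · refine ⟨fun _ => false, sum_le_sum fun i _ => ?_⟩
      have hi : i + 1 = i := by
        have g : ∀ a b : Fin (k ω + 1), a = b := fun a b => Fin.ext (by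
          have h1 := a.isLt
          have h2 := b.isLt
          omega)
        exact g _ _
      rw [he, hi, if_pos rfl]
      linarith [hL.loop (c (e ⟨ω, i⟩))]
    · obtain ⟨o, ho⟩ := core hs hz hL (k ω) hk (fun i => c (e ⟨ω, i⟩))
      refine ⟨o, ho.trans (le_of_eq (sum_congr rfl fun i _ => ?_))⟩
      have hi : σ (e ⟨ω, i⟩) ≠ e ⟨ω, i⟩ := by
        rw [he]
        intro hh
        have h1 : i + 1 = i := eq_of_heq (Sigma.mk.inj (e.injective hh)).2
        have h2 : (1 : Fin (k ω + 1)) = 0 := by simpa using h1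
        have h3 := congrArg Fin.val h2
        rw [Fin.val_one', Nat.mod_eq_of_lt (by omega)] at h3
        simp at h3
      rw [if_neg hi]
      rfl
  choose o ho using key
  refine ⟨fun b => o (e.symm b).1 (e.symm b).2, ?_⟩
  rw [← e.sum_comp, ← e.sum_comp, Fintype.sum_sigma, Fintype.sum_sigma]
  refine sum_le_sum fun ω _ => (ho ω).trans (le_of_eq (sum_congr rfl fun i _ => ?_))
  have g : ∀ x, o (e.symm (e x)).1 (e.symm (e x)).2 = o x.1 x.2 := fun x => by
    rw [e.symm_apply_apply]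
  rw [he]
  simp only [g]

end Pool.Agent.Lib.MP_453ac3_co.UB
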