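import Pool.Agent.Lib.MP_453ac3_co.UB.St

/-! Changing the state on one window changes the totals by a bounded amount. -/

namespace Pool.Agent.Lib.MP_453ac3_co.UB

open Finset

namespace DeltaJ

/-- The coordinate of the same colour at the other pole. -/
def mir (k i : Fin 9) : ℤ :=
  if (k.val < 3 ∧ i.val = k.val + 3) ∨ (3 ≤ k.val ∧ k.val < 6 ∧ i.val + 3 = k.val) then 1 else 0

theorem mir_bd (k i : Fin 9) : 0 ≤ mir k i ∧ mir k i ≤ 1 := by
  unfold mir
  split_ifs <;> simp

theorem f1 : ∀ (e f : Fin 9) (x y : Bool), (tok e x).val + (tok f (!y)).val = 1 → hard e f := by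
  decide +kernel

theorem f2 : ∀ (e f : Fin 9), hard e f → ∀ (D : Bool) (p k : Fin 3) (i : Fin 9),
    dem (tok e D) (tok f (!D)) p k i - (if D = true then mir e i else 0) -
      (if D = false then mir f i else 0) = 0 := by
  decide +kernel

theorem f3 : ∀ (e f : Fin 9), hard e f → (tok e false).val + (tok f (!true)).val = 1 := by
  decide +kernel

theorem f4 : ∀ e : Fin 9, ¬ hard e e := by decide +kernel

theorem f5 : ∀ (e : Fin 9) (a : Fin 3), ¬ hard e (tc a) ∧ ¬ hard (tc a) e := by decide +kernel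

variable {β : Type} [DecidableEq β] (I : Inst β)

/-- Corrected supply of a junction. -/
def gg (u : β → Dc) (b : β) (i : Fin 9) : ℤ :=
  I.sup b (u b) (u (I.σ b)) i - (if (u b).1 = true then mir (I.c b) i else 0) -
    (if (u (I.σ b)).1 = false then mir (I.c (I.σ b)) i else 0)

theorem gg_bd (h : BasStmt) (u : β → Dc) (b : β) (i : Fin 9) :
    -3 ≤ gg I u b i ∧ gg I u b i ≤ 3 := by
  have h1 := abs_le.1 (h.bound β I b (u b) (u (I.σ b)) i)
  have h2 := mir_bd (I.c b) i
  have h3 := mir_bd (I.c (I.σ b)) i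
  unfold gg
  split_ifs <;> omega

theorem gg_zero (u : β → Dc) (b : β) (i : Fin 9) (hh : hard (I.c b) (I.c (I.σ b)))
    (he : (u b).1 = (u (I.σ b)).1) : gg I u b i = 0 := by
  have hne : ¬ (I.σ b = b ∧ b ∉ I.fx) := fun e => f4 (I.c b) (by rw [e.1] at hh; exact hh)
  unfold gg Inst.sup
  rw [if_neg hne, ← he]
  exact f2 _ _ hh _ _ _ _

omit [DecidableEq β] in
theorem no_ft {u : β → Dc} (hu : I.Adm ∅ u) (b : β) (hh : hard (I.c b) (I.c (I.σ b)))
    (h1 : (u b).1 = false) (h2 : (u (I.σ b)).1 = true) : False := by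
  have : I.NS u b := by
    unfold Inst.NS
    rw [h1, h2]
    exact f3 _ _ hh
  exact absurd (hu.2 b this) (Finset.notMem_empty _)

variable [Fintype β]

theorem sum_gg (u : β → Dc) (i : Fin 9) :
    ∑ b, gg I u b i = I.y u i - ∑ b, mir (I.c b) i := by
  unfold gg Inst.y
  rw [sum_sub_distrib, sum_sub_distrib,
    Equiv.sum_comp I.σ fun b => if (u b).1 = false then mir (I.c b) i else 0, sub_sub,
    ← sum_add_distrib]
  congr 1
  refine sum_congr rfl fun b _ => ?_
  cases (u b).1 <;> simp

variable (win : β → β) (w : β)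

/-- Junctions of the window that are not hard. -/
def nh (b : β) : ℤ := if win b = w ∧ ¬ hard (I.c b) (I.c (I.σ b)) then 1 else 0

/-- Entries into the window. -/
def en (b : β) : ℤ := if win b ≠ w ∧ win (I.σ b) = w then 1 else 0

/-- Sources in the window. -/
def src (u : β → Dc) (b : β) : ℤ :=
  if win b = w ∧ hard (I.c b) (I.c (I.σ b)) ∧ (u b).1 = true ∧ (u (I.σ b)).1 = false then 1 else 0

omit [Fintype β] in
theorem nonneg (u : β → Dc) (b : β) :
    0 ≤ nh I win w b ∧ 0 ≤ en I win w b ∧ 0 ≤ src I win w u b := by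
  unfold nh en src
  refine ⟨?_, ?_, ?_⟩ <;> split_ifs <;> simp

theorem sum_en (hw : ∀ b, win (I.σ b) ≠ win b → ¬ hard (I.c b) (I.c (I.σ b))) :
    ∑ b, en I win w b ≤ ∑ b, nh I win w b := by
  have e := Equiv.sum_comp I.σ fun b => if win b = w then (1 : ℤ) else 0
  have h1 : ∑ b, en I win w b ≤ ∑ b, (nh I win w b +
      ((if win (I.σ b) = w then (1 : ℤ) else 0) - if win b = w then (1 : ℤ) else 0)) := by
    refine sum_le_sum fun b _ => ?_
    have := hw b
    unfold en nh
    by_cases p : win b = w <;> by_cases q : win (I.σ b) = w <;>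
      by_cases r : hard (I.c b) (I.c (I.σ b)) <;> simp_all
  rw [sum_add_distrib, sum_sub_distrib, e] at h1
  linarith

theorem sum_src (hw : ∀ b, win (I.σ b) ≠ win b → ¬ hard (I.c b) (I.c (I.σ b)))
    {u : β → Dc} (hu : I.Adm ∅ u) : ∑ b, src I win w u b ≤ 2 * ∑ b, nh I win w b := by
  have e := Equiv.sum_comp I.σ fun b => if win b = w ∧ (u b).1 = false then (1 : ℤ) else 0
  have h1 : ∑ b, src I win w u b ≤ ∑ b, (2 * nh I win w b +
      ((if win (I.σ b) = w ∧ (u (I.σ b)).1 = false then (1 : ℤ) else 0) -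
        if win b = w ∧ (u b).1 = false then (1 : ℤ) else 0)) := by
    refine sum_le_sum fun b _ => ?_
    have h2 := hw b
    have h3 := no_ft I hu b
    unfold src nh
    by_cases p : win b = w <;> by_cases q : win (I.σ b) = w <;>
      by_cases r : hard (I.c b) (I.c (I.σ b)) <;> cases h4 : (u b).1 <;>
      cases h5 : (u (I.σ b)).1 <;> simp_all
  rw [sum_add_distrib, sum_sub_distrib, e, ← mul_sum] at h1
  linarith

omit [Fintype β] in
theorem adm_mix (hw : ∀ b, win (I.σ b) ≠ win b → ¬ hard (I.c b) (I.c (I.σ b)))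
    {s s' : β → Dc} (hs : I.Adm ∅ s) (hs' : I.Adm ∅ s') : I.Adm ∅ (mix win s s' w) := by
  refine ⟨fun b hb => ?_, fun b hb => ?_⟩
  · unfold mix
    split_ifs
    · exact hs'.1 b hb
    · exact hs.1 b hb
  · have hh : hard (I.c b) (I.c (I.σ b)) := f1 _ _ _ _ hb
    have e : win (I.σ b) = win b := by
      by_contra hc
      exact hw b hc hh
    unfold Inst.NS mix at hb
    rw [e] at hb
    by_cases p : win b = w
    · rw [if_pos p, if_pos p] at hb
      exact absurd (hs'.2 b hb) (Finset.notMem_empty _)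
    · rw [if_neg p, if_neg p] at hb
      exact absurd (hs.2 b hb) (Finset.notMem_empty _)

omit [Fintype β] in
theorem gg_src {u : β → Dc} (hu : I.Adm ∅ u) (b : β) (i : Fin 9) (p : win b = w)
    (hh : hard (I.c b) (I.c (I.σ b))) : gg I u b i = 0 ∨ src I win w u b = 1 := by
  by_cases he : (u b).1 = (u (I.σ b)).1
  · exact Or.inl (gg_zero I u b i hh he)
  · right
    have h3 := no_ft I hu b hh
    unfold src
    cases h4 : (u b).1 <;> cases h5 : (u (I.σ b)).1 <;> simp_all

omit [Fintype β] in
theorem term_y (h : BasStmt) {s s' : β → Dc} (hs : I.Adm ∅ s)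
    (hu : I.Adm ∅ (mix win s s' w)) (b : β) (i : Fin 9) :
    |gg I (mix win s s' w) b i - gg I s b i| ≤
      6 * (en I win w b + nh I win w b + src I win w (mix win s s' w) b + src I win w s b) := by
  have b1 := gg_bd I h (mix win s s' w) b i
  have b2 := gg_bd I h s b i
  have n1 := nonneg I win w (mix win s s' w) b
  have n2 := nonneg I win w s b
  rw [abs_le]
  by_cases p : win b = w
  · by_cases hh : hard (I.c b) (I.c (I.σ b))
    · have c1 := gg_src I win w hu b i p hh
      have c2 := gg_src I win w hs b i p hh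
      omega
    · have : nh I win w b = 1 := if_pos ⟨p, hh⟩
      omega
  · by_cases q : win (I.σ b) = w
    · have : en I win w b = 1 := if_pos ⟨p, q⟩
      omega
    · have e1 : mix win s s' w b = s b := if_neg p
      have e2 : mix win s s' w (I.σ b) = s (I.σ b) := if_neg q
      have : gg I (mix win s s' w) b i = gg I s b i := by
        unfold gg
        rw [e1, e2]
      omega

omit [Fintype β] in
theorem term_z (s s' : β → Dc) (b : β) (t : Bool × Fin 3 × Bool) :
    |I.rdy b (mix win s s' w b) (mix win s s' w (I.σ b)) (mix win s s' w (I.σ (I.σ b))) t -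
      I.rdy b (s b) (s (I.σ b)) (s (I.σ (I.σ b))) t| ≤
      nh I win w b + nh I win w (I.σ b) + en I win w (I.σ b) := by
  have n1 := nonneg I win w s b
  have n2 := nonneg I win w s (I.σ b)
  have bd : ∀ x x' x'', 0 ≤ I.rdy b x x' x'' t ∧ I.rdy b x x' x'' t ≤ 1 := by
    intro x x' x''
    unfold Inst.rdy
    split_ifs <;> simp
  have b1 := bd (mix win s s' w b) (mix win s s' w (I.σ b)) (mix win s s' w (I.σ (I.σ b)))
  have b2 := bd (s b) (s (I.σ b)) (s (I.σ (I.σ b)))
  rw [abs_le]
  by_cases ha : I.IsAdj t.1 t.2.1 b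
  · have hc := ha.2.2.1
    by_cases p : win b = w
    · have : nh I win w b = 1 := if_pos ⟨p, by rw [hc]; exact (f5 _ _).1⟩
      omega
    · by_cases q : win (I.σ b) = w
      · have : nh I win w (I.σ b) = 1 := if_pos ⟨q, by rw [hc]; exact (f5 _ _).2⟩
        omega
      · by_cases r : win (I.σ (I.σ b)) = w
        · have : en I win w (I.σ b) = 1 := if_pos ⟨q, r⟩
          omega
        · have e1 : mix win s s' w b = s b := if_neg p
          have e2 : mix win s s' w (I.σ b) = s (I.σ b) := if_neg q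
          have e3 : mix win s s' w (I.σ (I.σ b)) = s (I.σ (I.σ b)) := if_neg r
          rw [e1, e2, e3]
          omega
  · have z : ∀ x x' x'', I.rdy b x x' x'' t = 0 := fun x x' x'' => if_neg fun e => ha e.1
    rw [z, z]
    omega

end DeltaJ

open DeltaJ in
theorem delta (h : BasStmt) : DeltaStmt := by
  intro β _ _ I win K hw hK s s' hs hs' w
  have hu := adm_mix I win w hw hs hs'
  have hn : ∑ b, nh I win w b ≤ K := by
    unfold nh
    rw [sum_boole]
    exact_mod_cast hK w
  have hK0 : (0 : ℤ) ≤ K := Int.natCast_nonneg K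
  have he := sum_en I win w hw
  refine ⟨hu, fun i => ?_, fun t => ?_⟩
  · have e : I.y (mix win s s' w) i - I.y s i =
        ∑ b, (gg I (mix win s s' w) b i - gg I s b i) := by
      rw [sum_sub_distrib, sum_gg, sum_gg]
      ring
    have h1 := sum_le_sum fun b (_ : b ∈ univ) => term_y I win w h hs hu b i
    rw [← mul_sum, sum_add_distrib, sum_add_distrib, sum_add_distrib] at h1
    have h2 := sum_src I win w hw hu
    have h3 := sum_src I win w hw hs
    rw [e]
    refine (abs_sum_le_sum_abs _ _).trans ?_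
    linarith
  · unfold Inst.z
    rw [← sum_sub_distrib]
    have h1 := sum_le_sum fun b (_ : b ∈ univ) => term_z I win w s s' b t
    rw [sum_add_distrib, sum_add_distrib, Equiv.sum_comp I.σ (nh I win w),
      Equiv.sum_comp I.σ (en I win w)] at h1
    refine (abs_sum_le_sum_abs _ _).trans ?_
    linarith

end Pool.Agent.Lib.MP_453ac3_co.UB
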