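import Pool.Agent.Lib.MP_453ac3_co.UB.St
import Pool.Agent.Lib.MP_453ac3_co.Graph

/-! The graph with five hubs: planarity and degrees. -/

namespace Pool.Agent.Lib.MP_453ac3_co.UB

open Sum

namespace GraphJ

variable {β : Type} (k : β → Fin 9)

theorem adj_hub_hub (x y : Fin 5) :
    (GG k).Adj (inl x) (inl y) ↔ x ≠ y ∧ x.val + y.val ≠ 1 := by
  simp only [GG, rel, SimpleGraph.fromRel_adj, ne_eq, inl.injEq]
  rw [add_comm y.val x.val, or_self]

theorem adj_block (j : β) (c : Bool) (v : VV β) : (GG k).Adj (inr (inl (j, c))) v ↔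
    v = inl (tok (k j) false) ∨ v = inl (tok (k j) true) ∨ v = inr (inl (j, !c)) := by
  rcases v with x | ⟨j', c'⟩ | z
  · simp [GG, rel]
  · simp only [GG, rel, SimpleGraph.fromRel_adj, ne_eq, inr.injEq, inl.injEq, Prod.mk.injEq,
      reduceCtorEq, false_or]
    cases c <;> cases c' <;> simp [eq_comm]
  · simp [GG, rel]

theorem adj_pend (z : Unit) (v : VV β) : (GG k).Adj (inr (inr z)) v ↔ v = inl 2 := by
  rcases v with x | ⟨j', c'⟩ | z
  · simp [GG, rel]
  · simp [GG, rel]
  · simp [GG, rel]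

/-- A connected set without hubs is the pendant vertex or lies in a block. -/
theorem hubfree {S : Set (VV β)} (h : ((GG k).induce S).Connected)
    (hS : ∀ x, inl x ∉ S) : (∃ z, S ⊆ {inr (inr z)}) ∨
      ∃ j c, inr (inl (j, c)) ∈ S ∧ S ⊆ {inr (inl (j, c)), inr (inl (j, !c))} := by
  obtain ⟨⟨a, ha⟩⟩ := h.nonempty
  rcases a with x | ⟨j, c⟩ | z
  · exact absurd ha (hS x)
  · refine Or.inr ⟨j, c, ha, ?_⟩
    refine conn_ind h (· ∈ ({inr (inl (j, c)), inr (inl (j, !c))} : Set (VV β))) ?_ ha (by simp)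
    intro a _ b hb hab hPa
    rcases hPa with rfl | rfl
    · rcases (adj_block k _ _ _).1 hab with rfl | rfl | rfl
      · exact absurd hb (hS _)
      · exact absurd hb (hS _)
      · simp
    · rcases (adj_block k _ _ _).1 hab with rfl | rfl | rfl
      · exact absurd hb (hS _)
      · exact absurd hb (hS _)
      · simp
  · refine Or.inl ⟨z, ?_⟩
    refine conn_ind h (· ∈ ({inr (inr z)} : Set (VV β))) ?_ ha (by simp)
    intro a _ b hb hab hPa
    rcases hPa with rfl
    rw [(adj_pend k _ _).1 hab] at hb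
    exact absurd hb (hS _)

/-- The outside neighbours of a hub-free connected set lie among two hubs and one more vertex,
whose neighbours other than the two hubs lie in the set. -/
theorem hubfree_nbrs {S : Set (VV β)} (h : ((GG k).induce S).Connected)
    (hS : ∀ x, inl x ∉ S) : ∃ (x y : Fin 5) (m : VV β),
      (∀ a ∈ S, ∀ b, b ∉ S → (GG k).Adj a b → b = inl x ∨ b = inl y ∨ b = m) ∧
      (∀ b, (GG k).Adj m b → b = inl x ∨ b = inl y ∨ b ∈ S ∨ m = inl x) := by
  rcases hubfree k h hS with ⟨z, hz⟩ | ⟨j, c, hj, hsub⟩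
  · refine ⟨2, 2, inl 2, ?_, fun b _ => by simp⟩
    intro a ha b _ hab
    rw [hz ha] at hab
    exact Or.inl ((adj_pend k _ _).1 hab)
  · refine ⟨tok (k j) false, tok (k j) true, inr (inl (j, !c)), ?_, ?_⟩
    · intro a ha b hb hab
      rcases hsub ha with rfl | rfl
      · exact (adj_block k _ _ _).1 hab
      · rcases (adj_block k _ _ _).1 hab with rfl | rfl | rfl
        · simp
        · simp
        · simp only [Bool.not_not] at hb
          exact absurd hj hb
    · intro b hb
      rcases (adj_block k _ _ _).1 hb with rfl | rfl | rfl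
      · simp
      · simp
      · simp [hj]

theorem exists_hubfree {ι : Type} [Fintype ι] (hι : 5 < Fintype.card ι) (f : ι → Set (VV β))
    (hd : ∀ i j, i ≠ j → Disjoint (f i) (f j)) : ∃ i, ∀ x, inl x ∉ f i := by
  by_contra hc
  push Not at hc
  choose g hg using hc
  obtain ⟨i, j, hij, e⟩ := Fintype.exists_ne_map_eq_of_card_lt g (by simpa using hι)
  exact Set.disjoint_left.1 (hd i j hij) (hg i) (e ▸ hg j)

/-- The vertices that can lie in a connected set whose only hub is `x`. -/
def Near (x : Fin 5) (v : VV β) : Prop :=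
  v = inl x ∨ (∃ j c, v = inr (inl (j, c)) ∧ (x = tok (k j) false ∨ x = tok (k j) true)) ∨
    (v = inr (inr ()) ∧ x = 2)

theorem near_of {S : Set (VV β)} (h : ((GG k).induce S).Connected) {x : Fin 5}
    (hx : inl x ∈ S) (hu : ∀ y, inl y ∈ S → y = x) : ∀ v ∈ S, Near k x v := by
  refine conn_ind h (Near k x) ?_ hx (Or.inl rfl)
  intro a ha b hb hab hPa
  rcases b with y | ⟨j, c⟩ | z
  · exact Or.inl (by rw [hu y hb])
  · refine Or.inr (Or.inl ⟨j, c, rfl, ?_⟩)
    rcases (adj_block k _ _ _).1 hab.symm with rfl | rfl | rfl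
    · exact Or.inl (hu _ ha).symm
    · exact Or.inr (hu _ ha).symm
    · rcases hPa with h1 | ⟨j', c', h1, h2⟩ | ⟨h1, -⟩
      · simp at h1
      · simp only [inr.injEq, inl.injEq, Prod.mk.injEq] at h1
        rw [h1.1]
        exact h2
      · simp at h1
  · refine Or.inr (Or.inr ⟨rfl, ?_⟩)
    rw [(adj_pend k _ _).1 hab.symm] at ha
    exact (hu _ ha).symm

theorem no_poles (e : Fin 9) (h0 : 0 = tok e false ∨ 0 = tok e true)
    (h1 : 1 = tok e false ∨ 1 = tok e true) : False := by
  revert e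
  decide

theorem not_adj_near {a b : VV β} (ha : Near k 0 a) (hb : Near k 1 b) : ¬ (GG k).Adj a b := by
  intro hab
  rcases ha with rfl | ⟨j, c, rfl, hj⟩ | ⟨-, h⟩
  · rcases hb with rfl | ⟨j', c', rfl, hj'⟩ | ⟨-, h⟩
    · exact ((adj_hub_hub k _ _).1 hab).2 (by decide)
    · refine no_poles (k j') ?_ hj'
      rcases (adj_block k _ _ _).1 hab.symm with h | h | h
      · exact Or.inl (by simpa using h)
      · exact Or.inr (by simpa using h)
      · simp at h
    · exact absurd h (by decide)
  · rcases hb with rfl | ⟨j', c', rfl, hj'⟩ | ⟨-, h⟩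
    · refine no_poles (k j) hj ?_
      rcases (adj_block k _ _ _).1 hab with h | h | h
      · exact Or.inl (by simpa using h)
      · exact Or.inr (by simpa using h)
      · simp at h
    · rcases (adj_block k _ _ _).1 hab with h | h | h
      · simp at h
      · simp at h
      · simp only [inr.injEq, inl.injEq, Prod.mk.injEq] at h
        rw [h.1] at hj'
        exact no_poles (k j) hj hj'
    · exact absurd h (by decide)
  · exact absurd h (by decide)

theorem no_K5 : ¬ ∃ f : Fin 5 → Set (VV β),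
      (∀ i, ((GG k).induce (f i)).Connected) ∧
      (∀ i j, i ≠ j → Disjoint (f i) (f j)) ∧
      (∀ i j, i ≠ j → ∃ a ∈ f i, ∃ b ∈ f j, (GG k).Adj a b) := by
  rintro ⟨f, h1, h2, h3⟩
  by_cases hfree : ∃ i, ∀ x, inl x ∉ f i
  · obtain ⟨i, hi⟩ := hfree
    obtain ⟨x, y, m, hm, -⟩ := hubfree_nbrs k (h1 i) hi
    have key : ∀ j : {j // j ≠ i}, ∃ u : Fin 3, (![inl x, inl y, m] u : VV β) ∈ f j.1 := by
      rintro ⟨j, hj⟩
      obtain ⟨a, ha, b, hb, hab⟩ := h3 i j hj.symm
      have hb' : b ∉ f i := fun hh => Set.disjoint_left.1 (h2 i j hj.symm) hh hb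
      rcases hm a ha b hb' hab with rfl | rfl | rfl
      · exact ⟨0, hb⟩
      · exact ⟨1, hb⟩
      · exact ⟨2, hb⟩
    choose g hg using key
    obtain ⟨j, j', hjj, e⟩ := Fintype.exists_ne_map_eq_of_card_lt g (by simp)
    exact Set.disjoint_left.1 (h2 j.1 j'.1 fun hh => hjj (Subtype.ext hh)) (hg j) (e ▸ hg j')
  · push Not at hfree
    choose g hg using hfree
    have hinj : Function.Injective g := by
      intro i j e
      by_contra hij
      exact Set.disjoint_left.1 (h2 i j hij) (hg i) (e ▸ hg j)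
    have hsurj := Finite.injective_iff_surjective.1 hinj
    have hu : ∀ i y, inl y ∈ f i → y = g i := by
      intro i y hy
      obtain ⟨j, rfl⟩ := hsurj y
      by_contra hne
      exact Set.disjoint_left.1 (h2 j i fun e => hne (by rw [e])) (hg j) hy
    obtain ⟨i0, e0⟩ := hsurj 0
    obtain ⟨i1, e1⟩ := hsurj 1
    have hne : i0 ≠ i1 := fun e => by
      rw [e, e1] at e0
      exact absurd e0 (by decide)
    obtain ⟨a, ha, b, hb, hab⟩ := h3 i0 i1 hne
    exact not_adj_near k (e0 ▸ near_of k (h1 i0) (hg i0) (hu i0) a ha)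
      (e1 ▸ near_of k (h1 i1) (hg i1) (hu i1) b hb) hab

theorem no_K33_aux (f g : Fin 3 → Set (VV β))
    (hf : ∀ i, ((GG k).induce (f i)).Connected)
    (hg : ∀ i, ((GG k).induce (g i)).Connected)
    (dff : ∀ i j, i ≠ j → Disjoint (f i) (f j)) (dgg : ∀ i j, i ≠ j → Disjoint (g i) (g j))
    (dfg : ∀ i j, Disjoint (f i) (g j))
    (ha : ∀ i j, ∃ a ∈ f i, ∃ b ∈ g j, (GG k).Adj a b) (i : Fin 3)
    (hi : ∀ x, inl x ∉ f i) : False := by
  obtain ⟨x, y, m, hm, hm'⟩ := hubfree_nbrs k (hf i) hi
  have key : ∀ j : Fin 3, ∃ u : Fin 3, (![inl x, inl y, m] u : VV β) ∈ g j := by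
    intro j
    obtain ⟨a, ha, b, hb, hab⟩ := ha i j
    have hb' : b ∉ f i := fun hh => Set.disjoint_left.1 (dfg i j) hh hb
    rcases hm a ha b hb' hab with rfl | rfl | rfl
    · exact ⟨0, hb⟩
    · exact ⟨1, hb⟩
    · exact ⟨2, hb⟩
  choose u hu using key
  have hinj : Function.Injective u := by
    intro j j' e
    by_contra hjj
    exact Set.disjoint_left.1 (dgg j j' hjj) (hu j) (e ▸ hu j')
  have hsurj := Finite.injective_iff_surjective.1 hinj
  obtain ⟨j0, e0⟩ := hsurj 0
  obtain ⟨j1, e1⟩ := hsurj 1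
  obtain ⟨j2, e2⟩ := hsurj 2
  have m0 : inl x ∈ g j0 := by simpa [e0] using hu j0
  have m1 : inl y ∈ g j1 := by simpa [e1] using hu j1
  have m2 : m ∈ g j2 := by simpa [e2] using hu j2
  have n0 : j0 ≠ j2 := fun e => by rw [e, e2] at e0; exact absurd e0 (by decide)
  have n1 : j1 ≠ j2 := fun e => by rw [e, e2] at e1; exact absurd e1 (by decide)
  have x0 : inl x ∉ g j2 := fun hh => Set.disjoint_left.1 (dgg _ _ n0) m0 hh
  have x1 : inl y ∉ g j2 := fun hh => Set.disjoint_left.1 (dgg _ _ n1) m1 hh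
  have hall : ∀ b ∈ g j2, b = m := by
    refine conn_ind (hg j2) (· = m) ?_ m2 rfl
    rintro a _ b hb hab rfl
    rcases hm' b hab with rfl | rfl | hh | hh
    · exact absurd hb x0
    · exact absurd hb x1
    · exact absurd hb (Set.disjoint_left.1 (dfg i j2) hh)
    · exact absurd (hh ▸ m2) x0
  obtain ⟨i', hi'⟩ := exists_ne i
  obtain ⟨a, ha, b, hb, hab⟩ := ha i' j2
  rw [hall b hb] at hab
  rcases hm' a hab.symm with rfl | rfl | hh | hh
  · exact Set.disjoint_left.1 (dfg i' j0) ha m0
  · exact Set.disjoint_left.1 (dfg i' j1) ha m1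
  · exact Set.disjoint_left.1 (dff i' i hi') ha hh
  · exact absurd (hh ▸ m2) x0

theorem hub_count (x : Fin 5) :
    ∑ y : Fin 5, (if x ≠ y ∧ x.val + y.val ≠ 1 then 1 else 0) ≤ 4 := by
  revert x
  decide

end GraphJ

open GraphJ

theorem plan : PlanStmt := by
  intro β k
  refine ⟨GraphJ.no_K5 k, ?_⟩
  rintro ⟨f, h1, h2, h3⟩
  obtain ⟨i, hi⟩ := GraphJ.exists_hubfree (by simp) f h2
  rcases i with i | i
  · exact GraphJ.no_K33_aux k (fun i => f (inl i)) (fun i => f (inr i)) (fun _ => h1 _)
      (fun _ => h1 _)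
      (fun i j hij => h2 _ _ (by simpa using hij)) (fun i j hij => h2 _ _ (by simpa using hij))
      (fun i j => h2 _ _ (by simp)) h3 i hi
  · refine GraphJ.no_K33_aux k (fun i => f (inr i)) (fun i => f (inl i)) (fun _ => h1 _)
      (fun _ => h1 _)
      (fun i j hij => h2 _ _ (by simpa using hij)) (fun i j hij => h2 _ _ (by simpa using hij))
      (fun i j => h2 _ _ (by simp)) ?_ i hi
    intro i j
    obtain ⟨a, ha, b, hb, hab⟩ := h3 j i
    exact ⟨b, hb, a, ha, hab.symm⟩

theorem deg : DegStmt := by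
  classical
  intro β _ k M hM
  refine ⟨fun v => ?_, fun a b ha hb => ?_⟩
  · rcases v with x | ⟨j, c⟩ | z
    · have : (GG k).neighborSet (inl x) = ↑(Finset.univ.filter ((GG k).Adj (inl x))) := by
        ext
        simp
      rw [this, Set.ncard_coe_finset, Finset.card_filter, Fintype.sum_sum_type,
        Fintype.sum_sum_type, Fintype.sum_prod_type]
      have a1 : ∑ y : Fin 5, (if (GG k).Adj (inl x) (inl y) then 1 else 0) ≤ 4 := by
        refine le_trans (le_of_eq ?_) (hub_count x)
        refine Finset.sum_congr rfl fun y _ => ?_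
        simp only [GraphJ.adj_hub_hub]
      have a3 : ∑ z : Unit, (if (GG k).Adj (inl x) (inr (inr z)) then 1 else 0) ≤ 1 :=
        (Finset.sum_le_sum (g := fun _ => 1) fun _ _ => by split_ifs <;> simp).trans (by simp)
      have a2 : ∑ j : β, ∑ c : Bool,
          (if (GG k).Adj (inl x) (inr (inl (j, c))) then 1 else 0) ≤ 2 * M := by
        refine le_trans (le_of_eq ?_) (Nat.mul_le_mul_left 2 (hM x))
        rw [Finset.card_filter, Finset.mul_sum]
        refine Finset.sum_congr rfl fun j _ => ?_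
        simp only [(GG k).adj_comm (inl x), GraphJ.adj_block]
        by_cases h : tok (k j) false = x ∨ tok (k j) true = x
        · have : x = tok (k j) false ∨ x = tok (k j) true := h.imp Eq.symm Eq.symm
          simp [h, this]
        · have : ¬ (x = tok (k j) false ∨ x = tok (k j) true) :=
            fun hh => h (hh.imp Eq.symm Eq.symm)
          simp [h, this]
      omega
    · have : (GG k).neighborSet (inr (inl (j, c))) =
          {inl (tok (k j) false), inl (tok (k j) true), inr (inl (j, !c))} := by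
        ext v
        simp [GraphJ.adj_block]
      rw [this]
      have := Set.ncard_insert_le (inl (tok (k j) false) : VV β)
        {inl (tok (k j) true), inr (inl (j, !c))}
      have := Set.ncard_insert_le (inl (tok (k j) true) : VV β) {inr (inl (j, !c))}
      have := Set.ncard_singleton (inr (inl (j, !c)) : VV β)
      omega
    · have : (GG k).neighborSet (inr (inr z)) = {inl 2} := by
        ext v
        simp [GraphJ.adj_pend]
      rw [this, Set.ncard_singleton]
      omega
  · rw [(GraphJ.adj_pend k _ _).1 ha, (GraphJ.adj_pend k _ _).1 hb]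

end Pool.Agent.Lib.MP_453ac3_co.UB
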