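import Pool.Agent.Lib.MP_453ac3_co.UB.St

/-! Routing on the five hubs. -/

namespace Pool.Agent.Lib.MP_453ac3_co.UB

open Finset

namespace HubJ

section Gen

variable {V : Type}

/-- `n` copies of the pair `x y`. -/
def cp (n : ℕ) (x y : V) : Multiset (Sym2 V) := n • {s(x, y)}

theorem cp_add (m n : ℕ) (x y : V) : cp (m + n) x y = cp m x y + cp n x y := add_smul _ _ _

theorem cp_swap (n : ℕ) (x y : V) : cp n x y = cp n y x := by rw [cp, cp, Sym2.eq_swap]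

theorem cp_merge (n : ℕ) (x y z : V) : Red (cp n x y + cp n y z) (cp n x z) := by
  induction n with
  | zero => exact Red.of_eq (by simp [cp])
  | succ n ih =>
    refine (Red.of_eq ?_).trans ((ih.add (Red.merge2 x y z)).trans (Red.of_eq ?_))
    · simp only [cp, succ_nsmul, Multiset.insert_eq_cons, ← Multiset.singleton_add]
      abel
    · simp only [cp, succ_nsmul]

theorem cp_loop (n : ℕ) (x : V) : Red 0 (cp n x x) := by
  induction n with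
  | zero => exact Red.of_eq (by simp [cp])
  | succ n ih => simpa [cp, succ_nsmul] using ih.add (Red.loop0 x)

/-- Three pairs at a pole. -/
def st (X A B C : V) (a b c : ℕ) : Multiset (Sym2 V) := cp a X A + cp b X B + cp c X C

/-- The triangle. -/
def tri (A B C : V) (ab ac bc : ℕ) : Multiset (Sym2 V) := cp ab A B + cp ac A C + cp bc B C

theorem tri_add (A B C : V) (a b c a' b' c' : ℕ) :
    tri A B C (a + a') (b + b') (c + c') = tri A B C a b c + tri A B C a' b' c' := by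
  simp only [tri, cp_add]
  abel

theorem pole0 (X A B C : V) (c1 c2 c3 r12 r13 r21 r23 r31 r32 z12 z13 z23 l1 l2 l3 : ℕ)
    (M K : Multiset (Sym2 V))
    (h : Red (M + tri A B C z12 z13 z23) (K + tri A B C (r12 + r21) (r13 + r31) (r23 + r32))) :
    Red (M + st X A B C (c1 + r12 + r13 + z12 + z13 + l1) (c2 + r21 + r23 + z12 + z23 + l2)
        (c3 + r31 + r32 + z13 + z23 + l3))
      (K + st X A B C (c1 + r21 + r31) (c2 + r12 + r32) (c3 + r13 + r23)) := by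
  have s1 := ((cp_merge z12 A X B).add (cp_merge z13 A X C)).add (cp_merge z23 B X C)
  rw [cp_swap z12 A X, cp_swap z13 A X, cp_swap z23 B X] at s1
  have s2 := (((((cp_merge r12 X A B).add (cp_merge r13 X A C)).add (cp_merge r21 X B A)).add
    (cp_merge r23 X B C)).add (cp_merge r31 X C A)).add (cp_merge r32 X C B)
  rw [cp_swap r21 B A, cp_swap r31 C A, cp_swap r32 C B] at s2
  have s3 := (((Red.refl M).add s1).trans h).add
    ((Red.refl (st X A B C (c1 + r12 + r13) (c2 + r21 + r23) (c3 + r31 + r32))).add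
      (Red.to_zero (st X A B C l1 l2 l3)))
  have s4 := (Red.refl (K + st X A B C c1 c2 c3)).add s2
  refine (Red.of_eq ?_).trans (s3.trans ((Red.of_eq ?_).trans (s4.trans (Red.of_eq ?_))))
  all_goals
    simp only [st, tri, cp_add]
    abel

theorem arith0 (p1 p2 p3 q1 q2 q3 t : ℕ) (h : p1 + p2 + p3 = q1 + q2 + q3 + 2 * t)
    (h1 : p1 = 0 ∨ q1 = 0) (h2 : p2 = 0 ∨ q2 = 0) (h3 : p3 = 0 ∨ q3 = 0) :
    min (p1 - t) q2 + min (p1 - t) q3 + min (min p1 p2) (t - p3) + min (min p1 p3) (t - p2) ≤ p1 ∧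
      q1 = min (p2 - t) q1 + min (p3 - t) q1 ∧
      min (min p1 p2) (t - p3) + min (min p1 p3) (t - p2) + q1 + 2 * (p1 - t) =
        p1 + (min (p1 - t) q2 + min (p2 - t) q1) + (min (p1 - t) q3 + min (p3 - t) q1) := by
  rcases h1 with rfl | rfl <;> rcases h2 with rfl | rfl <;> rcases h3 with rfl | rfl <;>
    simp only [Nat.zero_sub, Nat.zero_min, Nat.min_zero, add_zero, zero_add, Nat.sub_zero,
      mul_zero] at * <;> refine ⟨?_, ?_, ?_⟩ <;> first | trivial | omega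

theorem arith (w1 w2 w3 d1 d2 d3 t : ℕ) (h : w1 + w2 + w3 = d1 + d2 + d3 + 2 * t) :
    min w1 d1 + min (w1 - d1 - t) (d2 - w2) + min (w1 - d1 - t) (d3 - w3) +
        min (min (w1 - d1) (w2 - d2)) (t - (w3 - d3)) +
        min (min (w1 - d1) (w3 - d3)) (t - (w2 - d2)) ≤ w1 ∧
      d1 = min w1 d1 + min (w2 - d2 - t) (d1 - w1) + min (w3 - d3 - t) (d1 - w1) ∧
      min (min (w1 - d1) (w2 - d2)) (t - (w3 - d3)) +
        min (min (w1 - d1) (w3 - d3)) (t - (w2 - d2)) + d1 + 2 * (w1 - d1 - t) =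
        w1 + (min (w1 - d1 - t) (d2 - w2) + min (w2 - d2 - t) (d1 - w1)) +
          (min (w1 - d1 - t) (d3 - w3) + min (w3 - d3 - t) (d1 - w1)) := by
  obtain ⟨a1, a2, a3⟩ := arith0 (w1 - d1) (w2 - d2) (w3 - d3) (d1 - w1) (d2 - w2) (d3 - w3) t
    (by omega) (by omega) (by omega) (by omega)
  generalize min (min (w1 - d1) (w2 - d2)) (t - (w3 - d3)) = z12 at *
  generalize min (min (w1 - d1) (w3 - d3)) (t - (w2 - d2)) = z13 at *
  generalize min (w1 - d1 - t) (d2 - w2) = r12 at *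
  generalize min (w1 - d1 - t) (d3 - w3) = r13 at *
  generalize min (w2 - d2 - t) (d1 - w1) = r21 at *
  generalize min (w3 - d3 - t) (d1 - w1) = r31 at *
  generalize w1 - d1 - t = e at *
  clear h
  refine ⟨?_, ?_, ?_⟩ <;> omega

theorem pole (X A B C : V) (w1 w2 w3 d1 d2 d3 t : ℕ)
    (h : w1 + w2 + w3 = d1 + d2 + d3 + 2 * t) :
    ∃ z12 z13 z23 r12 r13 r23 : ℕ,
      z12 + z13 + d1 + 2 * (w1 - d1 - t) = w1 + r12 + r13 ∧
      z12 + z23 + d2 + 2 * (w2 - d2 - t) = w2 + r12 + r23 ∧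
      z13 + z23 + d3 + 2 * (w3 - d3 - t) = w3 + r13 + r23 ∧
      ∀ M K : Multiset (Sym2 V), Red (M + tri A B C z12 z13 z23) (K + tri A B C r12 r13 r23) →
        Red (M + st X A B C w1 w2 w3) (K + st X A B C d1 d2 d3) := by
  obtain ⟨a1, a2, a3⟩ := arith w1 w2 w3 d1 d2 d3 t h
  obtain ⟨b1, b2, b3⟩ := arith w2 w1 w3 d2 d1 d3 t (by omega)
  obtain ⟨c1, c2, c3⟩ := arith w3 w1 w2 d3 d1 d2 t (by omega)
  rw [min_comm (w2 - d2) (w1 - d1)] at b1 b3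
  rw [min_comm (w3 - d3) (w1 - d1), min_comm (w3 - d3) (w2 - d2)] at c1 c3
  generalize min (min (w1 - d1) (w2 - d2)) (t - (w3 - d3)) = z12 at *
  generalize min (min (w1 - d1) (w3 - d3)) (t - (w2 - d2)) = z13 at *
  generalize min (min (w2 - d2) (w3 - d3)) (t - (w1 - d1)) = z23 at *
  generalize min (w1 - d1 - t) (d2 - w2) = r12 at *
  generalize min (w1 - d1 - t) (d3 - w3) = r13 at *
  generalize min (w2 - d2 - t) (d1 - w1) = r21 at *
  generalize min (w2 - d2 - t) (d3 - w3) = r23 at *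
  generalize min (w3 - d3 - t) (d1 - w1) = r31 at *
  generalize min (w3 - d3 - t) (d2 - w2) = r32 at *
  generalize min w1 d1 = x1 at *
  generalize min w2 d2 = x2 at *
  generalize min w3 d3 = x3 at *
  refine ⟨z12, z13, z23, r12 + r21, r13 + r31, r23 + r32, a3, by omega, by omega, ?_⟩
  intro M K hr
  obtain ⟨l1, e1⟩ := Nat.exists_eq_add_of_le a1
  obtain ⟨l2, e2⟩ := Nat.exists_eq_add_of_le b1
  obtain ⟨l3, e3⟩ := Nat.exists_eq_add_of_le c1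
  have := pole0 X A B C x1 x2 x3 r12 r13 r21 r23 r31 r32 z12 z13 z23 l1 l2 l3 M K hr
  rwa [← e1, ← e2, ← e3, ← a2, ← b2, ← c2] at this

theorem tri0 (A B C : V) (c12 c13 c23 s12 s13 s23 l12 l13 l23 : ℕ) :
    Red (tri A B C (c12 + s13 + s23 + l12) (c13 + s12 + s23 + l13) (c23 + s12 + s13 + l23))
      (tri A B C (c12 + s12) (c13 + s13) (c23 + s23)) := by
  have s1 := ((cp_merge s12 A C B).add (cp_merge s13 A B C)).add (cp_merge s23 B A C)
  rw [cp_swap s12 C B, cp_swap s23 B A] at s1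
  have s2 := ((Red.refl (tri A B C c12 c13 c23)).add s1).add (Red.to_zero (tri A B C l12 l13 l23))
  refine (Red.of_eq ?_).trans (s2.trans (Red.of_eq ?_))
  all_goals
    simp only [tri, cp_add]
    abel

theorem triangle (A B C : V) (w12 w13 w23 d12 d13 d23 u1 u2 u3 : ℕ)
    (h1 : w12 + w13 = d12 + d13 + 2 * u1) (h2 : w12 + w23 = d12 + d23 + 2 * u2)
    (h3 : w13 + w23 = d13 + d23 + 2 * u3) :
    Red (tri A B C w12 w13 w23) (tri A B C d12 d13 d23) := by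
  obtain ⟨l1, e1⟩ := Nat.exists_eq_add_of_le
    (show min w12 d12 + (d13 - w13) + (d23 - w23) ≤ w12 by omega)
  obtain ⟨l2, e2⟩ := Nat.exists_eq_add_of_le
    (show min w13 d13 + (d12 - w12) + (d23 - w23) ≤ w13 by omega)
  obtain ⟨l3, e3⟩ := Nat.exists_eq_add_of_le
    (show min w23 d23 + (d12 - w12) + (d13 - w13) ≤ w23 by omega)
  have := tri0 A B C (min w12 d12) (min w13 d13) (min w23 d23) (d12 - w12) (d13 - w13) (d23 - w23)
    l1 l2 l3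
  rwa [← e1, ← e2, ← e3, show min w12 d12 + (d12 - w12) = d12 by omega,
    show min w13 d13 + (d13 - w13) = d13 by omega,
    show min w23 d23 + (d23 - w23) = d23 by omega] at this

/-- Two poles and a triangle, no demand between the poles. -/
theorem two (X Y A B C : V) (x1 x2 x3 y1 y2 y3 w12 w13 w23 p1 p2 p3 q1 q2 q3 d12 d13 d23 : ℕ)
    (s t a1 a2 a3 : ℕ)
    (hx : x1 + x2 + x3 = p1 + p2 + p3 + 2 * s) (hy : y1 + y2 + y3 = q1 + q2 + q3 + 2 * t)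
    (h1 : x1 + y1 + w12 + w13 = p1 + q1 + d12 + d13 + 2 * a1)
    (h2 : x2 + y2 + w12 + w23 = p2 + q2 + d12 + d23 + 2 * a2)
    (h3 : x3 + y3 + w13 + w23 = p3 + q3 + d13 + d23 + 2 * a3)
    (k1 : (x1 - p1 - s) + (y1 - q1 - t) ≤ a1) (k2 : (x2 - p2 - s) + (y2 - q2 - t) ≤ a2)
    (k3 : (x3 - p3 - s) + (y3 - q3 - t) ≤ a3) :
    Red (tri A B C w12 w13 w23 + st Y A B C y1 y2 y3 + st X A B C x1 x2 x3)
      (tri A B C d12 d13 d23 + st Y A B C q1 q2 q3 + st X A B C p1 p2 p3) := by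
  obtain ⟨z12, z13, z23, r12, r13, r23, e1, e2, e3, H⟩ := pole X A B C x1 x2 x3 p1 p2 p3 s hx
  obtain ⟨z12', z13', z23', r12', r13', r23', f1, f2, f3, H'⟩ :=
    pole Y A B C y1 y2 y3 q1 q2 q3 t hy
  refine H _ _ ?_
  rw [add_right_comm, add_right_comm (tri A B C d12 d13 d23)]
  refine H' _ _ ?_
  simp only [← tri_add]
  generalize x1 - p1 - s = m1 at *
  generalize x2 - p2 - s = m2 at *
  generalize x3 - p3 - s = m3 at *
  generalize y1 - q1 - t = n1 at *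
  generalize y2 - q2 - t = n2 at *
  generalize y3 - q3 - t = n3 at *
  obtain ⟨u1, rfl⟩ := Nat.exists_eq_add_of_le k1
  obtain ⟨u2, rfl⟩ := Nat.exists_eq_add_of_le k2
  obtain ⟨u3, rfl⟩ := Nat.exists_eq_add_of_le k3
  exact triangle A B C _ _ _ _ _ _ u1 u2 u3 (by omega) (by omega) (by omega)

/-- Demands between the poles are sent through the colour hubs. -/
theorem cross (X Y A B C : V) (p1 p2 p3 q1 q2 q3 n1 n2 n3 : ℕ) :
    Red (st Y A B C (q1 + n1) (q2 + n2) (q3 + n3) + st X A B C (p1 + n1) (p2 + n2) (p3 + n3))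
      (st Y A B C q1 q2 q3 + st X A B C p1 p2 p3 + (cp n1 X Y + cp n2 X Y + cp n3 X Y)) := by
  have s1 := ((cp_merge n1 X A Y).add (cp_merge n2 X B Y)).add (cp_merge n3 X C Y)
  rw [cp_swap n1 A Y, cp_swap n2 B Y, cp_swap n3 C Y] at s1
  refine (Red.of_eq ?_).trans ((Red.refl (st Y A B C q1 q2 q3 + st X A B C p1 p2 p3)).add s1)
  simp only [st, cp_add]
  abel

end Gen

theorem sum_count {α M : Type} [AddCommMonoid M] {n : ℕ} (g : α → Fin n) (ψ : Fin n → M)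
    (φ : α → M) (h : ∀ a, φ a = ψ (g a)) (s : Multiset α) :
    (s.map φ).sum = ∑ j, (s.map g).count j • ψ j := by
  induction s using Multiset.induction_on with
  | empty => simp
  | cons a s ih =>
    rw [Multiset.map_cons, Multiset.sum_cons, ih]
    simp only [Multiset.map_cons, Multiset.count_cons, add_smul,
      sum_add_distrib, h, ite_smul, one_smul, zero_smul, sum_ite_eq', mem_univ, if_true]
    exact add_comm _ _

/-- The type of a demand. -/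
def ind (d : Fin 5 × Fin 5 × Fin 3 × Fin 3) : Fin 23 :=
  Fin.ofNat 23 (if d.1.val < 2 ∧ d.2.1.val < 2 then
      (if d.1 = d.2.1 then d.1.val else 2 + d.2.2.2.val)
    else if d.1.val < 2 then 3 + 3 * d.1.val + d.2.1.val
    else if d.2.1.val < 2 then 3 + 3 * d.2.1.val + d.1.val
    else if d.1 = d.2.1 then 12 + 3 * d.2.2.1.val + d.1.val
    else 18 - d.1.val - d.2.1.val)

/-- Degrees of the demand types. -/
def dg : Fin 5 → Fin 23 → ℕ :=
  ![![2, 0, 1, 1, 1, 1, 1, 1, 0, 0, 0, 0, 0, 0, 0, 0, 0, 0, 0, 0, 0, 0, 0],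
    ![0, 2, 1, 1, 1, 0, 0, 0, 1, 1, 1, 0, 0, 0, 0, 0, 0, 0, 0, 0, 0, 0, 0],
    ![0, 0, 0, 0, 0, 1, 0, 0, 1, 0, 0, 0, 1, 1, 2, 0, 0, 2, 0, 0, 2, 0, 0],
    ![0, 0, 0, 0, 0, 0, 1, 0, 0, 1, 0, 1, 0, 1, 0, 2, 0, 0, 2, 0, 0, 2, 0],
    ![0, 0, 0, 0, 0, 0, 0, 1, 0, 0, 1, 1, 1, 0, 0, 0, 2, 0, 0, 2, 0, 0, 2]]

/-- Supply vectors of the demand types. -/
def dm : Fin 9 → Fin 23 → ℤ :=
  ![![1, 0, 1, 0, 0, 1, 0, 0, 0, 0, 0, 0, 0, 0, 1, 0, 0, 0, 0, 0, 0, 0, 0],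
    ![1, 0, 0, 1, 0, 0, 1, 0, 0, 0, 0, 0, 0, 0, 0, 1, 0, 0, 0, 0, 0, 0, 0],
    ![1, 0, 0, 0, 1, 0, 0, 1, 0, 0, 0, 0, 0, 0, 0, 0, 1, 0, 0, 0, 0, 0, 0],
    ![0, 1, 1, 0, 0, 0, 0, 0, 1, 0, 0, 0, 0, 0, 0, 0, 0, 1, 0, 0, 0, 0, 0],
    ![0, 1, 0, 1, 0, 0, 0, 0, 0, 1, 0, 0, 0, 0, 0, 0, 0, 0, 1, 0, 0, 0, 0],
    ![0, 1, 0, 0, 1, 0, 0, 0, 0, 0, 1, 0, 0, 0, 0, 0, 0, 0, 0, 1, 0, 0, 0],
    ![0, 0, -1, 0, 0, 0, 0, 0, 0, 0, 0, 0, 0, 0, 0, 0, 0, 0, 0, 0, 1, 0, 0],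
    ![0, 0, 0, -1, 0, 0, 0, 0, 0, 0, 0, 0, 0, 0, 0, 0, 0, 0, 0, 0, 0, 1, 0],
    ![0, 0, 0, 0, -1, 0, 0, 0, 0, 0, 0, 0, 0, 0, 0, 0, 0, 0, 0, 0, 0, 0, 1]]

/-- Pairs of the demand types. -/
def pr : Fin 23 → Sym2 (Fin 5) :=
  ![s(0, 0), s(1, 1), s(0, 1), s(0, 1), s(0, 1), s(0, 2), s(0, 3), s(0, 4), s(1, 2), s(1, 3), s(1, 4),
    s(3, 4), s(2, 4), s(2, 3), s(2, 2), s(3, 3), s(4, 4), s(2, 2), s(3, 3), s(4, 4), s(2, 2), s(3, 3), s(4, 4)]

/-- Degrees of the links. -/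
def lg : Fin 5 → Fin 9 → ℕ :=
  ![![1, 1, 1, 0, 0, 0, 0, 0, 0],
    ![0, 0, 0, 1, 1, 1, 0, 0, 0],
    ![1, 0, 0, 1, 0, 0, 0, 1, 1],
    ![0, 1, 0, 0, 1, 0, 1, 0, 1],
    ![0, 0, 1, 0, 0, 1, 1, 1, 0]]

/-- Supply vectors of the links. -/
def lm : Fin 9 → Fin 9 → ℤ :=
  ![![1, 0, 0, 0, 0, 0, 0, 0, 0],
    ![0, 1, 0, 0, 0, 0, 0, 0, 0],
    ![0, 0, 1, 0, 0, 0, 0, 0, 0],
    ![0, 0, 0, 1, 0, 0, 0, 0, 0],
    ![0, 0, 0, 0, 1, 0, 0, 0, 0],
    ![0, 0, 0, 0, 0, 1, 0, 0, 0],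
    ![0, 0, 0, 0, 0, 0, 0, 0, 0],
    ![0, 0, 0, 0, 0, 0, 0, 0, 0],
    ![0, 0, 0, 0, 0, 0, 0, 0, 0]]

/-- Pairs of the links. -/
def lp : Fin 9 → Sym2 (Fin 5) :=
  ![s(0, 2), s(0, 3), s(0, 4), s(1, 2), s(1, 3), s(1, 4), s(3, 4), s(2, 4), s(2, 3)]

theorem dg_eq : ∀ (x : Fin 5) (d : Fin 5 × Fin 5 × Fin 3 × Fin 3),
    (if d.1 = x then 1 else 0) + (if d.2.1 = x then 1 else 0 : ℕ) = dg x (ind d) := by
  decide +kernel

theorem dm_eq : ∀ (i : Fin 9) (d : Fin 5 × Fin 5 × Fin 3 × Fin 3),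
    dem d.1 d.2.1 d.2.2.1 d.2.2.2 i = dm i (ind d) := by
  decide +kernel

theorem pr_eq : ∀ d : Fin 5 × Fin 5 × Fin 3 × Fin 3, s(d.1, d.2.1) = pr (ind d) := by
  decide +kernel

theorem lg_eq : ∀ (x : Fin 5) (k : Fin 9),
    (if tok k false = x then 1 else 0) + (if tok k true = x then 1 else 0 : ℕ) = lg x (id k) := by
  decide +kernel

theorem lm_eq : ∀ i k : Fin 9, dem (tok k false) (tok k true) 0 0 i = lm i (id k) := by
  decide +kernel

theorem lp_eq : ∀ k : Fin 9, s(tok k false, tok k true) = lp (id k) := by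
  decide +kernel

theorem sum9 {M : Type} [AddCommMonoid M] (f : Fin 9 → M) :
    ∑ j, f j = f 0 + f 1 + f 2 + f 3 + f 4 + f 5 + f 6 + f 7 + f 8 := by
  simp only [Fin.sum_univ_castSucc, Fin.sum_univ_zero, zero_add]
  rfl

theorem sum23 {M : Type} [AddCommMonoid M] (f : Fin 23 → M) :
    ∑ j, f j = f 0 + f 1 + f 2 + f 3 + f 4 + f 5 + f 6 + f 7 + f 8 + f 9 + f 10 + f 11 +
      f 12 + f 13 + f 14 + f 15 + f 16 + f 17 + f 18 + f 19 + f 20 + f 21 + f 22 := by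
  simp only [Fin.sum_univ_castSucc, Fin.sum_univ_zero, zero_add]
  rfl

theorem map_eq_sum {α β : Type} (f : α → β) (s : Multiset α) :
    s.map f = (s.map fun a => ({f a} : Multiset β)).sum := by
  induction s using Multiset.induction_on with
  | empty => simp
  | cons a s ih => simp [← ih]

theorem final (w : Fin 9 → ℕ) (c : Fin 23 → ℕ)
    (h1 : ∀ x, ∑ j, c j • dg x j = ∑ k, w k • lg x k)
    (h2 : ∀ i, ∑ k, w k • lm i k ≤ ∑ j, c j • dm i j) :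
    Red (∑ k, w k • {lp k}) (∑ j, c j • {pr j}) := by
  have a0 := h1 0
  have a1 := h1 1
  have a2 := h1 2
  have a3 := h1 3
  have a4 := h1 4
  have b0 := h2 0
  have b1 := h2 1
  have b2 := h2 2
  have b3 := h2 3
  have b4 := h2 4
  have b5 := h2 5
  have b6 := h2 6
  have b7 := h2 7
  have b8 := h2 8
  rw [sum9, sum23] at a0 a1 a2 a3 a4 b0 b1 b2 b3 b4 b5 b6 b7 b8 ⊢
  simp [dg, lg] at a0 a1 a2 a3 a4
  simp [dm, lm] at b0 b1 b2 b3 b4 b5 b6 b7 b8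
  have s1 := two (0 : Fin 5) 1 2 3 4 (w 0) (w 1) (w 2) (w 3) (w 4) (w 5) (w 8) (w 7) (w 6)
    (c 5 + c 2) (c 6 + c 3) (c 7 + c 4) (c 8 + c 2) (c 9 + c 3) (c 10 + c 4) (c 13) (c 12) (c 11)
    (c 0) (c 1) (c 14 + c 17 + (c 20 - c 2)) (c 15 + c 18 + (c 21 - c 3))
    (c 16 + c 19 + (c 22 - c 4)) (by omega) (by omega) (by omega) (by omega) (by omega)
    (by omega) (by omega) (by omega)
  have s2 := (Red.refl (tri (2 : Fin 5) 3 4 (c 13) (c 12) (c 11))).add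
    (cross (0 : Fin 5) 1 2 3 4 (c 5) (c 6) (c 7) (c 8) (c 9) (c 10) (c 2) (c 3) (c 4))
  rw [← add_assoc] at s2
  have s3 := (s1.trans s2).add (((((cp_loop (c 0) (0 : Fin 5)).add (cp_loop (c 1) 1)).add
    (cp_loop (c 14 + c 17 + c 20) 2)).add (cp_loop (c 15 + c 18 + c 21) 3)).add
    (cp_loop (c 16 + c 19 + c 22) 4))
  refine (Red.of_eq ?_).trans (s3.trans (Red.of_eq ?_))
  · change cp (w 0) 0 2 + cp (w 1) 0 3 + cp (w 2) 0 4 + cp (w 3) 1 2 + cp (w 4) 1 3 +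
      cp (w 5) 1 4 + cp (w 6) 3 4 + cp (w 7) 2 4 + cp (w 8) 2 3 = _
    simp only [st, tri]
    abel
  · change _ = cp (c 0) 0 0 + cp (c 1) 1 1 + cp (c 2) 0 1 + cp (c 3) 0 1 + cp (c 4) 0 1 +
      cp (c 5) 0 2 + cp (c 6) 0 3 + cp (c 7) 0 4 + cp (c 8) 1 2 + cp (c 9) 1 3 + cp (c 10) 1 4 +
      cp (c 11) 3 4 + cp (c 12) 2 4 + cp (c 13) 2 3 + cp (c 14) 2 2 + cp (c 15) 3 3 + cp (c 16) 4 4 +
      cp (c 17) 2 2 + cp (c 18) 3 3 + cp (c 19) 4 4 + cp (c 20) 2 2 + cp (c 21) 3 3 + cp (c 22) 4 4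
    simp only [st, tri, cp_add]
    abel

end HubJ

open HubJ in
theorem hub : HubStmt := by
  intro W D h1 h2
  rw [map_eq_sum _ W, map_eq_sum _ D,
    sum_count id (fun k => {lp k}) _ (fun k => by rw [lp_eq]) W,
    sum_count ind (fun j => {pr j}) _ (fun d => by rw [pr_eq]) D]
  refine final _ _ (fun x => ?_) (fun i => ?_)
  · rw [← sum_count ind (dg x) _ (dg_eq x) D, ← sum_count id (lg x) _ (lg_eq x) W]
    exact h1 x
  · rw [← sum_count ind (dm i) _ (dm_eq i) D, ← sum_count id (lm i) _ (lm_eq i) W]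
    exact h2 i

end Pool.Agent.Lib.MP_453ac3_co.UB
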