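import Pool.Agent.Lib.MP_453ac3_co.UB.St

/-! The margins for the exchange step. -/

namespace Pool.Agent.Lib.MP_453ac3_co.UB

open Finset

namespace MargJ

theorem sum9 (f : Fin 9 → ℤ) :
    ∑ i, f i = f 0 + f 1 + f 2 + f 3 + f 4 + f 5 + f 6 + f 7 + f 8 := by
  rw [Fin.sum_univ_castSucc, Fin.sum_univ_eight]
  rfl

theorem ar1 {Q m h S Λ : ℤ} (hQ : 1 ≤ Q) (hm : m ≤ Q * h) (hS : 0 ≤ S) (hΛ : 0 ≤ Λ)
    (hA : h * Λ ≤ 2 * m * S) : m * Λ ≤ 2 * Q ^ 2 * (h * S) :=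
  calc m * Λ ≤ Q * h * Λ := by gcongr
    _ = Q * (h * Λ) := by ring
    _ ≤ Q * (2 * m * S) := by gcongr
    _ ≤ Q * (2 * (Q * h) * S) := by gcongr
    _ = _ := by ring

theorem ar2 {Q m h S Λ μ : ℤ} (hQ : 2 ≤ Q) (hm : m ≤ Q * h) (hh : 0 ≤ h) (hh' : 200 * h ≤ m)
    (hS : 0 ≤ S) (hΛ : 0 ≤ Λ) (hB : 2 * m * S ≤ h * Λ) (hμ : Λ ≤ S + μ) :
    2 * Q ^ 2 * m * S + m * Λ ≤ 2 * Q ^ 2 * (h * μ) := by
  have h0 : 0 ≤ h * Λ := by positivity
  have h1 : m * Λ ≤ Q * (h * Λ) := by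
    rw [← mul_assoc]
    gcongr
  have h2 : 400 * (h * S) ≤ h * Λ := by nlinarith
  have h3 : h * Λ ≤ h * S + h * μ := by
    rw [← mul_add]
    gcongr
  have h4 : 0 ≤ Q ^ 2 := by positivity
  have h5 : 2 * Q * (h * Λ) ≤ Q ^ 2 * (h * Λ) := by
    gcongr
    nlinarith
  have h6 := mul_le_mul_of_nonneg_left hB h4
  have h7 := mul_le_mul_of_nonneg_left h2 h4
  have h8 := mul_le_mul_of_nonneg_left h3 h4
  have h9 := mul_nonneg h4 h0
  nlinarith

theorem nums {q m e : ℕ} (hq : 0 < q) (h1 : 2000 * q ≤ m) (h2 : (q + 1) * m ≤ q * e)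
    (h3 : m ≤ e) (h4 : e ≤ 2 * m) :
    (m : ℤ) ≤ 400 * q * ((e - m) / 200 : ℕ) ∧ 200 * (((e - m) / 200 : ℕ) : ℤ) ≤ m ∧
      2000 + m ≤ e := by
  obtain ⟨d, rfl⟩ := Nat.exists_eq_add_of_le h3
  rw [Nat.add_sub_cancel_left]
  have a1 : m ≤ q * d := by nlinarith
  have a2 : 2000 ≤ d := by
    by_contra hc
    have : q * d < q * 2000 := Nat.mul_lt_mul_of_pos_left (by omega) hq
    omega
  have a3 : q * d ≤ q * (400 * (d / 200)) := Nat.mul_le_mul_left _ (by omega)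
  refine ⟨?_, by omega, by omega⟩
  have a4 : m ≤ 400 * q * (d / 200) := by nlinarith
  exact_mod_cast a4

variable {β : Type} [DecidableEq β] [Fintype β] {I : Inst β} {m e : ℕ}

omit [DecidableEq β] [Fintype β] in
theorem adm_mono {L : Finset (Fin 3)} {s : β → Dc} (h : I.Adm ∅ s) : I.Adm L s :=
  ⟨h.1, fun b hb => absurd (h.2 b hb) (notMem_empty _)⟩

theorem y_nonneg (h2 : BasStmt) {s : β → Dc} (h : I.Adm ∅ s) (i : Fin 9) : 0 ≤ I.y s i := by
  refine sum_nonneg fun b _ => ?_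
  by_cases hi : i.val < 6
  · exact h2.pole β I b _ _ i hi
  · obtain ⟨l, rfl⟩ : ∃ l, i = tc l := by
      revert i
      decide
    exact h2.eqt β I ∅ s h l (notMem_empty _) b

theorem z_nonneg (s : β → Dc) (t : Bool × Fin 3 × Bool) : 0 ≤ I.z s t :=
  sum_nonneg fun b _ => by
    unfold Inst.rdy
    split_ifs <;> norm_num

theorem dc (h1 : DCStmt) (hI : I.Ok m e) (he : 2000 + m ≤ e) (L : Finset (Fin 3))
    (lam : Fin 9 → ℤ) (h0 : ∀ i, 0 ≤ lam i) (hz : ∀ X, ∃ l, lam (spk X l) = 0)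
    (hL : ∀ l ∉ L, I.Few ((e - m) / 200) l) :
    ∃ s, I.Adm L s ∧ m * six lam + ((e - m) / 200 : ℕ) * six lam ≤ ∑ i, lam i * I.y s i := by
  obtain ⟨s, a1, a2⟩ := h1 β I m e hI L _ lam h0 hz hL
  refine ⟨s, a1, ?_⟩
  have a3 : 0 ≤ six lam := by
    unfold six
    linarith [h0 0, h0 1, h0 2, h0 3, h0 4, h0 5]
  have a4 : 50 * ((m : ℤ) + ((e - m) / 200 : ℕ)) ≤
      49 * m + e - 50 * ((e - m) / 200 : ℕ) - 1000 := by omega
  have a5 := mul_le_mul_of_nonneg_right a4 a3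
  linarith

end MargJ

open MargJ in
theorem marg2 (h1 : DCStmt) (h2 : BasStmt) : Marg2Stmt := by
  intro q hq
  refine ⟨2 * (400 * q) ^ 2, 2000 * q, by positivity, ?_⟩
  intro β _ _ I m e hI hm hqe L hL hF lam h0 hz j
  obtain ⟨n1, n2, n3⟩ := nums hq hm hqe hI.me hI.em
  obtain ⟨j₀, -, hj⟩ := exists_max_image univ lam ⟨j, mem_univ j⟩
  have hq' : (1 : ℤ) ≤ q := by exact_mod_cast hq
  have hm0 : (0 : ℤ) ≤ m := Int.natCast_nonneg m
  suffices H : ∃ s, I.Adm L s ∧ 2 * (400 * q : ℤ) ^ 2 * m * six lam + m * lam j₀ ≤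
      2 * (400 * q : ℤ) ^ 2 * ∑ i, lam i * I.y s i by
    obtain ⟨s, a1, a2⟩ := H
    refine ⟨s, a1, ?_⟩
    have := mul_le_mul_of_nonneg_left (hj j (mem_univ j)) hm0
    push_cast
    linarith
  obtain ⟨μ, μ0, μ1, μ2⟩ : ∃ μ : Bool → ℤ, (∀ X, 0 ≤ μ X) ∧ (∀ X l, μ X ≤ lam (spk X l)) ∧
      ∀ X, ∃ l, lam (spk X l) = μ X := by
    have : ∀ X, ∃ l, ∀ l', lam (spk X l) ≤ lam (spk X l') := fun X => by
      obtain ⟨l, -, hl⟩ := exists_min_image univ (fun l => lam (spk X l)) univ_nonempty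
      exact ⟨l, fun l' => hl l' (mem_univ _)⟩
    choose l hl using this
    exact ⟨fun X => lam (spk X (l X)), fun X => h0 _, hl, fun X => ⟨l X, rfl⟩⟩
  set lam' : Fin 9 → ℤ :=
    fun i => lam i - if i.val < 3 then μ false else if i.val < 6 then μ true else 0 with hl'
  have e1 : ∀ X l, lam' (spk X l) = lam (spk X l) - μ X := by
    intro X l
    cases X <;> fin_cases l <;> rfl
  have e2 : ∀ l, lam' (tc l) = lam (tc l) := by
    intro l
    fin_cases l <;> exact sub_zero _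
  have hcase : ∀ i : Fin 9, (∃ X l, i = spk X l) ∨ ∃ l, i = tc l := by decide
  have h0' : ∀ i, 0 ≤ lam' i := by
    intro i
    rcases hcase i with ⟨X, l, rfl⟩ | ⟨l, rfl⟩
    · rw [e1]
      linarith [μ1 X l]
    · rw [e2]
      exact h0 _
  have e3 : six lam = six lam' + 3 * (μ false + μ true) := by
    simp only [six, hl']
    norm_num
    ring
  have e4 : ∀ s, ∑ i, lam i * I.y s i = ∑ i, lam' i * I.y s i +
      (μ false * ∑ l, I.y s (spk false l) + μ true * ∑ l, I.y s (spk true l)) := by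
    intro s
    rw [sum9, sum9, Fin.sum_univ_three, Fin.sum_univ_three]
    change _ = _ + (_ * (I.y s 0 + I.y s 1 + I.y s 2) + _ * (I.y s 3 + I.y s 4 + I.y s 5))
    simp only [hl']
    norm_num
    ring
  have hS : 0 ≤ six lam' := by
    unfold six
    linarith [h0' 0, h0' 1, h0' 2, h0' 3, h0' 4, h0' 5]
  have t3 : ∀ s X, μ X * (3 * m) ≤ μ X * ∑ l, I.y s (spk X l) := fun s X =>
    mul_le_mul_of_nonneg_left (h2.three β I m e hI s X) (μ0 X)
  set h : ℕ := (e - m) / 200 with hh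
  have hh0 : (0 : ℤ) ≤ h := Int.natCast_nonneg h
  have hg : (0 : ℤ) ≤ 2 * (400 * q : ℤ) ^ 2 := by positivity
  suffices H : ∃ s, I.Adm L s ∧ ∃ r : ℤ,
      2 * (400 * q : ℤ) ^ 2 * m * six lam' + m * lam j₀ ≤ 2 * (400 * q : ℤ) ^ 2 * r ∧
        r + 3 * m * (μ false + μ true) ≤ ∑ i, lam i * I.y s i by
    obtain ⟨s, a1, r, a2, a3⟩ := H
    refine ⟨s, a1, ?_⟩
    have := mul_le_mul_of_nonneg_left a3 hg
    rw [e3]
    linarith
  rcases le_total (h * lam j₀) (2 * m * six lam') with hA | hB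
  · obtain ⟨s, a1, a2⟩ := dc h1 hI n3 L lam' h0'
      (fun X => (μ2 X).imp fun l hl => by rw [e1, hl, sub_self]) fun l hl => (hF l).1 hl
    refine ⟨s, a1, m * six lam' + h * six lam', ?_, ?_⟩
    · have := ar1 (Q := 400 * q) (by linarith) n1 hS (h0 j₀) hA
      linarith
    · rw [e4]
      linarith [t3 s false, t3 s true]
  have hst : ∀ l ∈ L, ∃ s, I.Adm ∅ s ∧ (h : ℤ) ≤ I.y s (tc l) := by
    intro l hl
    by_contra hc
    refine (hF l).2 (fun s hs => ?_) hl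
    by_contra hc'
    exact hc ⟨s, hs, (not_le.1 hc').le⟩
  have hpos : ∀ s, I.Adm ∅ s → ∀ i, lam' i * I.y s i ≤ ∑ i, lam' i * I.y s i := fun s hs i =>
    single_le_sum (f := fun i => lam' i * I.y s i)
      (fun i _ => mul_nonneg (h0' i) (y_nonneg h2 hs i)) (mem_univ i)
  rcases hcase j₀ with ⟨X, l₀, rfl⟩ | ⟨l, rfl⟩
  · obtain ⟨l, hl⟩ := hL
    obtain ⟨s, a1, a2⟩ := hst l hl
    obtain ⟨s', b1, b2⟩ := h2.redec β I s a1 X
    have b3 : lam' (spk X l₀) ≤ six lam' := by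
      have := h0' 0
      have := h0' 1
      have := h0' 2
      have := h0' 3
      have := h0' 4
      have := h0' 5
      unfold six
      cases X <;> fin_cases l₀ <;> simp only [spk] <;> norm_num <;> linarith
    rw [e1] at b3
    refine ⟨s', adm_mono b1, h * μ X,
      ar2 (by linarith) n1 hh0 n2 hS (h0 _) hB (by linarith), ?_⟩
    have b4 : 3 * m + h ≤ ∑ l, I.y s' (spk X l) := by
      rw [sum_congr rfl fun l _ => b2 l, sum_add_distrib]
      have := single_le_sum (f := fun l => I.y s (tc l)) (fun l _ => y_nonneg h2 a1 _) (mem_univ l)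
      linarith [h2.three β I m e hI s X]
    have b5 := mul_le_mul_of_nonneg_left b4 (μ0 X)
    have b6 := (mul_nonneg (h0' 0) (y_nonneg h2 b1 0)).trans (hpos s' b1 0)
    rw [e4]
    cases X
    · linarith [t3 s' true]
    · linarith [t3 s' false]
  · obtain ⟨s, a1, a2⟩ : ∃ s, I.Adm ∅ s ∧ h * lam (tc l) ≤ lam (tc l) * I.y s (tc l) := by
      by_cases hl : l ∈ L
      · obtain ⟨s, a1, a2⟩ := hst l hl
        exact ⟨s, a1, by rw [mul_comm]; exact mul_le_mul_of_nonneg_left a2 (h0 _)⟩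
      · obtain ⟨l', hl'⟩ := hL
        obtain ⟨s, a1, -⟩ := hst l' hl'
        exact ⟨s, a1, by simp [hz l hl]⟩
    refine ⟨s, adm_mono a1, h * lam (tc l),
      ar2 (by linarith) n1 hh0 n2 hS (h0 _) hB (by linarith), ?_⟩
    have b6 := hpos s a1 (tc l)
    rw [e2] at b6
    rw [e4]
    linarith [t3 s true, t3 s false]

open MargJ in
theorem marg1 (h1 : DCStmt) (h2 : BasStmt) (h3 : AdjStmt) : Marg1Stmt := by
  intro q hq
  refine ⟨2 * (400 * q) ^ 2, 2000 * q, by positivity, ?_⟩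
  intro β _ _ I m e hI hm hqe hF lam al h0 ha hz hz' Λ hΛ
  obtain ⟨n1, n2, n3⟩ := nums hq hm hqe hI.me hI.em
  have hq' : (1 : ℤ) ≤ q := by exact_mod_cast hq
  have hm0 : (0 : ℤ) ≤ m := Int.natCast_nonneg m
  have hS : 0 ≤ six lam := by
    unfold six
    linarith [h0 0, h0 1, h0 2, h0 3, h0 4, h0 5]
  have hΛ0 : 0 ≤ Λ := by
    rcases hΛ with ⟨j, rfl⟩ | ⟨t, rfl⟩
    exacts [h0 j, ha t]
  set h : ℕ := (e - m) / 200 with hh
  have hh0 : (0 : ℤ) ≤ h := Int.natCast_nonneg h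
  have hg : (0 : ℤ) ≤ 2 * (400 * q : ℤ) ^ 2 := by positivity
  push_cast
  rcases le_total (h * Λ) (2 * m * six lam) with hA | hB
  · obtain ⟨s, a1, a2⟩ := dc h1 hI n3 ∅ lam h0 hz' fun l _ => hF l
    refine ⟨s, a1, ?_⟩
    have a3 := ar1 (Q := 400 * q) (by linarith) n1 hS hΛ0 hA
    have a4 : 0 ≤ ∑ t, al t * I.z s t := sum_nonneg fun t _ => mul_nonneg (ha t) (z_nonneg s t)
    have a5 := mul_le_mul_of_nonneg_left (a2.trans (le_add_of_nonneg_right a4)) hg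
    linarith
  have key : ∀ t : Bool × Fin 3 × Bool, ∃ s, I.Adm ∅ s ∧ (h : ℤ) ≤ I.z s t := by
    intro t
    have hfx : ∀ b, (I.c b).val < 6 → b ∉ I.fx := fun b hb hc => by
      have := hI.fxE b hc
      omega
    refine ⟨fun b => (if b ∈ I.fx then I.o0 b else if (I.c b).val < 6 then true else t.2.2, 0, 0),
      h2.dir β I _ true (fun b hb => if_pos hb) fun b hb => by simp [hfx b hb, hb], ?_⟩
    have a1 := h3 β I m e h hI hF t.1 t.2.1
    have a2 : (h : ℤ) ≤ ((univ.filter fun b => I.IsAdj t.1 t.2.1 b).card : ℕ) := by omega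
    refine a2.trans (le_of_eq ?_)
    rw [card_filter]
    push_cast
    refine sum_congr rfl fun b _ => ?_
    unfold Inst.rdy
    by_cases hb : I.IsAdj t.1 t.2.1 b
    · obtain ⟨b1, -, b2, b3, b4⟩ := id hb
      have c1 : ¬ (I.c (I.σ b)).val < 6 := by
        rw [b2]
        generalize t.2.1 = a
        revert a
        decide
      have c2 : (I.c (I.σ (I.σ b))).val < 6 := by
        rw [b4]
        generalize t.1 = X
        generalize t.2.1 = a
        revert X a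
        decide
      simp [hb, hfx b b1, b1, b3, c1, hfx _ c2, c2]
    · simp [hb]
  have fin : ∀ s, I.Adm ∅ s → h * Λ ≤ ∑ t, al t * I.z s t →
      2 * (400 * q : ℤ) ^ 2 * m * six lam + m * Λ ≤
        2 * (400 * q : ℤ) ^ 2 * (∑ i, lam i * I.y s i + ∑ t, al t * I.z s t) := by
    intro s a1 a2
    have a3 := ar2 (Q := 400 * q) (μ := Λ) (by linarith) n1 hh0 n2 hS hΛ0 hB (by linarith)
    have a4 : 0 ≤ ∑ i, lam i * I.y s i :=
      sum_nonneg fun i _ => mul_nonneg (h0 i) (y_nonneg h2 a1 i)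
    exact a3.trans (mul_le_mul_of_nonneg_left (by linarith) hg)
  rcases hΛ with ⟨j, rfl⟩ | ⟨t, rfl⟩
  · have b1 : lam j ≤ six lam := by
      have := h0 0
      have := h0 1
      have := h0 2
      have := h0 3
      have := h0 4
      have := h0 5
      have b6 : lam 6 = 0 := hz 0
      have b7 : lam 7 = 0 := hz 1
      have b8 : lam 8 = 0 := hz 2
      have := single_le_sum (f := lam) (fun i _ => h0 i) (mem_univ j)
      rw [sum9] at this
      unfold six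
      linarith
    have b2 : lam j = 0 := by
      have b3 : (10 : ℤ) ≤ h := by omega
      nlinarith
    obtain ⟨s, a1, -⟩ := key (true, 0, true)
    refine ⟨s, a1, fin s a1 ?_⟩
    rw [b2, mul_zero]
    exact sum_nonneg fun t _ => mul_nonneg (ha t) (z_nonneg s t)
  · obtain ⟨s, a1, a2⟩ := key t
    refine ⟨s, a1, fin s a1 (le_trans ?_ (single_le_sum (f := fun t => al t * I.z s t)
      (fun t _ => mul_nonneg (ha t) (z_nonneg s t)) (mem_univ t)))⟩
    rw [mul_comm]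
    exact mul_le_mul_of_nonneg_left a2 (ha t)

end Pool.Agent.Lib.MP_453ac3_co.UB
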