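import Pool.Agent.Lib.MP_453ac3_co.UB.Graph

/-! Routing in the graph from a reduction at hub level. -/

namespace Pool.Agent.Lib.MP_453ac3_co.UB

open Sum Finset

namespace RouteJ

/-- The five edges of a block. -/
def five {V : Type} (u v P Q : V) : Multiset (Sym2 V) :=
  {s(u, P)} + {s(v, Q)} + {s(Q, u)} + {s(u, v)} + {s(v, P)}

theorem blk1 {V : Type} (u v P Q : V) :
    Red (five u v P Q) ({s(u, P)} + {s(v, Q)} + {s(P, Q)}) := by
  have := ((Red.refl {s(u, P)}).add (Red.refl {s(v, Q)})).add (Red.merge3 Q u v P)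
  rw [Sym2.eq_swap (a := P) (b := Q)]
  refine (Red.of_eq ?_).trans this
  simp only [five, Multiset.insert_eq_cons, ← Multiset.singleton_add]
  abel

theorem blk2 {V : Type} (u v P Q : V) :
    Red (five u v P Q) ({s(u, Q)} + {s(v, P)} + {s(P, Q)}) := by
  have := ((Red.refl {s(u, Q)}).add (Red.refl {s(v, P)})).add (Red.merge3 P u v Q)
  refine (Red.of_eq ?_).trans this
  rw [Sym2.eq_swap (a := P) (b := u), Sym2.eq_swap (a := u) (b := Q)]
  simp only [five, Multiset.insert_eq_cons, ← Multiset.singleton_add]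
  abel

theorem nodup_sum {α ι : Type} (s : Finset ι) (f : ι → Multiset α)
    (h1 : ∀ i ∈ s, (f i).Nodup) (h2 : ∀ i ∈ s, ∀ j ∈ s, ∀ e ∈ f i, e ∈ f j → i = j) :
    (∑ i ∈ s, f i).Nodup := by
  classical
  induction s using Finset.induction_on with
  | empty => simp
  | insert a s ha ih =>
    rw [Finset.sum_insert ha, Multiset.nodup_add]
    refine ⟨h1 a (by simp), ih (fun i hi => h1 i (by simp [hi]))
      fun i hi j hj => h2 i (by simp [hi]) j (by simp [hj]), ?_⟩
    rw [Multiset.disjoint_left]
    intro e he he'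
    obtain ⟨j, hj, hej⟩ := Multiset.mem_sum.1 he'
    exact ha (h2 a (by simp) j (by simp [hj]) e he hej ▸ hj)

theorem map_sum_single {α γ ι : Type} (g : α → γ) (s : Finset ι) (f : ι → α) :
    (∑ i ∈ s, ({f i} : Multiset α)).map g = ∑ i ∈ s, {g (f i)} := by
  classical
  induction s using Finset.induction_on with
  | empty => simp
  | insert a s ha ih => rw [Finset.sum_insert ha, Finset.sum_insert ha, Multiset.map_add, ih]; simp

theorem sum_pair_le {V ι M : Type} [Fintype V] [Fintype ι] [AddCommMonoid M] [PartialOrder M]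
    [IsOrderedAddMonoid M] [CanonicallyOrderedAdd M] (s t : ι → V)
    (hinj : Function.Injective (Sum.elim s t)) (F : V → M) :
    ∑ i, (F (s i) + F (t i)) ≤ ∑ v, F v := by
  classical
  have : ∑ i, (F (s i) + F (t i)) = ∑ v ∈ Finset.univ.map ⟨_, hinj⟩, F v := by
    rw [Finset.sum_map, Fintype.sum_sum_type, Finset.sum_add_distrib]
    simp
  rw [this]
  exact Finset.sum_le_sum_of_subset (Finset.subset_univ _)

theorem blk4 {V : Type} (u v P Q : V) :
    Red (five u v P Q) ({s(u, u)} + {s(v, u)} + ({s(P, Q)} + {s(P, Q)})) := by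
  have := ((Red.loop0 u).add (Red.refl {s(v, u)})).add
    ((Red.merge2 P u Q).add (Red.merge2 P v Q))
  refine (Red.of_eq ?_).trans this
  rw [Sym2.eq_swap (a := v) (b := u), Sym2.eq_swap (a := P) (b := u),
    Sym2.eq_swap (a := u) (b := Q), Sym2.eq_swap (a := P) (b := v)]
  simp only [five, Multiset.insert_eq_cons, ← Multiset.singleton_add]
  abel

variable {β : Type}

/-- The vertices as halves of real and virtual blocks. -/
def ph : (β ⊕ Fin 3) × Bool ≃ VV β where
  toFun
    | (inl b, x) => inr (inl (b, x))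
    | (inr a, true) => inl (tok (tc a) true)
    | (inr a, false) => ![inl 0, inl 1, inr (inr ())] a
  invFun
    | inl h => ![(inr 0, false), (inr 1, false), (inr 1, true), (inr 2, true), (inr 0, true)] h
    | inr (inl a) => (inl a.1, a.2)
    | inr (inr _) => (inr 2, false)
  left_inv := by
    rintro ⟨b | a, x⟩
    · rfl
    · fin_cases a <;> cases x <;> rfl
  right_inv := by
    rintro (h | a | z)
    · fin_cases h <;> rfl
    · rfl
    · rfl

/-- The edges used for a block. -/
def eb (c : β → Fin 9) : β ⊕ Fin 3 → Multiset (Sym2 (VV β))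
  | inl b => five (inr (inl (b, true))) (inr (inl (b, false))) (inl (tok (c b) false))
      (inl (tok (c b) true))
  | inr a => {s(ph (inr a, false), inl (tok (tc a) false))} +
      {s(inl (tok (tc a) false), inl (tok (tc a) true))}

theorem tok_ne (k : Fin 9) : tok k false ≠ tok k true := by revert k; decide

theorem eb_inr (c : β → Fin 9) (a : Fin 3) : eb c (inr a) =
    ![{s(inl 0, inl 3)} + {s(inl 3, inl 4)}, {s(inl 1, inl 4)} + {s(inl 4, inl 2)},
      {s(inr (inr ()), inl 2)} + {s(inl 2, inl 3)}] a := by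
  fin_cases a <;> rfl

theorem eb_sub (c : β → Fin 9) (b : β ⊕ Fin 3) : ∀ e ∈ eb c b, e ∈ (GG c).edgeSet := by
  intro e he
  rcases b with b | a
  · simp only [eb, five, Multiset.mem_add, Multiset.mem_singleton] at he
    rcases he with (((rfl | rfl) | rfl) | rfl) | rfl
    · simp [GraphJ.adj_block]
    · simp [GraphJ.adj_block]
    · rw [Sym2.eq_swap]; simp [GraphJ.adj_block]
    · simp [GraphJ.adj_block]
    · simp [GraphJ.adj_block]
  · rw [eb_inr] at he
    fin_cases a <;> simp at he <;> rcases he with rfl | rfl <;>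
      simp [GraphJ.adj_hub_hub, GraphJ.adj_pend]

theorem eb_nodup [Fintype β] (c : β → Fin 9) : (∑ b, eb c b).Nodup := by
  refine nodup_sum _ _ (fun b _ => ?_) fun b _ b' _ e h1 h2 => ?_
  · rcases b with b | a
    · simp [eb, five, tok_ne, (tok_ne _).symm]
    · rw [eb_inr]
      fin_cases a <;> simp
  · rcases b with b | a <;> rcases b' with b' | a'
    · simp only [eb, five, Multiset.mem_add, Multiset.mem_singleton] at h1 h2
      rcases h1 with (((rfl | rfl) | rfl) | rfl) | rfl <;> simp at h2 <;> tauto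
    · rw [eb_inr] at h2
      simp only [eb, five, Multiset.mem_add, Multiset.mem_singleton] at h1
      rcases h1 with (((rfl | rfl) | rfl) | rfl) | rfl <;> fin_cases a' <;> simp at h2
    · rw [eb_inr] at h1
      simp only [eb, five, Multiset.mem_add, Multiset.mem_singleton] at h2
      rcases h2 with (((rfl | rfl) | rfl) | rfl) | rfl <;> fin_cases a <;> simp at h1
    · rw [eb_inr] at h1 h2
      fin_cases a <;> fin_cases a' <;> simp at h1 h2 ⊢ <;> rcases h1 with rfl | rfl <;>
        simp at h2

end RouteJ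

open RouteJ in
theorem route (h1 : ColStmt) (h2 : ExtStmt) : RouteStmt := by
  intro β _ _ c H k s t hinj
  have hst : ∀ i j, s i ≠ t j := fun i j h => by
    have := @hinj (inl i) (inr j) h
    simp at this
  have hs : ∀ i j, s i = s j → i = j := fun i j h => by
    simpa using @hinj (inl i) (inl j) h
  obtain ⟨τ, hτ1, hτ2, hτ3⟩ := h2 (VV β) (by
    rw [← Fintype.card_congr ph]
    simp) k s t hinj
  obtain ⟨σ, sd, hσ⟩ := h1 (β ⊕ Fin 3) (fun p => ph.symm (τ (ph p)))
    (fun p => by simp [hτ1 _]) (fun p e => hτ2 (ph p) (by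
      have := congrArg ph e
      simpa using this))
  have hσ' : ∀ b, τ (ph (b, sd b)) = ph (σ b, !sd (σ b)) := fun b => by
    rw [← hσ b]
    simp
  obtain ⟨u, hfix, hred⟩ := H ⟨σ, Sum.elim c tc, univ.image inr, sd⟩ rfl rfl
  refine paths_of_red _ (E := ∑ b, eb c b) (fun e he => ?_) (eb_nodup c) s t ?_ ?_
  · obtain ⟨b, -, hb⟩ := Multiset.mem_sum.1 he
    exact eb_sub c b e hb
  · intro i j h
    simp only [Sym2.eq_iff] at h
    rcases h with h | h
    · exact hs _ _ h.1
    · exact absurd h.1 (hst _ _)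
  let cl : β ⊕ Fin 3 → Fin 9 := Sum.elim c tc
  let lp : β ⊕ Fin 3 → Prop := fun b => σ b = b ∧ b ∉ (univ.image inr : Finset (β ⊕ Fin 3))
  let X : (β ⊕ Fin 3) × Bool → VV β := fun p =>
    if lp p.1 then ph (p.1, true)
    else inl (tok (cl p.1) (if p.2 = sd p.1 then (u p.1).1 else !(u p.1).1))
  let lk : β ⊕ Fin 3 → Multiset (Sym2 (VV β)) := fun b =>
    {s(inl (tok (cl b) false), inl (tok (cl b) true))}
  have step1 : Red (∑ b, eb c b) (∑ b, ({s(ph (b, true), X (b, true))} +
      {s(ph (b, false), X (b, false))} + (lk b + if lp b then lk b else 0))) := by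
    refine Red.sum _ _ _ fun b _ => ?_
    rcases b with b | a
    · by_cases hb : lp (inl b)
      · simp only [X, if_pos hb]
        exact blk4 _ _ _ _
      · simp only [X, if_neg hb, add_zero]
        cases sd (inl b) <;> cases (u (inl b)).1
        · exact blk2 _ _ _ _
        · exact blk1 _ _ _ _
        · exact blk1 _ _ _ _
        · exact blk2 _ _ _ _
    · have hb : ¬ lp (inr a) := fun h => h.2 (by simp)
      have ho : (u (inr a)).1 = sd (inr a) := hfix (inr a) (by simp)
      have hx : ∀ x, X (inr a, x) = inl (tok (tc a) x) := by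
        intro x
        simp only [X, if_neg hb, ho]
        cases x <;> cases sd (inr a) <;> rfl
      rw [hx, hx, if_neg hb, add_zero, add_assoc]
      have := (Red.loop0 (inl (tok (tc a) true) : VV β)).add (Red.refl (eb c (inr a)))
      rw [zero_add] at this
      exact this
  have e1 : (∑ b, ({s(ph (b, true), X (b, true))} + {s(ph (b, false), X (b, false))} +
      (lk b + if lp b then lk b else 0))) = (∑ v, {s(v, X (ph.symm v))}) +
      (Inst.links ⟨σ, Sum.elim c tc, univ.image inr, sd⟩).map (Sym2.map inl) := by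
    rw [← Equiv.sum_comp ph, Fintype.sum_prod_type, Inst.links, Multiset.map_add, map_sum_single,
      map_sum_single, Finset.sum_filter]
    simp only [Fintype.sum_bool, Finset.sum_add_distrib, Equiv.symm_apply_apply, Sym2.map_mk]
    rfl
  have step2 : Red ((Inst.links ⟨σ, Sum.elim c tc, univ.image inr, sd⟩).map
      (Sym2.map (inl : Fin 5 → VV β))) (∑ b, {s(X (b, sd b), X (σ b, !sd (σ b)))}) := by
    refine (hred.map inl).trans ?_
    rw [Inst.dems, map_sum_single, Finset.sum_filter]
    refine Red.sum _ _ _ fun b _ => ?_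
    by_cases hb : lp b
    · rw [if_neg (not_not.2 hb), hb.1]
      simp only [X, if_pos hb]
      exact Red.loop0 _
    · have hb' : ¬ lp (σ b) := fun h => hb (by rwa [σ.injective h.1] at h)
      rw [if_pos hb]
      simp only [X, if_neg hb, if_neg hb', if_true, Bool.not_eq_self, if_false]
      exact Red.refl _
  have key : ∀ i, ∃ b, (s i = ph (b, sd b) ∧ t i = ph (σ b, !sd (σ b))) ∨
      (t i = ph (b, sd b) ∧ s i = ph (σ b, !sd (σ b))) := by
    intro i
    obtain ⟨⟨b, x⟩, hb⟩ := ph.surjective (s i)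
    by_cases hx : x = sd b
    · exact ⟨b, Or.inl ⟨by rw [← hb, hx], by rw [← hτ3, ← hb, hx, hσ']⟩⟩
    · obtain ⟨b', rfl⟩ := σ.surjective b
      have hx' : x = !sd (σ b') := Bool.eq_not_iff.2 hx
      refine ⟨b', Or.inr ⟨?_, by rw [← hb, hx']⟩⟩
      rw [← hτ3, ← hb, hx', ← hσ', hτ1]
  choose g hg using key
  have hginj : Function.Injective g := by
    intro i j e
    rcases hg i with h | h <;> rcases hg j with h' | h'
    · exact hs _ _ (by rw [h.1, h'.1, e])
    · exact absurd (by rw [h.1, h'.1, e]) (hst i j)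
    · exact absurd (by rw [h.2, h'.2, e]) (hst i j)
    · exact hs _ _ (by rw [h.2, h'.2, e])
  have step3 : (∑ i, {s(X (ph.symm (s i)), X (ph.symm (t i)))} : Multiset (Sym2 (VV β))) ≤
      ∑ b, {s(X (b, sd b), X (σ b, !sd (σ b)))} := by
    have : (∑ i, {s(X (ph.symm (s i)), X (ph.symm (t i)))} : Multiset (Sym2 (VV β))) =
        ∑ b ∈ univ.map ⟨g, hginj⟩, {s(X (b, sd b), X (σ b, !sd (σ b)))} := by
      rw [Finset.sum_map]
      refine Finset.sum_congr rfl fun i _ => ?_
      rcases hg i with h | h
      · rw [h.1, h.2]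
        simp
      · rw [h.1, h.2, Sym2.eq_swap]
        simp
    rw [this]
    exact Finset.sum_le_sum_of_subset (Finset.subset_univ _)
  rw [e1] at step1
  refine step1.trans (((Red.of_le (sum_pair_le s t hinj fun v => {s(v, X (ph.symm v))})).add
    (step2.trans (Red.of_le step3))).trans ?_)
  rw [← Finset.sum_add_distrib]
  refine Red.sum _ _ _ fun i _ => ?_
  refine (Red.of_eq ?_).trans (Red.merge3 (s i) (X (ph.symm (s i))) (X (ph.symm (t i))) (t i))
  rw [Sym2.eq_swap (a := t i)]
  simp only [Multiset.insert_eq_cons, ← Multiset.singleton_add]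
  abel

end Pool.Agent.Lib.MP_453ac3_co.UB
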