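import Pool.Agent.Lib.MP_453ac3_co.UB.St

/-! The exchange step: a state that minimises a quadratic potential has small deficits. -/

namespace Pool.Agent.Lib.MP_453ac3_co.UB

open Finset

namespace StepJ

theorem sq_max (a x : ℤ) : (max (a - x) 0) ^ 2 ≤ (max a 0 - x) ^ 2 := by
  rcases le_total (a - x) 0 with h | h
  · rw [max_eq_right h]
    simpa using sq_nonneg (max a 0 - x)
  · rw [max_eq_left h]
    exact pow_le_pow_left₀ h (by linarith [le_max_left a 0]) 2

variable {β X : Type} [Fintype β] [DecidableEq β]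

/-- The total gain of one local term over all windows. -/
theorem one (win : β → β) (s s' : β → X) (ψ : X → X → X → ℤ) (C : ℤ)
    (hψ : ∀ x x' x'', |ψ x x' x''| ≤ C) (a b c : β) :
    ψ (s' a) (s' b) (s' c) - ψ (s a) (s b) (s c) -
        (if win b ≠ win a ∨ win c ≠ win b then 8 * C else 0) ≤
      ∑ w, (ψ (mix win s s' w a) (mix win s s' w b) (mix win s s' w c) - ψ (s a) (s b) (s c)) := by
  have hC : 0 ≤ C := (abs_nonneg _).trans (hψ (s a) (s a) (s a))
  split_ifs with h
  · have h1 : ∑ w, (ψ (mix win s s' w a) (mix win s s' w b) (mix win s s' w c) -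
        ψ (s a) (s b) (s c)) = ∑ w ∈ ({win a, win b, win c} : Finset β),
        (ψ (mix win s s' w a) (mix win s s' w b) (mix win s s' w c) - ψ (s a) (s b) (s c)) := by
      refine (sum_subset (subset_univ _) fun w _ hw => ?_).symm
      simp only [mem_insert, mem_singleton, not_or] at hw
      simp [mix, Ne.symm hw.1, Ne.symm hw.2.1, Ne.symm hw.2.2]
    have h2 := card_nsmul_le_sum ({win a, win b, win c} : Finset β)
      (fun w => ψ (mix win s s' w a) (mix win s s' w b) (mix win s s' w c) - ψ (s a) (s b) (s c))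
      (-(2 * C)) fun w _ => by
        have e1 := abs_le.1 (hψ (mix win s s' w a) (mix win s s' w b) (mix win s s' w c))
        have e2 := abs_le.1 (hψ (s a) (s b) (s c))
        linarith [e1.1, e2.2]
    have h3 : ((({win a, win b, win c} : Finset β).card : ℕ) : ℤ) ≤ 3 := by
      exact_mod_cast card_le_three
    have e1 := abs_le.1 (hψ (s' a) (s' b) (s' c))
    have e2 := abs_le.1 (hψ (s a) (s b) (s c))
    rw [nsmul_eq_mul] at h2
    rw [h1]
    nlinarith [e1.2, e2.1]
  · simp only [not_or, not_not] at h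
    rw [Finset.sum_eq_single (win a)]
    · simp [mix, h.1, h.2]
    · intro w _ hw
      simp [mix, h.1, h.2, Ne.symm hw]
    · simp

theorem bad_le (σ : Equiv.Perm β) (win : β → β) :
    (univ.filter fun b => win (σ b) ≠ win b ∨ win (σ (σ b)) ≠ win (σ b)).card ≤
      2 * (univ.filter fun b => win (σ b) ≠ win b).card := by
  rw [filter_or]
  refine (card_union_le _ _).trans ?_
  have : (univ.filter fun b => win (σ (σ b)) ≠ win (σ b)).card =
      (univ.filter fun b => win (σ b) ≠ win b).card :=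
    card_equiv σ (by simp)
  omega

/-- The total gain over all windows. -/
theorem gain (σ : Equiv.Perm β) (win : β → β) (s s' : β → X) (ψ : β → X → X → X → ℤ) (C : ℤ)
    (hC : 0 ≤ C) (hψ : ∀ b x x' x'', |ψ b x x' x''| ≤ C) :
    ∑ b, ψ b (s' b) (s' (σ b)) (s' (σ (σ b))) - ∑ b, ψ b (s b) (s (σ b)) (s (σ (σ b))) -
        16 * C * (univ.filter fun b => win (σ b) ≠ win b).card ≤
      ∑ w, (∑ b, ψ b (mix win s s' w b) (mix win s s' w (σ b)) (mix win s s' w (σ (σ b))) -
        ∑ b, ψ b (s b) (s (σ b)) (s (σ (σ b)))) := by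
  have h1 := sum_le_sum (s := univ) fun b _ => one win s s' (ψ b) C (hψ b) b (σ b) (σ (σ b))
  rw [sum_comm, sum_sub_distrib, sum_sub_distrib, ← sum_filter, sum_const, nsmul_eq_mul] at h1
  simp only [sum_sub_distrib] at h1 ⊢
  have h2 : (((univ.filter fun b => win (σ b) ≠ win b ∨ win (σ (σ b)) ≠ win (σ b)).card : ℕ) : ℤ)
      ≤ 2 * ((univ.filter fun b => win (σ b) ≠ win b).card : ℕ) := by
    exact_mod_cast bad_le σ win
  nlinarith

end StepJ

theorem step : StepStmt := by
  intro β X ι _ _ _ _ σ f A T win g K M hf hA hg hK hB hmix hmar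
  obtain ⟨s, hs, hmin⟩ : ∃ s ∈ A, ∀ u ∈ A,
      ∑ i, (max (T i - tot σ f s i) 0) ^ 2 ≤ ∑ i, (max (T i - tot σ f u i) 0) ^ 2 := by
    obtain ⟨s, hs, hm⟩ := (measure fun u : β → X =>
      (∑ i, (max (T i - tot σ f u i) 0) ^ 2).toNat).wf.has_min A hA
    refine ⟨s, hs, fun u hu => ?_⟩
    have h1 : ¬ (∑ i, (max (T i - tot σ f u i) 0) ^ 2).toNat <
      (∑ i, (max (T i - tot σ f s i) 0) ^ 2).toNat := hm u hu
    have h2 : 0 ≤ ∑ i, (max (T i - tot σ f u i) 0) ^ 2 := sum_nonneg fun _ _ => sq_nonneg _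
    omega
  refine ⟨s, hs, fun i0 => ?_⟩
  by_contra hlt
  rw [not_le] at hlt
  set lam : ι → ℤ := fun i => max (T i - tot σ f s i) 0 with hlam
  obtain ⟨j, -, hj⟩ := exists_max_image univ lam ⟨i0, mem_univ _⟩
  have hl0 : ∀ i, 0 ≤ lam i := fun i => le_max_right _ _
  have hbig : (g : ℤ) * Fintype.card ι * M ^ 2 < lam j :=
    hlt.trans_le ((le_max_left _ _).trans (hj i0 (mem_univ _)))
  obtain ⟨s', hs', hm⟩ := hmar s hs j
  have hF : ∀ u : β → X, ∑ b, ∑ i, lam i * f b (u b) (u (σ b)) (u (σ (σ b))) i =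
      ∑ i, lam i * tot σ f u i := fun u => by
    rw [sum_comm]
    exact sum_congr rfl fun i _ => by rw [tot, mul_sum]
  have hG := StepJ.gain σ win s s' (fun b x x' x'' => ∑ i, lam i * f b x x' x'' i)
    (Fintype.card ι * lam j) (mul_nonneg (Nat.cast_nonneg _) (hl0 j)) fun b x x' x'' => by
      refine (abs_sum_le_sum_abs _ _).trans ?_
      have := sum_le_card_nsmul univ (fun i => |lam i * f b x x' x'' i|) (lam j) fun i _ => by
        rw [abs_mul, abs_of_nonneg (hl0 i)]
        exact (mul_le_of_le_one_right (hl0 i) (hf b x x' x'' i)).trans (hj i (mem_univ _))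
      simpa using this
  simp only [hF] at hG
  have hT : ∑ i, lam i * tot σ f s i ≤ ∑ i, lam i * T i := sum_le_sum fun i _ => by
    rcases le_total (T i - tot σ f s i) 0 with h | h
    · simp [hlam, max_eq_right h]
    · exact mul_le_mul_of_nonneg_left (by linarith) (hl0 i)
  generalize (univ.filter fun b => win (σ b) ≠ win b).card = Bd at hB hG
  have hBd0 : (0 : ℤ) ≤ Bd := Nat.cast_nonneg _
  have hg' : (0 : ℤ) < g := by exact_mod_cast hg
  have hK' : (100 : ℤ) * g * Fintype.card ι ≤ K := by exact_mod_cast hK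
  have hB' : (K : ℤ) * Bd ≤ 2 * Fintype.card β := by exact_mod_cast hB
  have h1 : (100 : ℤ) * g * Fintype.card ι * Bd ≤ 2 * Fintype.card β :=
    (mul_le_mul_of_nonneg_right hK' hBd0).trans hB'
  have h2 := mul_le_mul_of_nonneg_right h1 (hl0 j)
  have h3 := mul_le_mul_of_nonneg_left hG hg'.le
  have h4 := mul_le_mul_of_nonneg_left hT hg'.le
  have h5 : (0 : ℤ) ≤ Fintype.card β * lam j := mul_nonneg (Nat.cast_nonneg _) (hl0 j)
  have hm' : (g : ℤ) * ∑ i, lam i * T i + Fintype.card β * lam j ≤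
      g * ∑ i, lam i * tot σ f s' i := hm
  have h6 : ∑ _w : β, lam j ≤ ∑ w, 2 * g * (∑ i, lam i * tot σ f (mix win s s' w) i -
      ∑ i, lam i * tot σ f s i) := by
    rw [← mul_sum, sum_const, card_univ, nsmul_eq_mul]
    nlinarith
  obtain ⟨w, -, hw⟩ := exists_le_of_sum_le univ_nonempty h6
  obtain ⟨hwA, hwM⟩ := hmix s hs s' hs' w
  have h7 : ∑ i, (max (T i - tot σ f (mix win s s' w) i) 0) ^ 2 ≤
      ∑ i, (lam i ^ 2 - 2 * (lam i * tot σ f (mix win s s' w) i - lam i * tot σ f s i) +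
        (M : ℤ) ^ 2) := sum_le_sum fun i _ => by
    have e1 := StepJ.sq_max (T i - tot σ f s i) (tot σ f (mix win s s' w) i - tot σ f s i)
    have e2 : (tot σ f (mix win s s' w) i - tot σ f s i) ^ 2 ≤ (M : ℤ) ^ 2 :=
      sq_le_sq' (abs_le.1 (hwM i)).1 (abs_le.1 (hwM i)).2
    rw [sub_sub_sub_cancel_right] at e1
    have e3 : lam i = max (T i - tot σ f s i) 0 := rfl
    rw [← e3] at e1
    nlinarith
  rw [sum_add_distrib, sum_sub_distrib, ← mul_sum, sum_sub_distrib, sum_const, card_univ,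
    nsmul_eq_mul] at h7
  have h8 : ∑ i, lam i ^ 2 ≤ _ := hmin _ hwA
  have h9 := mul_le_mul_of_nonneg_left (h8.trans h7) hg'.le
  nlinarith

end Pool.Agent.Lib.MP_453ac3_co.UB
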