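import Pool.Agent.Lib.MP_453ac3_co.UB.Cert
import Pool.Agent.Lib.MP_453ac3_co.UB.Perm
import Pool.Agent.Lib.MP_453ac3_co.UB.Col
import Pool.Agent.Lib.MP_453ac3_co.UB.DCyc
import Pool.Agent.Lib.MP_453ac3_co.UB.Step
import Pool.Agent.Lib.MP_453ac3_co.UB.Bas
import Pool.Agent.Lib.MP_453ac3_co.UB.DC
import Pool.Agent.Lib.MP_453ac3_co.UB.Marg
import Pool.Agent.Lib.MP_453ac3_co.UB.Adj
import Pool.Agent.Lib.MP_453ac3_co.UB.Delta
import Pool.Agent.Lib.MP_453ac3_co.UB.Reg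
import Pool.Agent.Lib.MP_453ac3_co.UB.Hub
import Pool.Agent.Lib.MP_453ac3_co.UB.Graph
import Pool.Agent.Lib.MP_453ac3_co.UB.Route
import Pool.Agent.Lib.MP_453ac3_co.UB.Asm

/-! The upper bound. -/

namespace Pool.Agent.Lib.MP_453ac3_co.UB

theorem dcAll : DCStmt := dc reg (dcyc cyc) bas

theorem ub : UBStmt :=
  ubMain (reg1 step (win cyc) bas (marg1 dcAll bas (adj bas ind)) (delta bas) (fin bas))
    (reg2 step (win cyc) bas (marg2 dcAll bas)) (hubRed hub) (route col ext) plan deg del trans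

end Pool.Agent.Lib.MP_453ac3_co.UB
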