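import Pool.Agent.Lib.MP_453ac3_co.UB.St

/-! The two instances of the exchange step. -/

namespace Pool.Agent.Lib.MP_453ac3_co.UB

open Finset

namespace RegJ

theorem arith (g m n c six Λ lj ST SY : ℤ) (hg : 0 ≤ g) (hΛ : 0 ≤ Λ) (hj : lj ≤ Λ) (hn0 : 0 ≤ n)
    (hn : n ≤ 13 * m) (hc : 26 * g * c ≤ 13 * m) (hT : ST ≤ m * six + c * Λ)
    (hY : g * m * six + m * Λ ≤ g * SY) : 26 * g * ST + n * lj ≤ 26 * g * SY := by
  have h1 := mul_le_mul_of_nonneg_left hT hg
  have h2 := mul_le_mul_of_nonneg_left hj hn0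
  have h3 := mul_le_mul_of_nonneg_right hn hΛ
  have h4 := mul_le_mul_of_nonneg_right hc hΛ
  nlinarith

theorem tok_ne : ∀ (c : Fin 9) (o : Bool), (tok c o).val + (tok c (!o)).val ≠ 1 := by decide

theorem dem_congr (P Q : Fin 5) (h : P.val + Q.val ≠ 1) (p k k' : Fin 3) (i : Fin 9) :
    dem P Q p k i = dem P Q p k' i := by
  unfold dem
  by_cases h1 : P.val < 2 ∧ Q.val < 2
  · have h2 : P = Q := Fin.ext (by omega)
    simp only [h2, if_true]
  · simp only [h1, if_false]

theorem tc_ge : ∀ l : Fin 3, ¬ (tc l).val < 6 := by decide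

theorem spk_lt : ∀ (X : Bool) (l : Fin 3), (spk X l).val < 6 := by decide

theorem tc_inj : ∀ l l' : Fin 3, tc l = tc l' → l = l' := by decide

theorem tc_surj : ∀ i : Fin 9, ¬ i.val < 6 → ∃ l, tc l = i := by decide

theorem sum_six (lam : Fin 9 → ℤ) (m : ℤ) :
    ∑ i, lam i * (if i.val < 6 then m else 0) = m * six lam := by
  simp [Fin.sum_univ_succ, six]
  ring

variable {β : Type} [DecidableEq β] [Fintype β] (I : Inst β)

/-- States whose last decoration lies in `L` away from the loops. -/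
def AA (L : Finset (Fin 3)) : Set (β → Dc) :=
  {s | I.Fix s ∧ ∀ b, ¬ (I.σ b = b ∧ b ∉ I.fx) → (s b).2.2 ∈ L}

omit [Fintype β] in
theorem adm_of {L : Finset (Fin 3)} {s : β → Dc} (h : s ∈ AA I L) : I.Adm L s := by
  refine ⟨h.1, fun b hb => h.2 b fun hl => ?_⟩
  unfold Inst.NS at hb
  rw [hl.1] at hb
  exact tok_ne _ _ hb

theorem of_adm {L : Finset (Fin 3)} {l0 : Fin 3} (h0 : l0 ∈ L) {s : β → Dc} (h : I.Adm L s) :
    ∃ s' ∈ AA I L, ∀ i, I.y s' i = I.y s i := by
  classical
  let s' : β → Dc := fun b =>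
    if (I.σ b = b ∧ b ∉ I.fx) ∨ I.NS s b then s b else ((s b).1, (s b).2.1, l0)
  have h1 : ∀ b, (s' b).1 = (s b).1 := fun b => by
    simp only [s']
    split_ifs <;> rfl
  refine ⟨s', ⟨fun b hb => (h1 b).trans (h.1 b hb), fun b hb => ?_⟩, fun i => ?_⟩
  · simp only [s']
    split_ifs with h2
    · exact h.2 b (h2.resolve_left hb)
    · exact h0
  · refine Finset.sum_congr rfl fun b _ => ?_
    by_cases h2 : (I.σ b = b ∧ b ∉ I.fx) ∨ I.NS s b
    · have h3 : s' b = s b := if_pos h2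
      simp only [Inst.sup, h1, h3]
    · have h3 : s' b = ((s b).1, (s b).2.1, l0) := if_neg h2
      rw [not_or] at h2
      simp only [Inst.sup, h1, if_neg h2.1]
      rw [h3]
      exact dem_congr _ _ h2.2 _ _ _ _

theorem delta (hb : ∀ b x x' i, |I.sup b x x' i| ≤ 1) (win : β → β) (K : ℕ) (w : β)
    (hK : (univ.filter fun b => win b = w).card ≤ K) (s s' : β → Dc) (i : Fin 9) :
    |I.y (mix win s s' w) i - I.y s i| ≤ (4 * K : ℕ) := by
  have h1 : ∀ b, |I.sup b (mix win s s' w b) (mix win s s' w (I.σ b)) i -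
      I.sup b (s b) (s (I.σ b)) i| ≤
      (if win b = w then 2 else 0) + (if win (I.σ b) = w then 2 else 0) := fun b => by
    have h2 := abs_le.1 (hb b (mix win s s' w b) (mix win s s' w (I.σ b)) i)
    have h3 := abs_le.1 (hb b (s b) (s (I.σ b)) i)
    by_cases ha : win b = w
    · rw [if_pos ha, abs_le]
      split_ifs <;> constructor <;> linarith [h2.1, h2.2, h3.1, h3.2]
    · by_cases hc : win (I.σ b) = w
      · rw [if_neg ha, if_pos hc, abs_le]
        constructor <;> linarith [h2.1, h2.2, h3.1, h3.2]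
      · simp [mix, ha, hc]
  have h4 : ∑ b, (if win b = w then (2 : ℤ) else 0) ≤ 2 * K := by
    rw [← Finset.sum_filter, Finset.sum_const, nsmul_eq_mul]
    have : ((univ.filter fun b => win b = w).card : ℤ) ≤ K := by exact_mod_cast hK
    linarith
  have h5 : ∑ b, (if win (I.σ b) = w then (2 : ℤ) else 0) = ∑ b, if win b = w then 2 else 0 :=
    Equiv.sum_comp I.σ fun b => if win b = w then (2 : ℤ) else 0
  unfold Inst.y
  rw [← Finset.sum_sub_distrib]
  refine (Finset.abs_sum_le_sum_abs _ _).trans ((Finset.sum_le_sum fun b _ => h1 b).trans ?_)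
  rw [Finset.sum_add_distrib, h5]
  push_cast
  linarith

end RegJ

open RegJ in
theorem reg2 (h1 : StepStmt) (h2 : WinStmt) (h3 : BasStmt) (h4 : Marg2Stmt) : Reg2Stmt := by
  classical
  intro q hq
  obtain ⟨g, m0, hg, h4⟩ := h4 q hq
  obtain ⟨K, hK⟩ : ∃ K, K = 900 * (26 * g) := ⟨_, rfl⟩
  obtain ⟨D, hD⟩ : ∃ D, D = 26 * g * 9 * (4 * K) ^ 2 := ⟨_, rfl⟩
  refine ⟨m0 + 3 + 26 * g * (9 * D), fun β _ _ I m e hok hm hqe hL => ?_⟩
  obtain ⟨L, hLd⟩ : ∃ L : Finset (Fin 3), ∀ l, l ∉ L ↔ I.Few ((e - m) / 200) l :=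
    ⟨univ.filter fun l => ¬ I.Few ((e - m) / 200) l, fun l => by simp⟩
  obtain ⟨l0, hl0⟩ := hL
  have h0 : l0 ∈ L := by_contra fun h => hl0 ((hLd l0).1 h)
  have hc := h3.card β I m e hok
  haveI : Nonempty β := Fintype.card_pos_iff.1 (by omega)
  obtain ⟨win, -, hw2, hw3⟩ := h2 β I.σ (fun _ => True) K (by omega)
  let T : Fin 9 → ℤ := fun i => if i.val < 6 then m + D else if ∃ l ∈ L, tc l = i then D else 0
  have hy : ∀ s ∈ AA I L, ∀ l ∉ L, 0 ≤ I.y s (tc l) := fun s hs l hl =>
    Finset.sum_nonneg fun b _ => h3.eqt β I L s (adm_of I hs) l hl b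
  have hT0 : ∀ l ∉ L, T (tc l) = 0 := fun l hl => by
    have : ¬ ∃ l' ∈ L, tc l' = tc l := by
      rintro ⟨l', h, h'⟩
      exact hl (tc_inj _ _ h' ▸ h)
    simp only [T, if_neg (tc_ge l), if_neg this]
  have hTle : ∀ i, T i ≤ (if i.val < 6 then (m : ℤ) else 0) + D := fun i => by
    simp only [T]
    split_ifs <;> omega
  obtain ⟨s, hs, hfin⟩ := h1 β Dc (Fin 9) I.σ (fun b x x' _ => I.sup b x x') (AA I L) T win
    (26 * g) K (4 * K) (fun b x x' _ i => h3.bound β I b x x' i)
    ⟨fun b => (I.o0 b, 0, l0), fun _ _ => rfl, fun _ _ => h0⟩ (by omega)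
    (by rw [Fintype.card_fin]; omega) hw3
    (fun s hs s' hs' w => ⟨⟨fun b hb => by
        unfold mix
        split_ifs
        exacts [hs'.1 b hb, hs.1 b hb], fun b hb => by
        unfold mix
        split_ifs
        exacts [hs'.2 b hb, hs.2 b hb]⟩,
      delta I (h3.bound β I) win K w (by simpa using hw2 w) s s'⟩)
    (fun s hs j => by
      obtain ⟨lam, hlam⟩ : ∃ lam : Fin 9 → ℤ, ∀ i, lam i = max (T i - I.y s i) 0 :=
        ⟨_, fun _ => rfl⟩
      have hl0 : ∀ i, 0 ≤ lam i := fun i => by rw [hlam]; exact le_max_right _ _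
      obtain ⟨j0, hj0⟩ := Finite.exists_max lam
      obtain ⟨s1, hs1, hm1⟩ := h4 β I m e hok (by omega) hqe L ⟨l0, h0⟩ hLd lam hl0
        (fun l hl => by
          rw [hlam, hT0 l hl]
          have := hy s hs l hl
          omega) j0
      obtain ⟨s2, hs2, he⟩ := of_adm I h0 hs1
      refine ⟨s2, hs2, ?_⟩
      have hST : ∑ i, lam i * T i ≤ m * six lam + 9 * D * lam j0 := by
        have h5 : ∀ i, lam i * T i ≤ lam i * (if i.val < 6 then (m : ℤ) else 0) + D * lam j0 :=
          fun i => by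
            have h6 := mul_le_mul_of_nonneg_left (hTle i) (hl0 i)
            have h7 := mul_le_mul_of_nonneg_left (hj0 i) (Int.natCast_nonneg D)
            linarith
        refine (Finset.sum_le_sum fun i _ => h5 i).trans ?_
        rw [Finset.sum_add_distrib, sum_six]
        simp
        linarith
      have hc2 : 26 * (g : ℤ) * (9 * D) ≤ 13 * m := by
        have : 26 * g * (9 * D) ≤ 13 * m := by omega
        exact_mod_cast this
      have := arith g m (Fintype.card β) (9 * D) (six lam) (lam j0) (lam j) _ _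
        (Int.natCast_nonneg g) (hl0 j0) (hj0 j) (Int.natCast_nonneg _) (by omega) hc2 hST hm1
      have ht : ∀ s' i, tot I.σ (fun b x x' _ => I.sup b x x') s' i = I.y s' i := fun _ _ => rfl
      simp only [ht, ← hlam, he]
      push_cast
      exact this)
  refine ⟨s, hs.1, fun i => ?_⟩
  have h5 : T i - I.y s i ≤ D := by
    have h6 := hfin i
    rw [Fintype.card_fin] at h6
    rw [hD]
    exact_mod_cast h6
  by_cases hi : i.val < 6
  · simp only [T, if_pos hi] at h5 ⊢
    linarith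
  · rw [if_neg hi]
    obtain ⟨l, rfl⟩ := tc_surj i hi
    by_cases hl : l ∈ L
    · have : ∃ l' ∈ L, tc l' = tc l := ⟨l, hl, rfl⟩
      simp only [T, if_neg hi, if_pos this] at h5
      linarith
    · exact hy s hs l hl

open RegJ in
theorem reg1 (h1 : StepStmt) (h2 : WinStmt) (h3 : BasStmt) (h4 : Marg1Stmt) (h5 : DeltaStmt)
    (h6 : FinStmt) : Reg1Stmt := by
  classical
  intro q hq
  obtain ⟨g, m0, hg, h4⟩ := h4 q hq
  obtain ⟨K, hK⟩ : ∃ K, K = 2100 * (26 * g) := ⟨_, rfl⟩
  obtain ⟨D, hD⟩ : ∃ D, D = 26 * g * 21 * (100 * K) ^ 2 := ⟨_, rfl⟩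
  refine ⟨m0 + 3 + 26 * g * (84 * D), fun β _ _ I m e hok hm hqe hF => ?_⟩
  have hc := h3.card β I m e hok
  haveI : Nonempty β := Fintype.card_pos_iff.1 (by omega)
  obtain ⟨win, hw1, hw2, hw3⟩ := h2 β I.σ (fun b => ¬ hard (I.c b) (I.c (I.σ b))) K (by omega)
  have hcard : Fintype.card (Fin 9 ⊕ (Bool × Fin 3 × Bool)) = 21 := by simp
  let f : β → Dc → Dc → Dc → Fin 9 ⊕ (Bool × Fin 3 × Bool) → ℤ :=
    fun b x x' x'' => Sum.elim (I.sup b x x') (I.rdy b x x' x'')
  let T : Fin 9 ⊕ (Bool × Fin 3 × Bool) → ℤ :=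
    Sum.elim (fun i => if i.val < 6 then m else 0) fun _ => 7 * D
  have ht1 : ∀ s i, tot I.σ f s (Sum.inl i) = I.y s i := fun _ _ => rfl
  have ht2 : ∀ s t, tot I.σ f s (Sum.inr t) = I.z s t := fun _ _ => rfl
  have hT1 : ∀ i, T (Sum.inl i) = if i.val < 6 then (m : ℤ) else 0 := fun _ => rfl
  have hT2 : ∀ t, T (Sum.inr t) = 7 * D := fun _ => rfl
  obtain ⟨s, hs, hfin⟩ := h1 β Dc _ I.σ f {s | I.Adm ∅ s} T win (26 * g) K (100 * K)
    (fun b x x' x'' i => by
      rcases i with i | t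
      · exact h3.bound β I b x x' i
      · show |I.rdy b x x' x'' t| ≤ 1
        unfold Inst.rdy
        split_ifs <;> simp)
    ⟨fun b => (if b ∈ I.fx then I.o0 b else false, 0, 0), h3.dir β I _ false
      (fun b hb => if_pos hb) fun b hb => if_neg fun h => by have := hok.fxE b h; omega⟩
    (by omega) (by rw [hcard]; omega) hw3
    (fun s hs s' hs' w => by
      obtain ⟨a1, a2, a3⟩ := h5 β I win K hw1 hw2 s s' hs hs' w
      refine ⟨a1, fun i => ?_⟩
      push_cast
      rcases i with i | t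
      exacts [a2 i, a3 t])
    (fun s hs j => by
      obtain ⟨La, hLa⟩ : ∃ La : Fin 9 ⊕ (Bool × Fin 3 × Bool) → ℤ,
        ∀ i, La i = max (T i - tot I.σ f s i) 0 := ⟨_, fun _ => rfl⟩
      have hl0 : ∀ i, 0 ≤ La i := fun i => by rw [hLa]; exact le_max_right _ _
      obtain ⟨j0, hj0⟩ := Finite.exists_max La
      obtain ⟨s1, hs1, hm1⟩ := h4 β I m e hok (by omega) hqe hF (fun i => La (Sum.inl i))
        (fun t => La (Sum.inr t)) (fun _ => hl0 _) (fun _ => hl0 _)
        (fun l => by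
          have : 0 ≤ I.y s (tc l) :=
            Finset.sum_nonneg fun b _ => h3.eqt β I ∅ s hs l (by simp) b
          rw [hLa, hT1, ht1, if_neg (tc_ge l)]
          omega)
        (fun X => by
          have a1 := h3.three β I m e hok s X
          rw [Fin.sum_univ_three] at a1
          have a2 : ∃ l, (m : ℤ) ≤ I.y s (spk X l) := by
            by_contra hn
            have b0 := not_le.1 fun h => hn ⟨0, h⟩
            have b1 := not_le.1 fun h => hn ⟨1, h⟩
            have b2 := not_le.1 fun h => hn ⟨2, h⟩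
            linarith
          obtain ⟨l, hl⟩ := a2
          refine ⟨l, ?_⟩
          rw [hLa, hT1, ht1, if_pos (spk_lt X l)]
          omega)
        (La j0) (by
          rcases j0 with i | t
          exacts [Or.inl ⟨i, rfl⟩, Or.inr ⟨t, rfl⟩])
      refine ⟨s1, hs1, ?_⟩
      have hST : ∑ i, La i * T i ≤ m * six (fun i => La (Sum.inl i)) + 84 * D * La j0 := by
        rw [Fintype.sum_sum_type]
        simp only [hT1, hT2]
        rw [sum_six fun i => La (Sum.inl i)]
        have a1 : ∑ t, La (Sum.inr t) * (7 * (D : ℤ)) ≤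
            ∑ _t : Bool × Fin 3 × Bool, La j0 * (7 * (D : ℤ)) :=
          Finset.sum_le_sum fun t _ => mul_le_mul_of_nonneg_right (hj0 _) (by positivity)
        rw [Finset.sum_const, Finset.card_univ] at a1
        have a2 : Fintype.card (Bool × Fin 3 × Bool) = 12 := by simp
        rw [a2, nsmul_eq_mul] at a1
        push_cast at a1
        linarith
      have hc2 : 26 * (g : ℤ) * (84 * D) ≤ 13 * m := by
        have : 26 * g * (84 * D) ≤ 13 * m := by omega
        exact_mod_cast this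
      have := arith g m (Fintype.card β) (84 * D) _ (La j0) (La j) _ _
        (Int.natCast_nonneg g) (hl0 j0) (hj0 j) (Int.natCast_nonneg _) (by omega) hc2 hST hm1
      simp only [← hLa]
      rw [Fintype.sum_sum_type fun i => La i * tot I.σ f s1 i]
      push_cast
      exact this)
  have hle : ∀ i, T i - tot I.σ f s i ≤ D := fun i => by
    have a1 := hfin i
    rw [hcard] at a1
    rw [hD]
    exact_mod_cast a1
  refine h6 β I m e hok s hs fun t => ?_
  have a0 : ∀ i : Fin 9, i.val < 6 → max (m - I.y s i) 0 ≤ (D : ℤ) := fun i hi => by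
    have a1 := hle (Sum.inl i)
    rw [hT1, ht1, if_pos hi] at a1
    omega
  have a1 := hle (Sum.inr t)
  rw [hT2, ht2] at a1
  have b0 := a0 0 (by decide)
  have b1 := a0 1 (by decide)
  have b2 := a0 2 (by decide)
  have b3 := a0 3 (by decide)
  have b4 := a0 4 (by decide)
  have b5 := a0 5 (by decide)
  unfold six
  linarith

end Pool.Agent.Lib.MP_453ac3_co.UB
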